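import Pool.Agent.K6.H60.TW.Stm

set_option autoImplicit false

/-!
MP_7ee132_co, piece BAS2: the Hamilton cycle of level 2 with its tracked and free edges.
-/

namespace Pool.Agent.K6.H60.TW

namespace BAS2

lemma size0 {t : T} (h : t.size = 0) : t = .nil := by
  cases t with
  | nil => rfl
  | node a b c d => simp only [T.size] at h; omega

lemma size1 {t : T} (h : t.size = 1) : t = L := by
  cases t with
  | nil => simp [T.size] at h
  | node a b c d =>
    simp only [T.size] at h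
    rw [size0 (t := a) (by omega), size0 (t := b) (by omega), size0 (t := c) (by omega),
      size0 (t := d) (by omega)]
    rfl

lemma size2 {t : T} (h : t.size = 2) : t = .node L .nil .nil .nil ∨ t = .node .nil L .nil .nil ∨
    t = .node .nil .nil L .nil ∨ t = .node .nil .nil .nil L := by
  cases t with
  | nil => simp [T.size] at h
  | node a b c d =>
    simp only [T.size] at h
    have h4 : a.size = 1 ∨ b.size = 1 ∨ c.size = 1 ∨ d.size = 1 := by omega
    rcases h4 with h4 | h4 | h4 | h4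
    · rw [size1 h4, size0 (t := b) (by omega), size0 (t := c) (by omega),
        size0 (t := d) (by omega)]
      exact Or.inl rfl
    · rw [size1 h4, size0 (t := a) (by omega), size0 (t := c) (by omega),
        size0 (t := d) (by omega)]
      exact Or.inr (Or.inl rfl)
    · rw [size1 h4, size0 (t := b) (by omega), size0 (t := a) (by omega),
        size0 (t := d) (by omega)]
      exact Or.inr (Or.inr (Or.inl rfl))
    · rw [size1 h4, size0 (t := b) (by omega), size0 (t := c) (by omega),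
        size0 (t := a) (by omega)]
      exact Or.inr (Or.inr (Or.inr rfl))

def lst : List P := [A1, A2, B1, B2, A3, A4, B3, B4, M2]

lemma mem_lst (x : P) : x ∈ lst ↔ x ∈ VV 2 := by
  constructor
  · intro h
    simp only [lst, List.mem_cons, List.not_mem_nil, or_false] at h
    rcases h with h | h | h | h | h | h | h | h | h <;> subst h <;> rfl
  · intro h
    obtain ⟨x, y⟩ := x
    have h' : x.size + y.size = 2 := h
    have h3 : x.size = 2 ∧ y.size = 0 ∨ x.size = 1 ∧ y.size = 1 ∨ x.size = 0 ∧ y.size = 2 := by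
      omega
    rcases h3 with ⟨h3, h4⟩ | ⟨h3, h4⟩ | ⟨h3, h4⟩
    · rw [size0 h4]
      rcases size2 h3 with h5 | h5 | h5 | h5 <;> subst h5 <;>
        simp [lst, A1, A2, A3, A4]
    · rw [size1 h3, size1 h4]
      simp [lst, M2]
    · rw [size0 h3]
      rcases size2 h4 with h5 | h5 | h5 | h5 <;> subst h5 <;>
        simp [lst, B1, B2, B3, B4]

lemma nodup : lst.Nodup := by decide

lemma aLn : Adj (L, .nil) (.nil, L) := Adj.down _ _ _ _ _

lemma chain : lst.IsChain Adj := by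
  simp only [lst, List.isChain_cons_cons, List.isChain_singleton, and_true]
  refine ⟨?_, ?_, ?_, ?_, ?_, ?_, ?_, ?_⟩
  · exact Adj.l1 _ _ _ aLn
  · exact Adj.down _ _ _ _ _
  · exact Adj.r1 _ _ _ aLn
  · exact Adj.up _ _ _ _ _
  · exact Adj.l2 _ _ _ aLn
  · exact Adj.down _ _ _ _ _
  · exact Adj.r2 _ _ _ aLn
  · exact Adj.up _ _ _ _ _

lemma last : Adj M2 A1 := Adj.up _ _ _ _ _

lemma inf1 : [A1, A2] <:+: lst := ⟨[], [B1, B2, A3, A4, B3, B4, M2], rfl⟩
lemma inf2 : [A2, B1] <:+: lst := ⟨[A1], [B2, A3, A4, B3, B4, M2], rfl⟩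
lemma inf3 : [B1, B2] <:+: lst := ⟨[A1, A2], [A3, A4, B3, B4, M2], rfl⟩
lemma inf4 : [B2, A3] <:+: lst := ⟨[A1, A2, B1], [A4, B3, B4, M2], rfl⟩
lemma inf5 : [A3, A4] <:+: lst := ⟨[A1, A2, B1, B2], [B3, B4, M2], rfl⟩
lemma inf6 : [A4, B3] <:+: lst := ⟨[A1, A2, B1, B2, A3], [B4, M2], rfl⟩
lemma inf7 : [B3, B4] <:+: lst := ⟨[A1, A2, B1, B2, A3, A4], [M2], rfl⟩
lemma inf8 : [B4, M2] <:+: lst := ⟨[A1, A2, B1, B2, A3, A4, B3], [], rfl⟩

lemma port10 (s : ℕ) : port 1 0 s = (((L, .nil), (.nil, .nil)), ((.nil, L), (.nil, .nil))) := by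
  simp [port]

lemma port01 (s : ℕ) : port 0 1 s = (((.nil, .nil), (L, .nil)), ((.nil, .nil), (.nil, L))) := by
  simp [port]

lemma track {e : Sym2 P} (he : e ∈ KK 2) : ∃ a b, [a, b] <:+: lst ∧ e = s(a, b) := by
  obtain ⟨b, s, h1, h2, h3⟩ := he
  cases b with
  | A i j e =>
    simp only [Blk.Ok] at h1
    have he : e = .nil := size0 (by omega)
    subst he
    have h4 : (i = 1 ∧ j = 0) ∨ (i = 0 ∧ j = 1) := by omega
    rcases h4 with ⟨h4, h5⟩ | ⟨h4, h5⟩ <;> subst h4 <;> subst h5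
    · refine ⟨A1, A2, inf1, ?_⟩
      rw [h3]
      simp only [Blk.pe, Blk.fi, Blk.se, port10]
      rfl
    · refine ⟨A3, A4, inf5, ?_⟩
      rw [h3]
      simp only [Blk.pe, Blk.fi, Blk.se, port01]
      rfl
  | B i j =>
    simp only [Blk.Ok] at h1
    have h4 : (i = 1 ∧ j = 0) ∨ (i = 0 ∧ j = 1) := by omega
    rcases h4 with ⟨h4, h5⟩ | ⟨h4, h5⟩ <;> subst h4 <;> subst h5
    · refine ⟨B1, B2, inf3, ?_⟩
      rw [h3]
      simp only [Blk.pe, Blk.fi, Blk.se, port10]
      rfl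
    · refine ⟨B3, B4, inf7, ?_⟩
      rw [h3]
      simp only [Blk.pe, Blk.fi, Blk.se, port01]
      rfl
  | D i j =>
    simp only [Blk.Ok] at h1
    omega

lemma free {e : Sym2 P} (he : e ∈ FR 2) :
    e = s(A1, M2) ∨ ∃ a b, [a, b] <:+: lst ∧ e = s(a, b) := by
  obtain ⟨s, h1, h2, h3⟩ := he
  have h4 : s = 1 ∨ s = 2 ∨ s = 3 ∨ s = 4 ∨ s = 5 := by omega
  rcases h4 with h4 | h4 | h4 | h4 | h4 <;> subst h4
  · exact Or.inr ⟨A2, B1, inf2, h3⟩
  · exact Or.inr ⟨B2, A3, inf4, h3⟩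
  · exact Or.inr ⟨A4, B3, inf6, h3⟩
  · exact Or.inr ⟨B4, M2, inf8, h3⟩
  · exact Or.inl (h3.trans (Sym2.eq_swap))

end BAS2

theorem P_BAS2 : S_BAS2 := by
  refine ⟨BAS2.lst, A1, M2, BAS2.nodup, BAS2.mem_lst, ?_, rfl, rfl, BAS2.chain, BAS2.last, ?_⟩
  · simp [BAS2.lst]
  · rintro e (he | he)
    · exact Or.inr (BAS2.track he)
    · exact BAS2.free he

end Pool.Agent.K6.H60.TW
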