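import Pool.Agent.K6.H60.TW.Stm

/-!
# MP_7ee132_co: the Hamilton cycle of level 3 (piece BAS3 of helper60, written by helper28)
-/

namespace Pool.Agent.K6.H60.TW

namespace BAS3

/-- the steps `down`. -/
def stepD : T → T → T → T → Bool
  | .node a b c d, y, x', y' => decide (x' = a ∧ y' = .node b c d y)
  | .nil, _, _, _ => false

/-- the steps `up`. -/
def stepU : T → T → T → T → Bool
  | x, .node b c d e, x', y' => decide (x' = .node x b c d ∧ y' = e)
  | _, .nil, _, _ => false

/-- the steps in a node. -/
def stepN (f : P → P → Bool) : T → T → Bool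
  | .node a b c d, .node a' b' c' d' =>
      (decide (c = c' ∧ d = d') && f (a, b) (a', b')) ||
        (decide (a = a' ∧ b = b') && f (c, d) (c', d'))
  | _, _ => false

/-- a boolean test of adjacency (with fuel). -/
def adjB : ℕ → P → P → Bool
  | 0, _, _ => false
  | n + 1, p, p' => stepD p.1 p.2 p'.1 p'.2 || stepU p.1 p.2 p'.1 p'.2 ||
      (decide (p.2 = p'.2) && stepN (adjB n) p.1 p'.1) ||
      (decide (p.1 = p'.1) && stepN (adjB n) p.2 p'.2)

theorem adj_of_adjB : ∀ (n : ℕ) (p p' : P), adjB n p p' = true → Adj p p' := by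
  intro n
  induction n with
  | zero => intro p p' h; simp [adjB] at h
  | succ n ih =>
    rintro ⟨x, y⟩ ⟨x', y'⟩ h
    simp only [adjB, Bool.or_eq_true, Bool.and_eq_true, decide_eq_true_eq] at h
    rcases h with ((h | h) | ⟨rfl, h⟩) | ⟨rfl, h⟩
    · cases x with
      | nil => simp [stepD] at h
      | node a b c d =>
        simp only [stepD, decide_eq_true_eq] at h
        obtain ⟨rfl, rfl⟩ := h
        exact Adj.down _ _ _ _ _
    · cases y with
      | nil => simp [stepU] at h
      | node b c d e =>
        simp only [stepU, decide_eq_true_eq] at h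
        obtain ⟨rfl, rfl⟩ := h
        exact Adj.up _ _ _ _ _
    · cases x with
      | nil => simp [stepN] at h
      | node a b c d =>
        cases x' with
        | nil => simp [stepN] at h
        | node a' b' c' d' =>
          simp only [stepN, Bool.and_eq_true, Bool.or_eq_true, decide_eq_true_eq] at h
          obtain ⟨⟨rfl, rfl⟩, h⟩ | ⟨⟨rfl, rfl⟩, h⟩ := h
          · exact Adj.l1 _ _ _ (ih _ _ h)
          · exact Adj.l2 _ _ _ (ih _ _ h)
    · cases y with
      | nil => simp [stepN] at h
      | node b c d e =>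
        cases y' with
        | nil => simp [stepN] at h
        | node b' c' d' e' =>
          simp only [stepN, Bool.and_eq_true, Bool.or_eq_true, decide_eq_true_eq] at h
          obtain ⟨⟨rfl, rfl⟩, h⟩ | ⟨⟨rfl, rfl⟩, h⟩ := h
          · exact Adj.r1 _ _ _ (ih _ _ h)
          · exact Adj.r2 _ _ _ (ih _ _ h)

/-- the trees of size at most `n`. -/
def tr : ℕ → List T
  | 0 => [.nil]
  | n + 1 => .nil :: ((tr n).flatMap fun a => (tr n).flatMap fun b => (tr n).flatMap fun c =>
      (tr n).filterMap fun d =>
        if a.size + b.size + c.size + d.size ≤ n then some (.node a b c d) else none)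

theorem mem_tr : ∀ (n : ℕ) (t : T), t.size ≤ n → t ∈ tr n := by
  intro n
  induction n with
  | zero =>
    intro t h
    cases t with
    | nil => simp [tr]
    | node a b c d => simp [T.size] at h
  | succ n ih =>
    intro t h
    cases t with
    | nil => simp [tr]
    | node a b c d =>
      simp only [T.size] at h
      simp only [tr, List.mem_cons, List.mem_flatMap, List.mem_filterMap]
      refine Or.inr ⟨a, ih a (by omega), b, ih b (by omega), c, ih c (by omega), d,
        ih d (by omega), ?_⟩
      rw [if_pos (by omega)]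

/-- consecutive elements of a list. -/
def cons2 : List P → P → P → Bool
  | x :: y :: l, a, b => decide (x = a ∧ y = b) || cons2 (y :: l) a b
  | _, _, _ => false

theorem infix_of_cons2 : ∀ (l : List P) (a b : P), cons2 l a b = true → [a, b] <:+: l := by
  intro l
  induction l with
  | nil => intro a b h; simp [cons2] at h
  | cons x l ih =>
    intro a b h
    cases l with
    | nil => simp [cons2] at h
    | cons y l =>
      simp only [cons2, Bool.or_eq_true, decide_eq_true_eq] at h
      rcases h with ⟨rfl, rfl⟩ | h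
      · exact ⟨[], l, by simp⟩
      · obtain ⟨s, t, hst⟩ := ih a b h
        exact ⟨x :: s, t, by simp [← hst]⟩

/-- the test of the edges. -/
def tst (e : P × P) : Bool := cons2 cyc3 e.1 e.2 || cons2 cyc3 e.2 e.1

theorem of_tst (e : P × P) (h : tst e = true) :
    ∃ a b, [a, b] <:+: cyc3 ∧ s(e.1, e.2) = s(a, b) := by
  simp only [tst, Bool.or_eq_true] at h
  rcases h with h | h
  · exact ⟨_, _, infix_of_cons2 _ _ _ h, rfl⟩
  · exact ⟨_, _, infix_of_cons2 _ _ _ h, Sym2.eq_swap⟩

theorem chain_cyc3 : cyc3.IsChain Adj := by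
  have h : cyc3.IsChain (fun x y => adjB 4 x y = true) := by decide +kernel
  exact h.imp (fun x y hxy => adj_of_adjB _ _ _ hxy)

theorem nodup_cyc3 : cyc3.Nodup := by decide +kernel

theorem all_cyc3 : ∀ x ∈ cyc3, psize x = 3 := by decide +kernel

theorem mem_cyc3 : ∀ x ∈ tr 3, ∀ y ∈ tr 3, psize (x, y) = 3 → (x, y) ∈ cyc3 := by
  decide +kernel

end BAS3

open BAS3 in
theorem P_BAS3 : S_BAS3 := by
  refine ⟨cyc3, (.nil, (.node .nil .nil .nil (.node .nil .nil .nil L))),
    (L, (.node .nil .nil .nil L)), nodup_cyc3, ?_, by decide, rfl, rfl, chain_cyc3,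
    adj_of_adjB 4 _ _ (by decide +kernel), ?_⟩
  · intro x
    constructor
    · intro hx
      exact all_cyc3 x hx
    · intro hx
      have hx' : psize x = 3 := hx
      have h1 : x.1.size + x.2.size = 3 := hx'
      exact mem_cyc3 x.1 (mem_tr 3 _ (by omega)) x.2 (mem_tr 3 _ (by omega)) hx'
  · rintro e (⟨b, s, hb, hs, rfl⟩ | ⟨s, h1, h5, rfl⟩)
    · right
      apply of_tst (b.emb (port b.fi b.se s).1, b.emb (port b.fi b.se s).2)
      cases b with
      | A i j e =>
        obtain ⟨hij, hk⟩ := hb
        have he : e ∈ tr 1 := mem_tr 1 e (by omega)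
        have he' : e = .nil ∨ e = L := by
          have : ∀ e ∈ tr 1, e = .nil ∨ e = L := by decide +kernel
          exact this e he
        simp only [Blk.fi, Blk.se]
        rcases he' with rfl | rfl
        · have hs' : s = 1 ∨ s = 3 := hs
          have hk' : i + j = 2 := by
            simp only [T.size] at hk; omega
          have hi : i = 0 ∧ j = 2 ∨ i = 1 ∧ j = 1 ∨ i = 2 ∧ j = 0 := by omega
          rcases hi with ⟨rfl, rfl⟩ | ⟨rfl, rfl⟩ | ⟨rfl, rfl⟩ <;>
            rcases hs' with rfl | rfl <;> decide +kernel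
        · have hs' : s = 2 ∨ s = 3 := hs
          have hk' : i + j = 1 := by
            simp only [T.size, L] at hk; omega
          have hi : i = 0 ∧ j = 1 ∨ i = 1 ∧ j = 0 := by omega
          rcases hi with ⟨rfl, rfl⟩ | ⟨rfl, rfl⟩ <;>
            rcases hs' with rfl | rfl <;> decide +kernel
      | B i j =>
        obtain ⟨hij, hk⟩ := hb
        simp only [Blk.fi, Blk.se]
        have hs' : s = 1 ∨ s = 3 := hs
        have hi : i = 0 ∧ j = 2 ∨ i = 1 ∧ j = 1 ∨ i = 2 ∧ j = 0 := by omega
        rcases hi with ⟨rfl, rfl⟩ | ⟨rfl, rfl⟩ | ⟨rfl, rfl⟩ <;>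
          rcases hs' with rfl | rfl <;> decide +kernel
      | D i j =>
        obtain ⟨hij, hk⟩ := hb
        simp only [Blk.fi, Blk.se]
        have hs' : s = 3 := hs
        have hi : i = 0 ∧ j = 1 ∨ i = 1 ∧ j = 0 := by omega
        subst hs'
        rcases hi with ⟨rfl, rfl⟩ | ⟨rfl, rfl⟩ <;> decide +kernel
    · right
      apply of_tst (r 3 s)
      have hs : s = 1 ∨ s = 2 ∨ s = 3 ∨ s = 4 ∨ s = 5 := by omega
      rcases hs with rfl | rfl | rfl | rfl | rfl <;> decide +kernel

end Pool.Agent.K6.H60.TW
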