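import Pool.Agent.K6.H60.TW.Stm2

/-! # Piece BLK (helper5) -/

namespace Pool.Agent.K6.H60.TW

open Blk

namespace BLK

theorem fi_lt {k : ℕ} {b : Blk} (h : b.Ok k) : b.fi < k ∧ b.se < k ∧ 1 ≤ b.fi + b.se := by
  cases b with
  | A i j e => simp only [Blk.Ok, Blk.fi, Blk.se] at *; omega
  | B i j => simp only [Blk.Ok, Blk.fi, Blk.se] at *; omega
  | D i j => simp only [Blk.Ok, Blk.fi, Blk.se] at *; omega

theorem cyc (hs : S_SHAP) (hm : S_MAPC) (hl : S_LADJ) {k : ℕ}
    (hM : ∀ i, 2 ≤ i → i < k → Main i) {b : Blk} (hb : b.Ok k) (h2 : 2 ≤ b.fi + b.se) :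
    Cyc Adj b.SS b.FE := by
  have h := fi_lt hb
  exact (hm _ _ (Box Adj Adj) Adj b.emb (VV b.fi ×ˢ VV b.se) (KE b.fi b.se ∪ PE b.fi b.se)
    ((hl.2.2 b).1.injOn) (fun x _ y _ hxy => (hl.2.2 b).2 x y hxy)).1
    (hs k hM b.fi b.se h.1 h.2.1 h2)

theorem size_nil {t : T} (h : t.size = 0) : t = .nil := by
  cases t with
  | nil => rfl
  | node a b c d => simp only [T.size] at h; omega

theorem size_one {t : T} (h : t.size = 1) : t = L := by
  cases t with
  | nil => simp only [T.size] at h; omega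
  | node a b c d =>
    simp only [T.size] at h
    have ha : a.size = 0 := by omega
    have hb : b.size = 0 := by omega
    have hc : c.size = 0 := by omega
    have hd : d.size = 0 := by omega
    rw [size_nil ha, size_nil hb, size_nil hc, size_nil hd]
    rfl

theorem vv0 (p : P) : p ∈ VV 0 ↔ p = (.nil, .nil) := by
  constructor
  · intro h
    have h' : p.1.size + p.2.size = 0 := h
    exact Prod.ext (size_nil (by omega)) (size_nil (by omega))
  · rintro rfl
    rfl

theorem vv1 (p : P) : p ∈ VV 1 ↔ p = (L, .nil) ∨ p = (.nil, L) := by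
  constructor
  · intro h
    have h' : p.1.size + p.2.size = 1 := h
    rcases Nat.eq_zero_or_pos p.1.size with h0 | h0
    · exact Or.inr (Prod.ext (size_nil h0) (size_one (by omega)))
    · exact Or.inl (Prod.ext (size_one (by omega)) (size_nil (by omega)))
  · rintro (rfl | rfl) <;> rfl

theorem adj0 : Adj (L, .nil) (.nil, L) := Adj.down .nil .nil .nil .nil .nil

/-- a path with two vertices -/
theorem two {V : Type} {R : V → V → Prop} {S : Set V} {u v : V} {e : Sym2 V} (huv : u ≠ v)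
    (hS : ∀ x, x ∈ S ↔ x = u ∨ x = v) (hR : R u v) (he : s(u, v) = e) : Pth R S u v {e} := by
  refine ⟨[u, v], by simp [huv], fun x => by simp [hS], rfl, rfl, by simp [hR], fun e' he' => ?_⟩
  rw [Set.mem_singleton_iff] at he'
  exact ⟨u, v, ⟨[], [], by simp⟩, by rw [he', he]⟩

/-- the ends of the port of a small block -/
theorem small {i j : ℕ} (h : i + j = 1) :
    (port i j 1).1 ≠ (port i j 1).2 ∧ Box Adj Adj (port i j 1).1 (port i j 1).2 ∧
    ∀ w : P × P, w ∈ VV i ×ˢ VV j ↔ w = (port i j 1).1 ∨ w = (port i j 1).2 := by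
  have hLn : (L : T) ≠ .nil := by unfold L; intro h; cases h
  rcases (by omega : (i = 0 ∧ j = 1) ∨ (i = 1 ∧ j = 0)) with ⟨rfl, rfl⟩ | ⟨rfl, rfl⟩
  · have e : port 0 1 1 = (((.nil, .nil), (L, .nil)), ((.nil, .nil), (.nil, L))) := rfl
    rw [e]
    refine ⟨?_, Or.inr ⟨rfl, adj0⟩, ?_⟩
    · intro h'
      exact hLn (congrArg (fun z : P × P => z.2.1) h')
    · rintro ⟨x, y⟩
      rw [Set.mem_prod, vv0, vv1]
      simp only [Prod.mk.injEq]
      tauto
  · have e : port 1 0 1 = (((L, .nil), (.nil, .nil)), ((.nil, L), (.nil, .nil))) := rfl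
    rw [e]
    refine ⟨?_, Or.inl ⟨adj0, rfl⟩, ?_⟩
    · intro h'
      exact hLn (congrArg (fun z : P × P => z.1.1) h')
    · rintro ⟨x, y⟩
      rw [Set.mem_prod, vv0, vv1]
      simp only [Prod.mk.injEq]
      tauto

end BLK

theorem P_BLK (hs : S_SHAP) (hm : S_MAPC) (ho : S_OPEN) (hl : S_LADJ) (hc : S_CHE)
    (_hz : S_SIZ) : S_BLK := by
  intro k hk hM
  have hsym := hl.1
  refine ⟨?_, fun b hb hbZ => ?_⟩
  · have hZ : (Z k).Ok k := by
      show 1 ≤ 0 + (k - 1) ∧ 0 + (k - 1) + 0 + 1 = k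
      omega
    have h2 : 2 ≤ (Z k).fi + (Z k).se := by
      show 2 ≤ 0 + (k - 1)
      omega
    have hE : EE k (Z k) = (Z k).FE := by
      unfold EE
      rw [if_neg (by omega), if_pos rfl]
    rw [hE]
    exact BLK.cyc hs hm hl hM hZ h2
  · rcases hc k hk b hb hbZ with ⟨h1, h3⟩ | ⟨h2, h3⟩
    · have hE : EE k b = {b.pe 1} := by
        unfold EE
        rw [if_pos h1]
      rw [hE]
      obtain ⟨s1, s2, s3⟩ := BLK.small h1
      have hinj := (hl.2.2 b).1
      have hne : b.emb (port b.fi b.se 1).1 ≠ b.emb (port b.fi b.se 1).2 := fun h => s1 (hinj h)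
      have hadj : Adj (b.emb (port b.fi b.se 1).1) (b.emb (port b.fi b.se 1).2) :=
        (hl.2.2 b).2 _ _ s2
      have hmem : ∀ x, x ∈ b.SS ↔ x = b.emb (port b.fi b.se 1).1 ∨
          x = b.emb (port b.fi b.se 1).2 := by
        intro x
        unfold SS
        rw [Set.mem_image]
        constructor
        · rintro ⟨w, hw, rfl⟩
          rcases (s3 w).1 hw with rfl | rfl
          · exact Or.inl rfl
          · exact Or.inr rfl
        · rintro (rfl | rfl)
          · exact ⟨_, (s3 _).2 (Or.inl rfl), rfl⟩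
          · exact ⟨_, (s3 _).2 (Or.inr rfl), rfl⟩
      have h4 : s(b.ch.1, b.ch.2) = s(b.emb (port b.fi b.se 1).1, b.emb (port b.fi b.se 1).2) := h3
      rcases Sym2.eq_iff.1 h4 with ⟨e1, e2⟩ | ⟨e1, e2⟩
      · exact BLK.two (by rw [e1, e2]; exact hne) (by rw [e1, e2]; exact hmem)
          (by rw [e1, e2]; exact hadj) h3
      · exact BLK.two (by rw [e1, e2]; exact hne.symm)
          (by rw [e1, e2]; exact fun x => (hmem x).trans or_comm)
          (by rw [e1, e2]; exact hsym _ _ hadj) h3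
    · have hE : EE k b = b.FE \ {s(b.ch.1, b.ch.2)} := by
        unfold EE
        rw [if_neg (by omega), if_neg hbZ]
      rw [hE]
      refine ho _ Adj hsym b.SS b.FE b.ch.1 b.ch.2 (BLK.cyc hs hm hl hM hb h2) ?_
      unfold FE
      rcases h3 with ⟨x, hx, hx'⟩ | ⟨s, hs1, hs2, -, hs3⟩
      · exact ⟨x, Or.inl hx, hx'⟩
      · refine ⟨s((port b.fi b.se s).1, (port b.fi b.se s).2), Or.inr ⟨s, hs1, hs2, rfl⟩, ?_⟩
        rw [hs3]
        rfl

end Pool.Agent.K6.H60.TW
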