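import Pool.Agent.K6.H60.TW.Stm2

set_option autoImplicit false

namespace Pool.Agent.K6.H60.TW

namespace CHE

open Blk

theorem col_range (t : T) : col t = 1 ∨ col t = 2 := by
  induction t with
  | nil => exact Or.inr rfl
  | node a b c d ha _ _ _ =>
    show 3 - col a = 1 ∨ 3 - col a = 2
    omega

/-- the second coordinate `nil`, first part of the block `B 0 (m)`. -/
theorem kkB (h : S_SIZ) {m : ℕ} (hm : 1 ≤ m) :
    s(((.nil, (dd m).1) : P), ((.nil, (dd m).2) : P)) ∈ KK (m + 1) := by
  obtain ⟨-, -, -, -, -, h6⟩ := h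
  refine ⟨.B 0 m, 3, ⟨by omega, by omega⟩, Or.inr rfl, ?_⟩
  show _ = s(((.nil, mk (port 0 m 3).1) : P), ((.nil, mk (port 0 m 3).2) : P))
  rw [(h6 m hm).1, (h6 m hm).2]

theorem kkA (h : S_SIZ) {m : ℕ} (hm : 1 ≤ m) :
    s((((dd m).1, .nil) : P), (((dd m).2, .nil) : P)) ∈ KK (m + 1) := by
  obtain ⟨-, -, -, -, -, h6⟩ := h
  refine ⟨.A 0 m .nil, 3, ⟨by omega, by simp [T.size]⟩, Or.inr rfl, ?_⟩
  show _ = s(((mk (port 0 m 3).1, .nil) : P), ((mk (port 0 m 3).2, .nil) : P))
  rw [(h6 m hm).1, (h6 m hm).2]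

theorem comb1 (h : S_SIZ) (n : ℕ) : ((comb n, .nil) : P) ∈ VV n := by
  show (comb n).size + 0 = n
  rw [h.2.2.2.1 n]; omega

theorem comb2 (h : S_SIZ) (n : ℕ) : ((.nil, comb n) : P) ∈ VV n := by
  show 0 + (comb n).size = n
  rw [h.2.2.2.1 n]; omega

end CHE

open CHE Blk in
theorem P_CHE (h : S_SIZ) : S_CHE := by
  intro k hk b hb hZ
  rcases b with ⟨i, j, e⟩ | ⟨i, j⟩ | ⟨i, j⟩
  · rcases e with _ | ⟨a, b, c, d⟩
    · -- A i j nil
      obtain ⟨h1, h2⟩ := hb
      have h2' : i + j + 0 + 1 = k := h2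
      have hi : 1 ≤ i := by
        rcases Nat.eq_zero_or_pos i with rfl | hi
        · exfalso
          apply hZ
          show Blk.A 0 j .nil = Blk.A 0 (k - 1) .nil
          congr 1
          omega
        · exact hi
      right
      refine ⟨show 2 ≤ i + j by omega, Or.inl ?_⟩
      rcases Nat.lt_or_ge i 2 with hi2 | hi2
      · have hcd : cd i j = ((comb i, (dd (j - 1)).1), (comb i, (dd (j - 1)).2)) :=
          if_neg (by omega)
        refine ⟨s(((.nil, comb i), (.nil, (dd (j - 1)).1)), ((.nil, comb i), (.nil, (dd (j - 1)).2))),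
          Or.inr ⟨hi2, show 2 ≤ j by omega, (.nil, (dd (j - 1)).1), (.nil, (dd (j - 1)).2),
            (.nil, comb i), ?_, comb2 h i, rfl⟩, ?_⟩
        · have := kkB h (m := j - 1) (by omega)
          rwa [show j - 1 + 1 = j by omega] at this
        · show _ = s(((.node .nil (cd i j).1.1 .nil (cd i j).1.2, .nil) : P),
            (.node .nil (cd i j).2.1 .nil (cd i j).2.2, .nil))
          rw [hcd]
          rfl
      · have hcd : cd i j = (((dd (i - 1)).1, comb j), ((dd (i - 1)).2, comb j)) :=
          if_pos hi2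
        refine ⟨s(((.nil, (dd (i - 1)).1), (.nil, comb j)), ((.nil, (dd (i - 1)).2), (.nil, comb j))),
          Or.inl ⟨hi2, (.nil, (dd (i - 1)).1), (.nil, (dd (i - 1)).2),
            (.nil, comb j), ?_, comb2 h j, rfl⟩, ?_⟩
        · have := kkB h (m := i - 1) (by omega)
          rwa [show i - 1 + 1 = i by omega] at this
        · show _ = s(((.node .nil (cd i j).1.1 .nil (cd i j).1.2, .nil) : P),
            (.node .nil (cd i j).2.1 .nil (cd i j).2.2, .nil))
          rw [hcd]
          rfl
    · -- A i j node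
      obtain ⟨h1, h2⟩ := hb
      have hc := col_range (.node a b c d)
      have hch : s((Blk.A i j (.node a b c d)).ch.1, (Blk.A i j (.node a b c d)).ch.2) =
          (Blk.A i j (.node a b c d)).pe (col (.node a b c d)) := rfl
      rcases Nat.lt_or_ge (i + j) 2 with hij | hij
      · left
        refine ⟨show i + j = 1 by omega, ?_⟩
        rw [hch]
        have hp : port i j (col (.node a b c d)) = port i j 1 := by
          unfold port
          rw [if_neg (by omega), if_neg (by omega), if_neg (by omega),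
            if_neg (show ¬ 2 ≤ i by omega), if_neg (show ¬ 2 ≤ j by omega),
            if_neg (show ¬ (i = 1 ∧ j = 1) by omega)]
        show s((mk (port i j (col (.node a b c d))).1, T.node a b c d),
          (mk (port i j (col (.node a b c d))).2, T.node a b c d)) =
          s((mk (port i j 1).1, T.node a b c d), (mk (port i j 1).2, T.node a b c d))
        rw [hp]
      · right
        refine ⟨hij, Or.inr ⟨col (.node a b c d), by omega, by omega, ?_, hch⟩⟩
        show ¬ (col (.node a b c d) = 3 - col (.node a b c d) ∨ col (.node a b c d) = 3)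
        omega
  · -- B i j
    obtain ⟨h1, h2⟩ := hb
    right
    refine ⟨show 2 ≤ i + j by omega, Or.inl ?_⟩
    rcases Nat.lt_or_ge i 2 with hi2 | hi2
    · have hcd : cd i j = ((comb i, (dd (j - 1)).1), (comb i, (dd (j - 1)).2)) :=
        if_neg (by omega)
      refine ⟨s(((.nil, comb i), ((dd (j - 1)).1, .nil)), ((.nil, comb i), ((dd (j - 1)).2, .nil))),
        Or.inr ⟨hi2, show 2 ≤ j by omega, ((dd (j - 1)).1, .nil), ((dd (j - 1)).2, .nil),
          (.nil, comb i), ?_, comb2 h i, rfl⟩, ?_⟩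
      · have := kkA h (m := j - 1) (by omega)
        rwa [show j - 1 + 1 = j by omega] at this
      · show _ = s(((.nil, .node .nil (cd i j).1.1 (cd i j).1.2 .nil) : P),
          (.nil, .node .nil (cd i j).2.1 (cd i j).2.2 .nil))
        rw [hcd]
        rfl
    · have hcd : cd i j = (((dd (i - 1)).1, comb j), ((dd (i - 1)).2, comb j)) :=
        if_pos hi2
      refine ⟨s(((.nil, (dd (i - 1)).1), (comb j, .nil)), ((.nil, (dd (i - 1)).2), (comb j, .nil))),
        Or.inl ⟨hi2, (.nil, (dd (i - 1)).1), (.nil, (dd (i - 1)).2),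
          (comb j, .nil), ?_, comb1 h j, rfl⟩, ?_⟩
      · have := kkB h (m := i - 1) (by omega)
        rwa [show i - 1 + 1 = i by omega] at this
      · show _ = s(((.nil, .node .nil (cd i j).1.1 (cd i j).1.2 .nil) : P),
          (.nil, .node .nil (cd i j).2.1 (cd i j).2.2 .nil))
        rw [hcd]
        rfl
  · -- D i j
    obtain ⟨h1, h2⟩ := hb
    right
    refine ⟨show 2 ≤ i + j by omega, Or.inr ⟨1, le_refl _, by omega, ?_, rfl⟩⟩
    show ¬ (1 = 3)
    omega

end Pool.Agent.K6.H60.TW
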