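import Pool.Agent.K6.H60.TW.Stm2

/-!
Piece `COV` of the call `call60` (MP_7ee132_co, statement of helper60, proof of helper95): the blocks
of level `k` cover the pairs of trees of size `k`.
-/

set_option autoImplicit false

namespace Pool.Agent.K6.H60.TW

open Blk

namespace COV

theorem size_eq_zero {t : T} (h : t.size = 0) : t = .nil := by
  cases t with
  | nil => rfl
  | node a b c d => simp only [T.size] at h; omega

theorem mk_size (w : P × P) : (mk w).size = 1 + psize w.1 + psize w.2 := by
  simp only [mk, T.size, psize]
  omega

end COV

theorem P_COV : S_COV := by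
  intro k hk
  ext p
  simp only [Set.mem_iUnion, Set.mem_setOf_eq, VV, SS, Set.mem_image, Set.mem_prod, exists_prop]
  constructor
  · rintro ⟨b, hb, w, ⟨hw1, hw2⟩, rfl⟩
    have h1 := COV.mk_size w
    cases b with
    | A i j e =>
      simp only [Blk.Ok, Blk.fi, Blk.se, Blk.emb, psize] at *
      omega
    | B i j =>
      simp only [Blk.Ok, Blk.fi, Blk.se, Blk.emb, psize, T.size] at *
      omega
    | D i j =>
      simp only [Blk.Ok, Blk.fi, Blk.se, Blk.emb, psize, T.size, L] at *
      omega
  · intro hp
    obtain ⟨x, y⟩ := p
    cases x with
    | nil =>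
      cases y with
      | nil => simp only [psize, T.size] at hp; omega
      | node a b c d =>
        simp only [psize, T.size] at hp
        refine ⟨.B (psize (a, b)) (psize (c, d)), ?_, ((a, b), (c, d)), ⟨rfl, rfl⟩, rfl⟩
        simp only [Blk.Ok, psize]
        omega
    | node a b c d =>
      by_cases h0 : a.size + b.size + c.size + d.size = 0
      · have ha := COV.size_eq_zero (t := a) (by omega)
        have hb := COV.size_eq_zero (t := b) (by omega)
        have hc := COV.size_eq_zero (t := c) (by omega)
        have hd := COV.size_eq_zero (t := d) (by omega)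
        subst ha hb hc hd
        cases y with
        | nil => simp only [psize, T.size] at hp; omega
        | node a b c d =>
          simp only [psize, T.size] at hp
          refine ⟨.D (psize (a, b)) (psize (c, d)), ?_, ((a, b), (c, d)), ⟨rfl, rfl⟩, rfl⟩
          simp only [Blk.Ok, psize]
          omega
      · simp only [psize, T.size] at hp
        refine ⟨.A (psize (a, b)) (psize (c, d)) y, ?_, ((a, b), (c, d)), ⟨rfl, rfl⟩, rfl⟩
        simp only [Blk.Ok, psize]
        omega

end Pool.Agent.K6.H60.TW
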