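import Pool.Agent.K6.H60.TW.Stm2

/-!
Piece DISJ of the project of helper60 (`MP_7ee132_co`), by helper36.
-/

namespace Pool.Agent.K6.H60.TW

open Blk

theorem P_DISJ : S_DISJ := by
  intro k b b' hb hb' hne
  rw [Set.disjoint_left]
  rintro x ⟨w, ⟨h1, h2⟩, rfl⟩ ⟨w', ⟨h1', h2'⟩, heq⟩
  obtain ⟨⟨w1, w2⟩, ⟨w3, w4⟩⟩ := w
  obtain ⟨⟨v1, v2⟩, ⟨v3, v4⟩⟩ := w'
  apply hne
  cases b <;> cases b' <;>
    simp only [Blk.emb, Blk.fi, Blk.se, Blk.Ok, mk, L, VV, psize, Set.mem_ofPred_eq,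
      Prod.mk.injEq, T.node.injEq, reduceCtorEq, false_and] at *
  all_goals first
    | (obtain ⟨⟨rfl, rfl, rfl, rfl⟩, rfl⟩ := heq
       try simp only [T.size] at *
       first
        | (rw [← h1, ← h2, ← h1', ← h2'])
        | (exfalso; omega))
    | (obtain ⟨-, rfl, rfl, rfl, rfl⟩ := heq
       try simp only [T.size] at *
       first
        | (rw [← h1, ← h2, ← h1', ← h2'])
        | (exfalso; omega))

end Pool.Agent.K6.H60.TW
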