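import Pool.Agent.K6.H60.TW.Stm2

/-!
# Piece FIN (MP_7ee132_co), by helper92 for helper60
-/

namespace Pool.Agent.K6.H60.TW

namespace FIN

theorem finT : ∀ n : ℕ, {t : T | t.size ≤ n}.Finite := by
  intro n
  induction n with
  | zero =>
    refine (Set.finite_singleton T.nil).subset ?_
    intro t ht
    cases t with
    | nil => rfl
    | node a b c d => simp [T.size] at ht
  | succ n ih =>
    refine (((ih.prod ih).prod (ih.prod ih)).image mk |>.union (Set.finite_singleton T.nil)).subset ?_
    intro t ht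
    cases t with
    | nil => exact Or.inr rfl
    | node a b c d =>
      left
      simp only [Set.mem_setOf_eq, T.size] at ht
      refine ⟨((a, b), (c, d)), ?_, rfl⟩
      simp only [Set.mem_prod, Set.mem_setOf_eq]
      omega

end FIN

open Blk FIN in
theorem P_FIN : S_FIN := by
  intro k
  have hI : (Set.Iic k).Finite := Set.finite_Iic k
  have hA := ((hI.prod (hI.prod (finT k))).image
    (fun x : ℕ × (ℕ × T) => Blk.A x.1 x.2.1 x.2.2))
  have hB := (hI.prod hI).image (fun x : ℕ × ℕ => Blk.B x.1 x.2)
  have hD := (hI.prod hI).image (fun x : ℕ × ℕ => Blk.D x.1 x.2)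
  refine (hA.union (hB.union hD)).subset ?_
  intro b hb
  cases b with
  | A i j e =>
    left
    have h : 1 ≤ i + j ∧ i + j + e.size + 1 = k := hb
    refine ⟨(i, (j, e)), ?_, rfl⟩
    simp only [Set.mem_prod, Set.mem_Iic, Set.mem_setOf_eq]
    omega
  | B i j =>
    right; left
    have h : 1 ≤ i + j ∧ i + j + 1 = k := hb
    refine ⟨(i, j), ?_, rfl⟩
    simp only [Set.mem_prod, Set.mem_Iic]
    omega
  | D i j =>
    right; right
    have h : 1 ≤ i + j ∧ i + j + 2 = k := hb
    refine ⟨(i, j), ?_, rfl⟩
    simp only [Set.mem_prod, Set.mem_Iic]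
    omega

end Pool.Agent.K6.H60.TW
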