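import Pool.Agent.K6.H60.TW.Stm

/-! Piece FREE (helper41). -/

set_option autoImplicit false

namespace Pool.Agent.K6.H60.TW

namespace FREE

theorem size_zero {e : T} (h : e.size = 0) : e = .nil := by
  cases e with
  | nil => rfl
  | node a b c d => simp only [T.size] at h; omega

theorem size_one {e : T} (h : e.size = 1) : e = L := by
  cases e with
  | nil => simp [T.size] at h
  | node a b c d =>
    simp only [T.size] at h
    rw [size_zero (e := a) (by omega), size_zero (e := b) (by omega),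
      size_zero (e := c) (by omega), size_zero (e := d) (by omega)]
    rfl

theorem mk_ne (w : P × P) : mk w ≠ .nil := by
  simp [mk]

/-- an edge with exactly one end whose first component is empty is not tracked. -/
theorem notin {k : ℕ} {p q : P} (hp : p.1 = .nil) (hq : q.1 ≠ .nil) : s(p, q) ∉ KK k := by
  rintro ⟨b, s, -, -, he⟩
  rcases b with ⟨i, j, e⟩ | ⟨i, j⟩ | ⟨i, j⟩ <;>
    simp only [Blk.pe, Blk.emb, Sym2.eq_iff] at he <;> rcases he with ⟨h1, h2⟩ | ⟨h1, h2⟩
  · rw [h1] at hp; exact mk_ne _ hp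
  · rw [h1] at hp; exact mk_ne _ hp
  · rw [h2] at hq; exact hq rfl
  · rw [h2] at hq; exact hq rfl
  · rw [h1] at hp; simp [L] at hp
  · rw [h1] at hp; simp [L] at hp

theorem notin' {k : ℕ} {p q : P} (hp : p.1 ≠ .nil) (hq : q.1 = .nil) : s(p, q) ∉ KK k := by
  rw [Sym2.eq_swap]; exact notin hq hp

theorem notin_M2A1 {k : ℕ} : s(M2, A1) ∉ KK k := by
  rintro ⟨b, s, -, -, he⟩
  rcases b with ⟨i, j, e⟩ | ⟨i, j⟩ | ⟨i, j⟩ <;>
    simp only [Blk.pe, Blk.emb, Sym2.eq_iff] at he <;> rcases he with ⟨h1, h2⟩ | ⟨h1, h2⟩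
  · have h3 := congrArg Prod.snd h1; have h4 := congrArg Prod.snd h2
    simp only [M2, A1] at h3 h4; rw [← h4] at h3; simp [L] at h3
  · have h3 := congrArg Prod.snd h1; have h4 := congrArg Prod.snd h2
    simp only [M2, A1] at h3 h4; rw [← h4] at h3; simp [L] at h3
  · have h3 := congrArg Prod.fst h1; simp [M2, L] at h3
  · have h3 := congrArg Prod.fst h1; simp [M2, L] at h3
  · have h4 := congrArg Prod.snd h2; exact mk_ne _ h4.symm
  · have h4 := congrArg Prod.snd h2; exact mk_ne _ h4.symm

/-- the two trees of the third port are different. -/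
theorem r3_ne (m : ℕ) : (r3 m).1 ≠ (r3 m).2 := by
  unfold r3
  split_ifs with h1 h2
  · decide
  · decide
  · intro h
    have := congrArg Prod.fst h
    simp [dn] at this

theorem dd_ne (m : ℕ) : (dd m).1 ≠ (dd m).2 := by
  unfold dd
  split_ifs with h1
  · intro h
    simp only [T.node.injEq] at h
    exact r3_ne m (Prod.ext h.2.2.1 h.2.2.2)
  · decide

/-- the shape of the free edges of level at least 4. -/
theorem ff_inj {c d c' d' : T}
    (h : s(((.nil, .node .nil c d .nil) : P), (.node .nil .nil c d, .nil)) =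
      s(((.nil, .node .nil c' d' .nil) : P), (.node .nil .nil c' d', .nil))) : c = c' ∧ d = d' := by
  rw [Sym2.eq_iff] at h
  rcases h with ⟨h1, -⟩ | ⟨h1, -⟩
  · simp only [Prod.mk.injEq, T.node.injEq] at h1
    exact ⟨h1.2.2.1, h1.2.2.2.1⟩
  · simp at h1

/-- middle trees. -/
def cd (k s : ℕ) : T × T :=
  if s = 1 then (.nil, (dd (k - 2)).1) else if s = 2 then (.nil, (dd (k - 2)).2)
  else if s = 3 then (.node .nil .nil L .nil, comb (k - 3))
  else if s = 4 then (L, (dd (k - 3)).1) else (L, (dd (k - 3)).2)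

theorem fr_eq {k s : ℕ} (hk : 4 ≤ k) :
    fr k s = s(((.nil, .node .nil (cd k s).1 (cd k s).2 .nil) : P),
      (.node .nil .nil (cd k s).1 (cd k s).2, .nil)) := by
  have h2 : ¬ k = 2 := by omega
  have h3 : ¬ k = 3 := by omega
  unfold fr r cd
  rw [if_neg h2, if_neg h3]
  by_cases e1 : s = 1
  · simp [e1, dn]
  by_cases e2 : s = 2
  · simp [e2, dn]
  by_cases e3 : s = 3
  · simp [e3, r3, h2, h3, dn]
  by_cases e4 : s = 4
  · simp [e4, dn]
  · simp [e1, e2, e3, e4, dn]

theorem L_ne_nil : L ≠ .nil := by decide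
theorem C_ne_nil : (T.node .nil .nil L .nil) ≠ .nil := by decide
theorem C_ne_L : (T.node .nil .nil L .nil) ≠ L := by decide

theorem cd1 (k : ℕ) : cd k 1 = (.nil, (dd (k - 2)).1) := rfl
theorem cd2 (k : ℕ) : cd k 2 = (.nil, (dd (k - 2)).2) := rfl
theorem cd3 (k : ℕ) : cd k 3 = (.node .nil .nil L .nil, comb (k - 3)) := rfl
theorem cd4 (k : ℕ) : cd k 4 = (L, (dd (k - 3)).1) := rfl
theorem cd5 (k : ℕ) : cd k 5 = (L, (dd (k - 3)).2) := rfl

theorem cd_inj {k s s' : ℕ} (h1 : 1 ≤ s) (h5 : s ≤ 5) (h1' : 1 ≤ s') (h5' : s' ≤ 5)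
    (h : (cd k s).1 = (cd k s').1 ∧ (cd k s).2 = (cd k s').2) : s = s' := by
  obtain ⟨ha, hb⟩ := h
  have d2 := dd_ne (k - 2)
  have d3 := dd_ne (k - 3)
  have e1 := L_ne_nil
  have e2 := C_ne_nil
  have e3 := C_ne_L
  interval_cases s <;> interval_cases s' <;> first
    | rfl
    | exact absurd hb d2
    | exact absurd hb.symm d2
    | exact absurd hb d3
    | exact absurd hb.symm d3
    | exact absurd ha e1
    | exact absurd ha.symm e1
    | exact absurd ha e2
    | exact absurd ha.symm e2
    | exact absurd ha e3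
    | exact absurd ha.symm e3

theorem lvl2 {s : ℕ} (h1 : 1 ≤ s) (h5 : s ≤ 5) : fr 2 s ∉ KK 2 := by
  interval_cases s
  · exact notin' (p := A2) (q := B1) (by decide) rfl
  · exact notin (p := B2) (q := A3) rfl (by decide)
  · exact notin' (p := A4) (q := B3) (by decide) rfl
  · exact notin (p := B4) (q := M2) rfl (by decide)
  · exact notin_M2A1

theorem lvl3 {s : ℕ} (h1 : 1 ≤ s) (h5 : s ≤ 5) : fr 3 s ∉ KK 3 := by
  rintro ⟨b, t, hok, hal, he⟩
  rcases b with ⟨i, j, e⟩ | ⟨i, j⟩ | ⟨i, j⟩
  · obtain ⟨hij, hsz⟩ := hok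
    have hi : i ≤ 2 := by omega
    have hj : j ≤ 2 := by omega
    have he' : e = .nil ∨ e = L := by
      rcases Nat.lt_or_ge e.size 1 with h | h
      · exact Or.inl (size_zero (by omega))
      · exact Or.inr (size_one (by omega))
    rcases he' with rfl | rfl
    · rcases hal with rfl | rfl <;> interval_cases i <;> interval_cases j <;>
        simp only [T.size] at hsz <;> first | omega | (interval_cases s <;> revert he <;> decide)
    · rcases hal with rfl | rfl <;> interval_cases i <;> interval_cases j <;>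
        simp only [T.size, L] at hsz <;> first | omega | (interval_cases s <;> revert he <;> decide)
  · obtain ⟨hij, hsz⟩ := hok
    have hi : i ≤ 2 := by omega
    have hj : j ≤ 2 := by omega
    rcases hal with rfl | rfl <;> interval_cases i <;> interval_cases j <;>
        first | omega | (interval_cases s <;> revert he <;> decide)
  · obtain ⟨hij, hsz⟩ := hok
    have hi : i ≤ 1 := by omega
    have hj : j ≤ 1 := by omega
    have hal' : t = 3 := hal
    subst hal'
    interval_cases i <;> interval_cases j <;>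
        first | omega | (interval_cases s <;> revert he <;> decide)

end FREE

open FREE in
theorem P_FREE : S_FREE := by
  intro k s hk h1 h5
  rcases Nat.lt_or_ge k 4 with hk4 | hk4
  · interval_cases k
    · refine ⟨lvl2 h1 h5, fun s' h1' h5' h => ?_⟩
      interval_cases s <;> interval_cases s' <;> first | rfl | (revert h; decide)
    · refine ⟨lvl3 h1 h5, fun s' h1' h5' h => ?_⟩
      interval_cases s <;> interval_cases s' <;> first | rfl | (revert h; decide)
  · refine ⟨?_, fun s' h1' h5' h => ?_⟩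
    · rw [fr_eq hk4]
      exact notin rfl (by simp)
    · rw [fr_eq hk4, fr_eq hk4] at h
      exact cd_inj h1 h5 h1' h5' (ff_inj h)

end Pool.Agent.K6.H60.TW
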