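import Pool.Agent.K6.H60.TW.Stm

set_option autoImplicit false

namespace Pool.Agent.K6.H60.TW

namespace GCNT

lemma sub {l r : ℕ} {X Y : Finset Tri} (h : NonCr l r X) (hY : Y ⊆ X) (l' r' : ℕ)
    (hb : ∀ t ∈ Y, l' ≤ t.1 ∧ t.2.2 ≤ r') : NonCr l' r' Y :=
  ⟨fun t ht => ⟨(hb t ht).1, (h.1 t (hY ht)).2.1, (h.1 t (hY ht)).2.2.1, (hb t ht).2⟩,
    fun t ht t' ht' => h.2 t (hY ht) t' (hY ht')⟩

lemma two {l m r : ℕ} {X : Finset Tri} (h : NonCr l r X)
    (hs : ∀ t ∈ X, t.2.2 ≤ m ∨ m ≤ t.1) (ih1 : ∀ Y, NonCr l m Y → Y.card ≤ m - l - 1)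
    (ih2 : ∀ Y, NonCr m r Y → Y.card ≤ r - m - 1) : X.card ≤ (m - l - 1) + (r - m - 1) := by
  classical
  have h1 : X ⊆ X.filter (fun t => t.2.2 ≤ m) ∪ X.filter (fun t => m ≤ t.1) := by
    intro t ht
    rw [Finset.mem_union, Finset.mem_filter, Finset.mem_filter]
    rcases hs t ht with h | h
    · exact Or.inl ⟨ht, h⟩
    · exact Or.inr ⟨ht, h⟩
  have h2 := ih1 (X.filter (fun t => t.2.2 ≤ m)) (sub h (Finset.filter_subset _ _) l m
    fun t ht => ⟨(h.1 t (Finset.mem_filter.1 ht).1).1, (Finset.mem_filter.1 ht).2⟩)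
  have h3 := ih2 (X.filter (fun t => m ≤ t.1)) (sub h (Finset.filter_subset _ _) m r
    fun t ht => ⟨(Finset.mem_filter.1 ht).2, (h.1 t (Finset.mem_filter.1 ht).1).2.2.2⟩)
  calc X.card ≤ _ := Finset.card_le_card h1
    _ ≤ _ := Finset.card_union_le _ _
    _ ≤ _ := Nat.add_le_add h2 h3

lemma main : ∀ (n l r : ℕ) (X : Finset Tri), r - l = n → l < r → NonCr l r X →
    X.card ≤ r - l - 1 ∧ (X.card = r - l - 1 → l + 2 ≤ r → ∃ m, (l, m, r) ∈ X) := by
  classical
  intro n
  induction n using Nat.strong_induction_on with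
  | _ n ih =>
  intro l r X hn hlr h
  by_cases hA : ∃ m, (l, m, r) ∈ X
  · refine ⟨?_, fun _ _ => hA⟩
    obtain ⟨m, hm⟩ := hA
    obtain ⟨-, hlm, hmr, -⟩ := h.1 _ hm
    simp only at hlm hmr
    set X' := X.erase (l, m, r) with hX'
    have hsub : X' ⊆ X := Finset.erase_subset _ _
    have hn' : NonCr l r X' := sub h hsub l r fun t ht =>
      ⟨(h.1 t (hsub ht)).1, (h.1 t (hsub ht)).2.2.2⟩
    have hs : ∀ t ∈ X', t.2.2 ≤ m ∨ m ≤ t.1 := by
      rintro ⟨a, b, c⟩ ht
      have hne : (a, b, c) ≠ (l, m, r) := (Finset.mem_erase.1 ht).1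
      have htX := hsub ht
      obtain ⟨h1, h2, h3, h4⟩ := h.1 _ htX
      simp only at h1 h2 h3 h4 ⊢
      by_contra hcon
      push Not at hcon
      obtain ⟨hmc, ham⟩ := hcon
      have c1 := h.2 _ hm _ htX (l, m) (by simp [sides]) (a, c) (by simp [sides])
      have c2 := h.2 _ hm _ htX (m, r) (by simp [sides]) (a, c) (by simp [sides])
      have c3 := h.2 _ hm _ htX (l, m) (by simp [sides]) (b, c) (by simp [sides])
      have c4 := h.2 _ hm _ htX (m, r) (by simp [sides]) (a, b) (by simp [sides])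
      unfold Cross at c1 c2 c3 c4
      simp only at c1 c2 c3 c4
      have ha : a = l := by omega
      have hc : c = r := by omega
      have hb : b = m := by omega
      exact hne (by rw [ha, hb, hc])
    have h5 := two hn' hs (fun Y hY => (ih (m - l) (by omega) l m Y rfl hlm hY).1)
      (fun Y hY => (ih (r - m) (by omega) m r Y rfl hmr hY).1)
    have h6 : X.card = X'.card + 1 := by
      rw [hX', Finset.card_erase_of_mem hm]
      have : 0 < X.card := Finset.card_pos.2 ⟨_, hm⟩
      omega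
    omega
  · -- no triangle over the side `(l, r)`
    have hlt : l + 2 ≤ r → X.card ≤ r - l - 2 := by
      intro hlr2
      set M := (Finset.Ioo l r).filter (fun m => ∃ t ∈ X, (l, m) ∈ sides t) with hM
      by_cases hMe : M.Nonempty
      · set m := M.max' hMe with hmdef
        have hmM : m ∈ M := Finset.max'_mem _ _
        obtain ⟨hmI, t0, ht0, hst0⟩ := Finset.mem_filter.1 hmM
        rw [Finset.mem_Ioo] at hmI
        have hs : ∀ t ∈ X, t.2.2 ≤ m ∨ m ≤ t.1 := by
          rintro ⟨a, b, c⟩ ht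
          obtain ⟨h1, h2, h3, h4⟩ := h.1 _ ht
          simp only at h1 h2 h3 h4 ⊢
          by_contra hcon
          push Not at hcon
          obtain ⟨hmc, ham⟩ := hcon
          have c1 := h.2 _ ht0 _ ht (l, m) hst0 (a, c) (by simp [sides])
          unfold Cross at c1
          simp only at c1
          have ha : a = l := by omega
          subst ha
          rcases Nat.lt_or_ge c r with hcr | hcr
          · have hcM : c ∈ M := by
              rw [hM, Finset.mem_filter, Finset.mem_Ioo]
              exact ⟨⟨by omega, hcr⟩, _, ht, by simp [sides]⟩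
            have := Finset.le_max' _ _ hcM
            omega
          · have hc : c = r := by omega
            subst hc
            exact hA ⟨b, ht⟩
        have h5 := two h hs (fun Y hY => (ih (m - l) (by omega) l m Y rfl hmI.1 hY).1)
          (fun Y hY => (ih (r - m) (by omega) m r Y rfl hmI.2 hY).1)
        omega
      · have hall : ∀ t ∈ X, l + 1 ≤ t.1 := by
          rintro ⟨a, b, c⟩ ht
          obtain ⟨h1, h2, h3, h4⟩ := h.1 _ ht
          simp only at h1 h2 h3 h4 ⊢
          by_contra hcon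
          have ha : a = l := by omega
          subst ha
          apply hMe
          refine ⟨b, ?_⟩
          rw [hM, Finset.mem_filter, Finset.mem_Ioo]
          exact ⟨⟨h2, by omega⟩, _, ht, by simp [sides]⟩
        have h6 := (ih (r - (l + 1)) (by omega) (l + 1) r X rfl (by omega)
          (sub h (Finset.Subset.refl _) (l + 1) r fun t ht => ⟨hall t ht, (h.1 t ht).2.2.2⟩)).1
        omega
    rcases Nat.lt_or_ge r (l + 2) with hr | hr
    · have hX : X = ∅ := by
        rw [Finset.eq_empty_iff_forall_notMem]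
        rintro ⟨a, b, c⟩ ht
        obtain ⟨h1, h2, h3, h4⟩ := h.1 _ ht
        simp only at h1 h2 h3 h4
        omega
      subst hX
      refine ⟨by simp, fun _ h2 => by omega⟩
    · have := hlt hr
      exact ⟨by omega, fun h1 h2 => by omega⟩

end GCNT

theorem P_GCNT : S_GCNT := fun l r X hlr h => GCNT.main (r - l) l r X rfl hlr h

end Pool.Agent.K6.H60.TW
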