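import Pool.Agent.K6.H60.TW.Stm

set_option autoImplicit false

/-!
MP_7ee132_co, piece GINJ: a pair of trees is determined by its triangulation.
-/

namespace Pool.Agent.K6.H60.TW

namespace GINJ

/-- the triangles of `side l t` lie between `l` and `l + 1 + 3 |t|`. -/
lemma bound (t : T) : ∀ (l : ℕ) (x : Tri), x ∈ side l t →
    l ≤ x.1 ∧ x.1 < x.2.1 ∧ x.2.1 < x.2.2 ∧ x.2.2 ≤ l + 1 + 3 * t.size := by
  induction t with
  | nil => intro l x hx; simp [side] at hx
  | node a b c d iha ihb ihc ihd =>
    intro l x hx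
    simp only [side, Finset.mem_union, Finset.mem_insert, Finset.mem_singleton] at hx
    simp only [T.size]
    rcases hx with ((hx | hx | hx) | (hx | hx)) | (hx | hx)
    · subst hx; refine ⟨?_, ?_, ?_, ?_⟩ <;> dsimp only <;> omega
    · subst hx; refine ⟨?_, ?_, ?_, ?_⟩ <;> dsimp only <;> omega
    · subst hx; refine ⟨?_, ?_, ?_, ?_⟩ <;> dsimp only <;> omega
    · have := iha l x hx; omega
    · have := ihb _ x hx; omega
    · have := ihc _ x hx; omega
    · have := ihd _ x hx; omega

/-- the triangle over `(l, r)` -/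
lemma top (a b c d : T) (l m : ℕ) : (l, m, l + 4 + 3 * a.size + 3 * b.size + 3 * c.size +
    3 * d.size) ∈ side l (.node a b c d) ↔ m = l + 2 + 3 * a.size + 3 * b.size := by
  simp only [side, Finset.mem_union, Finset.mem_insert, Finset.mem_singleton, Prod.mk.injEq]
  constructor
  · rintro (((hx | hx | hx) | (hx | hx)) | (hx | hx))
    · omega
    · omega
    · omega
    · have := bound _ _ _ hx; dsimp only at this; omega
    · have := bound _ _ _ hx; dsimp only at this; omega
    · have := bound _ _ _ hx; dsimp only at this; omega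
    · have := bound _ _ _ hx; dsimp only at this; omega
  · intro h
    exact Or.inl (Or.inl (Or.inl ⟨trivial, h, trivial⟩))

lemma left (a b c d : T) (l m : ℕ) : (l, m, l + 2 + 3 * a.size + 3 * b.size) ∈
    side l (.node a b c d) ↔ m = l + 1 + 3 * a.size := by
  simp only [side, Finset.mem_union, Finset.mem_insert, Finset.mem_singleton, Prod.mk.injEq]
  constructor
  · rintro (((hx | hx | hx) | (hx | hx)) | (hx | hx))
    · omega
    · omega
    · omega
    · have := bound _ _ _ hx; dsimp only at this; omega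
    · have := bound _ _ _ hx; dsimp only at this; omega
    · have := bound _ _ _ hx; dsimp only at this; omega
    · have := bound _ _ _ hx; dsimp only at this; omega
  · intro h
    exact Or.inl (Or.inl (Or.inr (Or.inl ⟨trivial, h, trivial⟩)))

lemma right (a b c d : T) (l m : ℕ) : (l + 2 + 3 * a.size + 3 * b.size, m,
    l + 4 + 3 * a.size + 3 * b.size + 3 * c.size + 3 * d.size) ∈
    side l (.node a b c d) ↔ m = l + 3 + 3 * a.size + 3 * b.size + 3 * c.size := by
  simp only [side, Finset.mem_union, Finset.mem_insert, Finset.mem_singleton, Prod.mk.injEq]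
  constructor
  · rintro (((hx | hx | hx) | (hx | hx)) | (hx | hx))
    · omega
    · omega
    · omega
    · have := bound _ _ _ hx; dsimp only at this; omega
    · have := bound _ _ _ hx; dsimp only at this; omega
    · have := bound _ _ _ hx; dsimp only at this; omega
    · have := bound _ _ _ hx; dsimp only at this; omega
  · intro h
    exact Or.inl (Or.inl (Or.inr (Or.inr ⟨trivial, h, trivial⟩)))

lemma sub (a b c d : T) (l : ℕ) (x : Tri) :
    (x ∈ side l a ↔ x ∈ side l (.node a b c d) ∧ x.2.2 ≤ l + 1 + 3 * a.size) ∧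
    (x ∈ side (l + 1 + 3 * a.size) b ↔ x ∈ side l (.node a b c d) ∧ l + 1 + 3 * a.size ≤ x.1 ∧
      x.2.2 ≤ l + 2 + 3 * a.size + 3 * b.size) ∧
    (x ∈ side (l + 2 + 3 * a.size + 3 * b.size) c ↔ x ∈ side l (.node a b c d) ∧
      l + 2 + 3 * a.size + 3 * b.size ≤ x.1 ∧
      x.2.2 ≤ l + 3 + 3 * a.size + 3 * b.size + 3 * c.size) ∧
    (x ∈ side (l + 3 + 3 * a.size + 3 * b.size + 3 * c.size) d ↔ x ∈ side l (.node a b c d) ∧
      l + 3 + 3 * a.size + 3 * b.size + 3 * c.size ≤ x.1) := by
  simp only [side, Finset.mem_union, Finset.mem_insert, Finset.mem_singleton]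
  refine ⟨⟨fun h => ?_, ?_⟩, ⟨fun h => ?_, ?_⟩, ⟨fun h => ?_, ?_⟩, ⟨fun h => ?_, ?_⟩⟩
  · exact ⟨Or.inl (Or.inr (Or.inl h)), (bound _ _ _ h).2.2.2⟩
  · rintro ⟨((hx | hx | hx) | (hx | hx)) | (hx | hx), h1⟩
    · subst hx; dsimp only at h1; omega
    · subst hx; dsimp only at h1; omega
    · subst hx; dsimp only at h1; omega
    · exact hx
    · have := bound _ _ _ hx; omega
    · have := bound _ _ _ hx; omega
    · have := bound _ _ _ hx; omega
  · have h2 := bound _ _ _ h
    exact ⟨Or.inl (Or.inr (Or.inr h)), h2.1, by omega⟩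
  · rintro ⟨((hx | hx | hx) | (hx | hx)) | (hx | hx), h1, h2⟩
    · subst hx; dsimp only at h1; omega
    · subst hx; dsimp only at h1; omega
    · subst hx; dsimp only at h2; omega
    · have := bound _ _ _ hx; omega
    · exact hx
    · have := bound _ _ _ hx; omega
    · have := bound _ _ _ hx; omega
  · have h2 := bound _ _ _ h
    exact ⟨Or.inr (Or.inl h), h2.1, by omega⟩
  · rintro ⟨((hx | hx | hx) | (hx | hx)) | (hx | hx), h1, h2⟩
    · subst hx; dsimp only at h1; omega
    · subst hx; dsimp only at h1; omega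
    · subst hx; dsimp only at h2; omega
    · have := bound _ _ _ hx; omega
    · have := bound _ _ _ hx; omega
    · exact hx
    · have := bound _ _ _ hx; omega
  · have h2 := bound _ _ _ h
    exact ⟨Or.inr (Or.inr h), h2.1⟩
  · rintro ⟨((hx | hx | hx) | (hx | hx)) | (hx | hx), h1⟩
    · subst hx; dsimp only at h1; omega
    · subst hx; dsimp only at h1; omega
    · subst hx; dsimp only at h1; omega
    · have := bound _ _ _ hx; omega
    · have := bound _ _ _ hx; omega
    · have := bound _ _ _ hx; omega
    · exact hx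

lemma side_inj (t : T) : ∀ (l : ℕ) (t' : T), t.size = t'.size → side l t = side l t' → t = t' := by
  induction t with
  | nil =>
    intro l t' h _
    cases t' with
    | nil => rfl
    | node a b c d => simp only [T.size] at h; omega
  | node a b c d iha ihb ihc ihd =>
    intro l t' hs h
    cases t' with
    | nil => simp only [T.size] at hs; omega
    | node a' b' c' d' =>
      simp only [T.size] at hs
      have e1 := (top a b c d l (l + 2 + 3 * a.size + 3 * b.size)).2 rfl
      rw [h] at e1
      have e2 : l + 4 + 3 * a.size + 3 * b.size + 3 * c.size + 3 * d.size =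
        l + 4 + 3 * a'.size + 3 * b'.size + 3 * c'.size + 3 * d'.size := by omega
      rw [e2] at e1
      have e3 := (top a' b' c' d' l _).1 e1
      have f1 := (left a b c d l (l + 1 + 3 * a.size)).2 rfl
      rw [h, e3] at f1
      have f3 := (left a' b' c' d' l _).1 f1
      have g1 := (right a b c d l (l + 3 + 3 * a.size + 3 * b.size + 3 * c.size)).2 rfl
      rw [h, e2, e3] at g1
      have g3 := (right a' b' c' d' l _).1 g1
      have s1 : a.size = a'.size := by omega
      have s2 : b.size = b'.size := by omega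
      have s3 : c.size = c'.size := by omega
      have s4 : d.size = d'.size := by omega
      have i1 : a = a' := by
        apply iha l a' s1
        ext x
        rw [(sub a b c d l x).1, (sub a' b' c' d' l x).1, h, s1]
      have i2 : b = b' := by
        apply ihb (l + 1 + 3 * a.size) b' s2
        ext x
        rw [(sub a b c d l x).2.1, s1, (sub a' b' c' d' l x).2.1, h, s2]
      have i3 : c = c' := by
        apply ihc (l + 2 + 3 * a.size + 3 * b.size) c' s3
        ext x
        rw [(sub a b c d l x).2.2.1, s1, s2, (sub a' b' c' d' l x).2.2.1, h, s3]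
      have i4 : d = d' := by
        apply ihd (l + 3 + 3 * a.size + 3 * b.size + 3 * c.size) d' s4
        ext x
        rw [(sub a b c d l x).2.2.2, s1, s2, s3, (sub a' b' c' d' l x).2.2.2, h]
      rw [i1, i2, i3, i4]

lemma ftop (p : P) (l m : ℕ) : (l, m, l + 2 + 3 * p.1.size + 3 * p.2.size) ∈ full l p ↔
    m = l + 1 + 3 * p.1.size := by
  simp only [full, Finset.mem_union, Finset.mem_singleton, Prod.mk.injEq]
  constructor
  · rintro (hx | hx | hx)
    · omega
    · have := bound _ _ _ hx; dsimp only at this; omega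
    · have := bound _ _ _ hx; dsimp only at this; omega
  · intro h
    exact Or.inl ⟨trivial, h, trivial⟩

lemma fsub (p : P) (l : ℕ) (x : Tri) :
    (x ∈ side l p.1 ↔ x ∈ full l p ∧ x.2.2 ≤ l + 1 + 3 * p.1.size) ∧
    (x ∈ side (l + 1 + 3 * p.1.size) p.2 ↔ x ∈ full l p ∧ l + 1 + 3 * p.1.size ≤ x.1) := by
  simp only [full, Finset.mem_union, Finset.mem_singleton]
  refine ⟨⟨fun h => ?_, ?_⟩, ⟨fun h => ?_, ?_⟩⟩
  · exact ⟨Or.inr (Or.inl h), (bound _ _ _ h).2.2.2⟩
  · rintro ⟨hx | hx | hx, h1⟩
    · subst hx; dsimp only at h1; omega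
    · exact hx
    · have := bound _ _ _ hx; omega
  · exact ⟨Or.inr (Or.inr h), (bound _ _ _ h).1⟩
  · rintro ⟨hx | hx | hx, h1⟩
    · subst hx; dsimp only at h1; omega
    · have := bound _ _ _ hx; omega
    · exact hx

end GINJ

theorem P_GINJ (_h : S_GVAL) : S_GINJ := by
  intro l p p' hs h
  simp only [psize] at hs
  have e1 := (GINJ.ftop p l (l + 1 + 3 * p.1.size)).2 rfl
  have e2 : l + 2 + 3 * p.1.size + 3 * p.2.size = l + 2 + 3 * p'.1.size + 3 * p'.2.size := by omega
  rw [h, e2] at e1
  have e3 := (GINJ.ftop p' l _).1 e1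
  have s1 : p.1.size = p'.1.size := by omega
  have s2 : p.2.size = p'.2.size := by omega
  have i1 : p.1 = p'.1 := by
    apply GINJ.side_inj p.1 l p'.1 s1
    ext x
    rw [(GINJ.fsub p l x).1, (GINJ.fsub p' l x).1, h, s1]
  have i2 : p.2 = p'.2 := by
    apply GINJ.side_inj p.2 (l + 1 + 3 * p.1.size) p'.2 s2
    ext x
    rw [(GINJ.fsub p l x).2, s1, (GINJ.fsub p' l x).2, h]
  exact Prod.ext i1 i2

end Pool.Agent.K6.H60.TW
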