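import Pool.Agent.K6.H60.TW.Stm

/-! Piece GSPL (helper13): splitting a triangulation at the triangle over the base. -/

namespace Pool.Agent.K6.H60.TW

namespace GSPL

theorem mem_sides (t : Tri) : (t.1, t.2.1) ∈ sides t ∧ (t.2.1, t.2.2) ∈ sides t ∧
    (t.1, t.2.2) ∈ sides t := by
  unfold sides
  simp

theorem cases {l m r : ℕ} {X : Finset Tri} (hX : NonCr l r X) (hm : (l, m, r) ∈ X) {t : Tri}
    (ht : t ∈ X) : t = (l, m, r) ∨ t.2.2 ≤ m ∨ m ≤ t.1 := by
  by_cases h1 : t.2.2 ≤ m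
  · exact Or.inr (Or.inl h1)
  by_cases h2 : m ≤ t.1
  · exact Or.inr (Or.inr h2)
  left
  obtain ⟨a1, a2, a3, a4⟩ := hX.1 t ht
  obtain ⟨b1, b2, b3, b4⟩ := hX.1 _ hm
  obtain ⟨s1, s2, s3⟩ := mem_sides t
  obtain ⟨u1, u2, u3⟩ := mem_sides (l, m, r)
  have c1 := hX.2 t ht _ hm _ s3 _ u1
  have c2 := hX.2 t ht _ hm _ s3 _ u2
  have c3 := hX.2 t ht _ hm _ s1 _ u2
  have c4 := hX.2 t ht _ hm _ s2 _ u1
  obtain ⟨a, b, c⟩ := t
  unfold Cross at c1 c2 c3 c4
  simp only at *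
  have e1 : a = l := by omega
  have e2 : c = r := by omega
  subst e1 e2
  have e3 : b = m := by omega
  rw [e3]

end GSPL

open GSPL in
theorem P_GSPL (h : S_GCNT) : S_GSPL := by
  classical
  intro l m r X hX hm
  obtain ⟨hN, hc⟩ := hX
  obtain ⟨b1, b2, b3, b4⟩ := hN.1 _ hm
  simp only at b1 b2 b3 b4
  set Y := X.filter fun t => t.2.2 ≤ m with hY
  set Z := X.filter fun t => m ≤ t.1 with hZ
  have hYN : NonCr l m Y := by
    refine ⟨fun t ht => ?_, fun t ht t' ht' => ?_⟩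
    · rw [hY, Finset.mem_filter] at ht
      obtain ⟨a1, a2, a3, a4⟩ := hN.1 t ht.1
      exact ⟨a1, a2, a3, ht.2⟩
    · rw [hY, Finset.mem_filter] at ht ht'
      exact hN.2 t ht.1 t' ht'.1
  have hZN : NonCr m r Z := by
    refine ⟨fun t ht => ?_, fun t ht t' ht' => ?_⟩
    · rw [hZ, Finset.mem_filter] at ht
      obtain ⟨a1, a2, a3, a4⟩ := hN.1 t ht.1
      exact ⟨ht.2, a2, a3, a4⟩
    · rw [hZ, Finset.mem_filter] at ht ht'
      exact hN.2 t ht.1 t' ht'.1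
  have hXe : X = {(l, m, r)} ∪ (Y ∪ Z) := by
    ext t
    simp only [Finset.mem_union, Finset.mem_singleton, hY, hZ, Finset.mem_filter]
    constructor
    · intro ht
      rcases cases hN hm ht with h1 | h1 | h1
      · exact Or.inl h1
      · exact Or.inr (Or.inl ⟨ht, h1⟩)
      · exact Or.inr (Or.inr ⟨ht, h1⟩)
    · rintro (h1 | h1 | h1)
      · rw [h1]; exact hm
      · exact h1.1
      · exact h1.1
  have c1 := (h l m Y b2 hYN).1
  have c2 := (h m r Z b3 hZN).1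
  have c3 : X.card ≤ 1 + (Y.card + Z.card) := by
    calc X.card = ({(l, m, r)} ∪ (Y ∪ Z) : Finset Tri).card := by rw [← hXe]
      _ ≤ ({(l, m, r)} : Finset Tri).card + (Y ∪ Z).card := Finset.card_union_le _ _
      _ ≤ 1 + (Y.card + Z.card) := by
        rw [Finset.card_singleton]
        exact Nat.add_le_add_left (Finset.card_union_le _ _) 1
  exact ⟨Y, Z, ⟨hYN, by omega⟩, ⟨hZN, by omega⟩, hXe⟩

end Pool.Agent.K6.H60.TW
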