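import Pool.Agent.K6.H60.TW.Stm

/-!
Piece `GSUR` of the call `call60` (MP_7ee132_co, statement of helper60, proof of helper95): the
colourful triangulations are the triangulations of pairs of quaternary trees.
-/

set_option autoImplicit false

namespace Pool.Agent.K6.H60.TW

namespace GSUR

theorem colourful_mono {X Y : Finset Tri} (h : Y ⊆ X) (hX : Colourful X) : Colourful Y :=
  fun t ht => hX t (h ht)

theorem mod1 {l m r : ℕ} (_ : l < m) (_ : m < r) (h : (r - l) % 3 = 2) (c1 : l % 3 ≠ m % 3)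
    (c2 : m % 3 ≠ r % 3) : (m - l) % 3 = 1 := by omega

theorem mod2 {l m r : ℕ} (_ : l < m) (_ : m < r) (h : (r - l) % 3 = 2) (c1 : l % 3 ≠ m % 3)
    (c2 : m % 3 ≠ r % 3) : (r - m) % 3 = 1 := by omega

theorem mod3 {l m r : ℕ} (_ : l < m) (_ : m < r) (h : (r - l) % 3 = 1) (c1 : l % 3 ≠ m % 3)
    (c2 : m % 3 ≠ r % 3) : (m - l) % 3 = 2 := by omega

theorem mod4 {l m r : ℕ} (_ : l < m) (_ : m < r) (h : (r - l) % 3 = 1) (c1 : l % 3 ≠ m % 3)
    (c2 : m % 3 ≠ r % 3) : (r - m) % 3 = 2 := by omega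

theorem main (h : S_GCNT) (h2 : S_GSPL) : ∀ (k l r : ℕ) (X : Finset Tri), r - l ≤ k → l < r →
    IsTriang l r X → Colourful X →
    ((r - l) % 3 = 2 → ∃ p : P, r = l + 2 + 3 * psize p ∧ X = full l p) ∧
    ((r - l) % 3 = 1 → ∃ t : T, r = l + 1 + 3 * t.size ∧ X = side l t) := by
  intro k
  induction k with
  | zero => intro l r X hk hlr; omega
  | succ k ih =>
    intro l r X hk hlr hX hcol
    have hget : l + 2 ≤ r → ∃ m, (l, m, r) ∈ X ∧ l < m ∧ m < r ∧ l % 3 ≠ m % 3 ∧ m % 3 ≠ r % 3 ∧
        ∃ Y Z : Finset Tri, IsTriang l m Y ∧ IsTriang m r Z ∧ X = {(l, m, r)} ∪ (Y ∪ Z) ∧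
          Colourful Y ∧ Colourful Z := by
      intro hlr2
      obtain ⟨m, hm⟩ := (h l r X hlr hX.1).2 hX.2 hlr2
      have h3 := hX.1.1 _ hm
      have h4 := hcol _ hm
      simp only at h3 h4
      obtain ⟨Y, Z, hY, hZ, hXY⟩ := h2 l m r X hX hm
      refine ⟨m, hm, h3.2.1, h3.2.2.1, h4.1, h4.2.1, Y, Z, hY, hZ, hXY, ?_, ?_⟩
      · refine colourful_mono ?_ hcol
        rw [hXY]
        exact Finset.subset_union_left.trans Finset.subset_union_right
      · refine colourful_mono ?_ hcol
        rw [hXY]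
        exact Finset.subset_union_right.trans Finset.subset_union_right
    constructor
    · intro hmod
      have q0 : l + 2 ≤ r := by clear hget; omega
      obtain ⟨m, hm, hlm, hmr, c1, c2, Y, Z, hY, hZ, hXY, cY, cZ⟩ := hget q0
      clear hget
      have q1 : (m - l) % 3 = 1 := mod1 hlm hmr hmod c1 c2
      have q2 : (r - m) % 3 = 1 := mod2 hlm hmr hmod c1 c2
      have q3 : m - l ≤ k := by omega
      have q4 : r - m ≤ k := by omega
      obtain ⟨x, hx1, hx2⟩ := (ih l m Y q3 hlm hY cY).2 q1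
      obtain ⟨y, hy1, hy2⟩ := (ih m r Z q4 hmr hZ cZ).2 q2
      subst hx1
      refine ⟨(x, y), ?_, ?_⟩
      · simp only [psize]
        omega
      · have hr : r = l + 2 + 3 * x.size + 3 * y.size := by omega
        rw [hXY, hx2, hy2, full, hr]
    · intro hmod
      by_cases hr1 : r = l + 1
      · refine ⟨.nil, by rw [hr1]; rfl, ?_⟩
        have : X.card = 0 := by clear hget; rw [hX.2]; omega
        rw [Finset.card_eq_zero] at this
        rw [this]
        rfl
      · have q0 : l + 2 ≤ r := by clear hget; omega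
        obtain ⟨n, hn, hln, hnr, c1, c2, Y, Z, hY, hZ, hXY, cY, cZ⟩ := hget q0
        clear hget
        have q1 : (n - l) % 3 = 2 := mod3 hln hnr hmod c1 c2
        have q2 : (r - n) % 3 = 2 := mod4 hln hnr hmod c1 c2
        have q3 : n - l ≤ k := by omega
        have q4 : r - n ≤ k := by omega
        obtain ⟨⟨a, b⟩, ha1, ha2⟩ := (ih l n Y q3 hln hY cY).1 q1
        obtain ⟨⟨c, d⟩, hc1, hc2⟩ := (ih n r Z q4 hnr hZ cZ).1 q2
        simp only [psize] at ha1 hc1
        have hn' : n = l + 2 + 3 * a.size + 3 * b.size := by omega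
        have hr' : r = l + 4 + 3 * a.size + 3 * b.size + 3 * c.size + 3 * d.size := by omega
        refine ⟨.node a b c d, ?_, ?_⟩
        · simp only [T.size]
          omega
        · rw [hXY, ha2, hc2, side, full, full]
          simp only
          have e1 : n + 1 + 3 * c.size = l + 3 + 3 * a.size + 3 * b.size + 3 * c.size := by omega
          have e2 : n + 2 + 3 * c.size + 3 * d.size =
              l + 4 + 3 * a.size + 3 * b.size + 3 * c.size + 3 * d.size := by omega
          rw [e1, e2, hr', hn']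
          ext t
          simp only [Finset.mem_union, Finset.mem_insert, Finset.mem_singleton]
          tauto

end GSUR

theorem P_GSUR (h : S_GCNT) (h2 : S_GSPL) : S_GSUR :=
  fun l r X hlr hX hcol => GSUR.main h h2 (r - l) l r X le_rfl hlr hX hcol

end Pool.Agent.K6.H60.TW
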