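import Pool.Agent.K6.H60.TW.Stm

/-!
# MP_7ee132_co: adjacent pairs of trees give triangulations which differ by a twist
Proof of the piece GTW (helper35).
-/

namespace Pool.Agent.K6.H60.TW

namespace GTW

theorem rng : ∀ (t : T) (x : ℕ) (y : Tri), y ∈ side x t →
    x ≤ y.1 ∧ y.1 < y.2.1 ∧ y.2.1 < y.2.2 ∧ y.2.2 ≤ x + 1 + 3 * t.size
  | .nil, x, y, h => by simp [side] at h
  | .node a b c d, x, y, h => by
    simp only [side, Finset.mem_union, Finset.mem_insert, Finset.mem_singleton] at h
    simp only [T.size]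
    rcases h with ((h | h | h) | h | h) | h | h
    · subst h; simp only; omega
    · subst h; simp only; omega
    · subst h; simp only; omega
    · have := rng a _ _ h; omega
    · have := rng b _ _ h; omega
    · have := rng c _ _ h; omega
    · have := rng d _ _ h; omega

theorem rngF (l : ℕ) (a b : T) (y : Tri) (h : y ∈ full l (a, b)) :
    l ≤ y.1 ∧ y.1 < y.2.1 ∧ y.2.1 < y.2.2 ∧ y.2.2 ≤ l + 2 + 3 * a.size + 3 * b.size := by
  simp only [full, Finset.mem_union, Finset.mem_singleton] at h
  rcases h with h | h | h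
  · subst h; simp only; omega
  · have := rng a _ _ h; omega
  · have := rng b _ _ h; omega

theorem psz {p p' : P} (h : Adj p p') : psize p = psize p' := by
  induction h with
  | down a b c d e => simp only [psize, T.size]; omega
  | up a b c d e => simp only [psize, T.size]; omega
  | l1 c d y _ ih => simp only [psize, T.size] at ih ⊢; omega
  | l2 a b y _ ih => simp only [psize, T.size] at ih ⊢; omega
  | r1 x d e _ ih => simp only [psize, T.size] at ih ⊢; omega
  | r2 x b c _ ih => simp only [psize, T.size] at ih ⊢; omega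

theorem ctx {X X' Z : Finset Tri} (h : Twist X X') (hd : ∀ y ∈ X, y ∉ Z) :
    Twist (X ∪ Z) (X' ∪ Z) := by
  have key : ∀ U W : Finset Tri, U ⊆ X → X' = (X \ U) ∪ W →
      U ⊆ X ∪ Z ∧ X' ∪ Z = ((X ∪ Z) \ U) ∪ W := by
    intro U W hU hX
    refine ⟨fun y hy => Finset.mem_union_left _ (hU hy), ?_⟩
    subst hX
    ext y
    simp only [Finset.mem_union, Finset.mem_sdiff]
    have h1 : y ∈ U → y ∉ Z := fun hy => hd y (hU hy)
    tauto
  obtain ⟨a, b, c, d, e, f, h1, h2, h3, h4, h5, h6⟩ := h
  refine ⟨a, b, c, d, e, f, h1, h2, h3, h4, h5, ?_⟩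
  rcases h6 with h6 | h6
  · exact Or.inl (key _ _ h6.1 h6.2)
  · exact Or.inr (key _ _ h6.1 h6.2)

theorem side_node (l : ℕ) (a b c d : T) :
    side l (.node a b c d) = {(l, l + 2 + 3 * a.size + 3 * b.size,
      l + 4 + 3 * a.size + 3 * b.size + 3 * c.size + 3 * d.size)} ∪
      full l (a, b) ∪ full (l + 2 + 3 * a.size + 3 * b.size) (c, d) := by
  have e1 : l + 2 + 3 * a.size + 3 * b.size + 1 + 3 * c.size =
    l + 3 + 3 * a.size + 3 * b.size + 3 * c.size := by omega
  have e2 : l + 2 + 3 * a.size + 3 * b.size + 2 + 3 * c.size + 3 * d.size =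
    l + 4 + 3 * a.size + 3 * b.size + 3 * c.size + 3 * d.size := by omega
  ext y
  simp only [side, full, Finset.mem_union, Finset.mem_insert, Finset.mem_singleton, e1, e2]
  tauto

/-- the common part of the two triangulations of a twist at the root. -/
def rest (l : ℕ) (a b c d e : T) : Finset Tri :=
  side l a ∪ side (l + 1 + 3 * a.size) b ∪ side (l + 2 + 3 * a.size + 3 * b.size) c ∪
    side (l + 3 + 3 * a.size + 3 * b.size + 3 * c.size) d ∪
    side (l + 4 + 3 * a.size + 3 * b.size + 3 * c.size + 3 * d.size) e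

/-- the hexagon with centre `ace`. -/
def s1 (l : ℕ) (a b c d e : T) : Finset Tri :=
  star1 l (l + 1 + 3 * a.size) (l + 2 + 3 * a.size + 3 * b.size)
    (l + 3 + 3 * a.size + 3 * b.size + 3 * c.size)
    (l + 4 + 3 * a.size + 3 * b.size + 3 * c.size + 3 * d.size)
    (l + 5 + 3 * a.size + 3 * b.size + 3 * c.size + 3 * d.size + 3 * e.size)

/-- the hexagon with centre `bdf`. -/
def s2 (l : ℕ) (a b c d e : T) : Finset Tri :=
  star2 l (l + 1 + 3 * a.size) (l + 2 + 3 * a.size + 3 * b.size)
    (l + 3 + 3 * a.size + 3 * b.size + 3 * c.size)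
    (l + 4 + 3 * a.size + 3 * b.size + 3 * c.size + 3 * d.size)
    (l + 5 + 3 * a.size + 3 * b.size + 3 * c.size + 3 * d.size + 3 * e.size)

theorem full1 (l : ℕ) (a b c d e : T) :
    full l (.node a b c d, e) = rest l a b c d e ∪ s1 l a b c d e := by
  have e1 : l + 1 + 3 * (1 + a.size + b.size + c.size + d.size) =
    l + 4 + 3 * a.size + 3 * b.size + 3 * c.size + 3 * d.size := by omega
  have e2 : l + 2 + 3 * (1 + a.size + b.size + c.size + d.size) + 3 * e.size =
    l + 5 + 3 * a.size + 3 * b.size + 3 * c.size + 3 * d.size + 3 * e.size := by omega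
  ext y
  simp only [side, full, rest, s1, star1, T.size, Finset.mem_union, Finset.mem_insert,
    Finset.mem_singleton, e1, e2]
  tauto

theorem full2 (l : ℕ) (a b c d e : T) :
    full l (a, .node b c d e) = rest l a b c d e ∪ s2 l a b c d e := by
  have e1 : l + 2 + 3 * a.size + 3 * (1 + b.size + c.size + d.size + e.size) =
    l + 5 + 3 * a.size + 3 * b.size + 3 * c.size + 3 * d.size + 3 * e.size := by omega
  have e2 : l + 1 + 3 * a.size + 1 + 3 * b.size = l + 2 + 3 * a.size + 3 * b.size := by omega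
  have e3 : l + 1 + 3 * a.size + 2 + 3 * b.size + 3 * c.size =
    l + 3 + 3 * a.size + 3 * b.size + 3 * c.size := by omega
  have e4 : l + 1 + 3 * a.size + 3 + 3 * b.size + 3 * c.size + 3 * d.size =
    l + 4 + 3 * a.size + 3 * b.size + 3 * c.size + 3 * d.size := by omega
  have e5 : l + 1 + 3 * a.size + 4 + 3 * b.size + 3 * c.size + 3 * d.size + 3 * e.size =
    l + 5 + 3 * a.size + 3 * b.size + 3 * c.size + 3 * d.size + 3 * e.size := by omega
  ext y
  simp only [side, full, rest, s2, star2, T.size, Finset.mem_union, Finset.mem_insert,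
    Finset.mem_singleton, e1, e2, e3, e4, e5]
  tauto

theorem dis (l : ℕ) (a b c d e : T) (y : Tri) (hy : y ∈ rest l a b c d e) :
    y ∉ s1 l a b c d e ∧ y ∉ s2 l a b c d e := by
  simp only [rest, Finset.mem_union] at hy
  simp only [s1, s2, star1, star2, Finset.mem_insert, Finset.mem_singleton]
  rcases hy with (((hy | hy) | hy) | hy) | hy <;>
  · have h := rng _ _ _ hy
    constructor <;>
    · rintro (h1 | h1 | h1 | h1) <;>
      · subst h1
        simp only at h
        omega

theorem base {R U W : Finset Tri} (h : ∀ y ∈ R, y ∉ U) :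
    U ⊆ R ∪ U ∧ R ∪ W = ((R ∪ U) \ U) ∪ W := by
  refine ⟨Finset.subset_union_right, ?_⟩
  ext y
  have := h y
  simp only [Finset.mem_union, Finset.mem_sdiff]
  tauto

theorem full_eq (l : ℕ) (x y : T) : full l (x, y) =
    {(l, l + 1 + 3 * x.size, l + 2 + 3 * x.size + 3 * y.size)} ∪
      (side l x ∪ side (l + 1 + 3 * x.size) y) := rfl

/-- the context of the two parts of a left child. -/
def zL (l m y : ℕ) (n : ℕ) (e : T) : Finset Tri :=
  {(l, m, m + 1 + 3 * y)} ∪ {(l, n, m)} ∪ side m e

theorem decL (l : ℕ) (a b c d e : T) : full l (.node a b c d, e) =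
    full l (a, b) ∪ full (l + 2 + 3 * a.size + 3 * b.size) (c, d) ∪
      zL l (l + 4 + 3 * a.size + 3 * b.size + 3 * c.size + 3 * d.size) e.size
        (l + 2 + 3 * a.size + 3 * b.size) e := by
  have e1 : l + 1 + 3 * (1 + a.size + b.size + c.size + d.size) =
    l + 4 + 3 * a.size + 3 * b.size + 3 * c.size + 3 * d.size := by omega
  have e2 : l + 2 + 3 * (1 + a.size + b.size + c.size + d.size) + 3 * e.size =
    l + 4 + 3 * a.size + 3 * b.size + 3 * c.size + 3 * d.size + 1 + 3 * e.size := by omega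
  rw [full_eq, side_node, zL]
  simp only [T.size]
  rw [e1, e2]
  ext z
  simp only [Finset.mem_union, Finset.mem_singleton]
  tauto

/-- the context of the two parts of a right child. -/
def zR (l m n r : ℕ) (x : T) : Finset Tri := {(l, m, r)} ∪ {(m, n, r)} ∪ side l x

theorem decR (l : ℕ) (x b c d e : T) : full l (x, .node b c d e) =
    full (l + 1 + 3 * x.size) (b, c) ∪
      full (l + 1 + 3 * x.size + 2 + 3 * b.size + 3 * c.size) (d, e) ∪
      zR l (l + 1 + 3 * x.size) (l + 1 + 3 * x.size + 2 + 3 * b.size + 3 * c.size)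
        (l + 1 + 3 * x.size + 4 + 3 * b.size + 3 * c.size + 3 * d.size + 3 * e.size) x := by
  have e2 : l + 2 + 3 * x.size + 3 * (1 + b.size + c.size + d.size + e.size) =
    l + 1 + 3 * x.size + 4 + 3 * b.size + 3 * c.size + 3 * d.size + 3 * e.size := by omega
  rw [full_eq, side_node, zR]
  simp only [T.size]
  rw [e2]
  ext z
  simp only [Finset.mem_union, Finset.mem_singleton]
  tauto

theorem ctxl {X X' Y Z : Finset Tri} (h : Twist X X') (h1 : ∀ y ∈ X, y ∉ Y)
    (h2 : ∀ y ∈ X, y ∉ Z) : Twist (X ∪ Y ∪ Z) (X' ∪ Y ∪ Z) := by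
  rw [Finset.union_assoc, Finset.union_assoc]
  refine ctx h ?_
  intro y hy hy'
  rcases Finset.mem_union.1 hy' with h3 | h3
  · exact h1 y hy h3
  · exact h2 y hy h3

theorem ctxr {X X' Y Z : Finset Tri} (h : Twist X X') (h1 : ∀ y ∈ X, y ∉ Y)
    (h2 : ∀ y ∈ X, y ∉ Z) : Twist (Y ∪ X ∪ Z) (Y ∪ X' ∪ Z) := by
  rw [Finset.union_comm Y X, Finset.union_comm Y X']
  exact ctxl h h1 h2

theorem disLR (l : ℕ) (a b c d : T) (y : Tri) (h : y ∈ full l (a, b))
    (h' : y ∈ full (l + 2 + 3 * a.size + 3 * b.size) (c, d)) : False := by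
  have h1 := rngF _ _ _ _ h
  have h2 := rngF _ _ _ _ h'
  omega

theorem disL1 (l : ℕ) (a b c d e : T) (y : Tri) (h : y ∈ full l (a, b)) :
    y ∉ zL l (l + 4 + 3 * a.size + 3 * b.size + 3 * c.size + 3 * d.size) e.size
        (l + 2 + 3 * a.size + 3 * b.size) e := by
  intro h'
  have h1 := rngF _ _ _ _ h
  simp only [zL, Finset.mem_union, Finset.mem_singleton] at h'
  rcases h' with (h2 | h2) | h2
  · subst h2; simp only at h1; omega
  · subst h2; simp only at h1; omega
  · have := rng _ _ _ h2; omega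

theorem disL2 (l : ℕ) (a b c d e : T) (y : Tri)
    (h : y ∈ full (l + 2 + 3 * a.size + 3 * b.size) (c, d)) :
    y ∉ zL l (l + 4 + 3 * a.size + 3 * b.size + 3 * c.size + 3 * d.size) e.size
        (l + 2 + 3 * a.size + 3 * b.size) e := by
  intro h'
  have h1 := rngF _ _ _ _ h
  simp only [zL, Finset.mem_union, Finset.mem_singleton] at h'
  rcases h' with (h2 | h2) | h2
  · subst h2; simp only at h1; omega
  · subst h2; simp only at h1; omega
  · have := rng _ _ _ h2; omega

theorem disR1 (l : ℕ) (x b c d e : T) (y : Tri) (h : y ∈ full (l + 1 + 3 * x.size) (b, c)) :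
    y ∉ zR l (l + 1 + 3 * x.size) (l + 1 + 3 * x.size + 2 + 3 * b.size + 3 * c.size)
        (l + 1 + 3 * x.size + 4 + 3 * b.size + 3 * c.size + 3 * d.size + 3 * e.size) x := by
  intro h'
  have h1 := rngF _ _ _ _ h
  simp only [zR, Finset.mem_union, Finset.mem_singleton] at h'
  rcases h' with (h2 | h2) | h2
  · subst h2; simp only at h1; omega
  · subst h2; simp only at h1; omega
  · have := rng _ _ _ h2; omega

theorem disR2 (l : ℕ) (x b c d e : T) (y : Tri)
    (h : y ∈ full (l + 1 + 3 * x.size + 2 + 3 * b.size + 3 * c.size) (d, e)) :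
    y ∉ zR l (l + 1 + 3 * x.size) (l + 1 + 3 * x.size + 2 + 3 * b.size + 3 * c.size)
        (l + 1 + 3 * x.size + 4 + 3 * b.size + 3 * c.size + 3 * d.size + 3 * e.size) x := by
  intro h'
  have h1 := rngF _ _ _ _ h
  simp only [zR, Finset.mem_union, Finset.mem_singleton] at h'
  rcases h' with (h2 | h2) | h2
  · subst h2; simp only at h1; omega
  · subst h2; simp only at h1; omega
  · have := rng _ _ _ h2; omega

end GTW

open GTW in
theorem P_GTW (_h : S_GVAL) : S_GTW := by
  intro l p p' hA
  induction hA generalizing l with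
  | down a b c d e =>
    rw [full1, full2]
    refine ⟨l, l + 1 + 3 * a.size, l + 2 + 3 * a.size + 3 * b.size,
      l + 3 + 3 * a.size + 3 * b.size + 3 * c.size,
      l + 4 + 3 * a.size + 3 * b.size + 3 * c.size + 3 * d.size,
      l + 5 + 3 * a.size + 3 * b.size + 3 * c.size + 3 * d.size + 3 * e.size,
      by omega, by omega, by omega, by omega, by omega, Or.inl ?_⟩
    exact base (fun y hy => (dis l a b c d e y hy).1)
  | up a b c d e =>
    rw [full1, full2]
    refine ⟨l, l + 1 + 3 * a.size, l + 2 + 3 * a.size + 3 * b.size,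
      l + 3 + 3 * a.size + 3 * b.size + 3 * c.size,
      l + 4 + 3 * a.size + 3 * b.size + 3 * c.size + 3 * d.size,
      l + 5 + 3 * a.size + 3 * b.size + 3 * c.size + 3 * d.size + 3 * e.size,
      by omega, by omega, by omega, by omega, by omega, Or.inr ?_⟩
    exact base (fun y hy => (dis l a b c d e y hy).2)
  | @l1 a b a' b' c d y hA ih =>
    have hs := psz hA
    simp only [psize] at hs
    have e1 : l + 2 + 3 * a'.size + 3 * b'.size = l + 2 + 3 * a.size + 3 * b.size := by omega
    have e2 : l + 4 + 3 * a'.size + 3 * b'.size = l + 4 + 3 * a.size + 3 * b.size := by omega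
    rw [decL, decL, e1, e2]
    exact ctxl (ih l) (fun z hz hz' => disLR l a b c d z hz hz')
      (fun z hz => disL1 l a b c d y z hz)
  | @l2 c d c' d' a b y hA ih =>
    have hs := psz hA
    simp only [psize] at hs
    have e1 : l + 4 + 3 * a.size + 3 * b.size + 3 * c'.size + 3 * d'.size =
      l + 4 + 3 * a.size + 3 * b.size + 3 * c.size + 3 * d.size := by omega
    rw [decL, decL, e1]
    exact ctxr (ih _) (fun z hz hz' => disLR l a b c d z hz' hz)
      (fun z hz => disL2 l a b c d y z hz)
  | @r1 b c b' c' x d e hA ih =>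
    have hs := psz hA
    simp only [psize] at hs
    have e1 : l + 1 + 3 * x.size + 2 + 3 * b'.size + 3 * c'.size =
      l + 1 + 3 * x.size + 2 + 3 * b.size + 3 * c.size := by omega
    have e2 : l + 1 + 3 * x.size + 4 + 3 * b'.size + 3 * c'.size =
      l + 1 + 3 * x.size + 4 + 3 * b.size + 3 * c.size := by omega
    rw [decR, decR, e1, e2]
    exact ctxl (ih _) (fun z hz hz' => disLR _ b c d e z hz hz')
      (fun z hz => disR1 l x b c d e z hz)
  | @r2 d e d' e' x b c hA ih =>
    have hs := psz hA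
    simp only [psize] at hs
    have e1 : l + 1 + 3 * x.size + 4 + 3 * b.size + 3 * c.size + 3 * d'.size + 3 * e'.size =
      l + 1 + 3 * x.size + 4 + 3 * b.size + 3 * c.size + 3 * d.size + 3 * e.size := by omega
    rw [decR, decR, e1]
    exact ctxr (ih _) (fun z hz hz' => disLR _ b c d e z hz' hz)
      (fun z hz => disR2 l x b c d e z hz)

end Pool.Agent.K6.H60.TW
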