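import Pool.Agent.K6.H60.TW.Stm

/-!
# Piece GVAL: pairs of trees give colourful triangulations
-/

set_option autoImplicit false

namespace Pool.Agent.K6.H60.TW

namespace GVAL

theorem side_bd {l r : ℕ} {t : Tri} (h : l ≤ t.1 ∧ t.1 < t.2.1 ∧ t.2.1 < t.2.2 ∧ t.2.2 ≤ r)
    {s : ℕ × ℕ} (hs : s ∈ sides t) : l ≤ s.1 ∧ s.1 < s.2 ∧ s.2 ≤ r := by
  unfold sides at hs
  simp only [Finset.mem_insert, Finset.mem_singleton] at hs
  rcases hs with rfl | rfl | rfl <;> (dsimp only; omega)

theorem top_side {l m r : ℕ} {s : ℕ × ℕ} (hs : s ∈ sides (l, m, r)) :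
    (s.1 = l ∧ s.2 = m) ∨ (s.1 = m ∧ s.2 = r) ∨ (s.1 = l ∧ s.2 = r) := by
  unfold sides at hs
  simp only [Finset.mem_insert, Finset.mem_singleton] at hs
  rcases hs with rfl | rfl | rfl <;> simp

theorem glue {l m r : ℕ} {Y Z : Finset Tri} (hlm : l < m) (hmr : m < r) (hY : IsTriang l m Y)
    (hZ : IsTriang m r Z) : IsTriang l r ({(l, m, r)} ∪ (Y ∪ Z)) := by
  obtain ⟨⟨hY1, hY2⟩, hYc⟩ := hY
  obtain ⟨⟨hZ1, hZ2⟩, hZc⟩ := hZ
  refine ⟨⟨?_, ?_⟩, ?_⟩
  · intro t ht
    rw [Finset.mem_union, Finset.mem_union, Finset.mem_singleton] at ht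
    rcases ht with rfl | ht | ht
    · dsimp only; omega
    · have := hY1 t ht; omega
    · have := hZ1 t ht; omega
  · intro t ht t' ht' s hs s' hs' hc
    rw [Finset.mem_union, Finset.mem_union, Finset.mem_singleton] at ht ht'
    unfold Cross at hc
    rcases ht with rfl | ht | ht <;> rcases ht' with rfl | ht' | ht'
    · have h1 := top_side hs
      have h2 := top_side hs'
      omega
    · have h1 := top_side hs
      have h2 := side_bd (hY1 t' ht') hs'
      omega
    · have h1 := top_side hs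
      have h2 := side_bd (hZ1 t' ht') hs'
      omega
    · have h1 := side_bd (hY1 t ht) hs
      have h2 := top_side hs'
      omega
    · exact hY2 t ht t' ht' s hs s' hs' hc
    · have h1 := side_bd (hY1 t ht) hs
      have h2 := side_bd (hZ1 t' ht') hs'
      omega
    · have h1 := side_bd (hZ1 t ht) hs
      have h2 := top_side hs'
      omega
    · have h1 := side_bd (hZ1 t ht) hs
      have h2 := side_bd (hY1 t' ht') hs'
      omega
    · exact hZ2 t ht t' ht' s hs s' hs' hc
  · have hd1 : Disjoint Y Z := by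
      rw [Finset.disjoint_left]
      intro t ht ht'
      have h1 := hY1 t ht
      have h2 := hZ1 t ht'
      omega
    have hd2 : Disjoint ({(l, m, r)} : Finset Tri) (Y ∪ Z) := by
      rw [Finset.disjoint_singleton_left, Finset.mem_union]
      rintro (h | h)
      · have := hY1 _ h
        dsimp only at this; omega
      · have := hZ1 _ h
        dsimp only at this; omega
    rw [Finset.card_union_of_disjoint hd2, Finset.card_union_of_disjoint hd1,
      Finset.card_singleton, hYc, hZc]
    omega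

theorem col_glue {l m r : ℕ} {Y Z : Finset Tri} (h : l % 3 ≠ m % 3 ∧ m % 3 ≠ r % 3 ∧ l % 3 ≠ r % 3)
    (hY : Colourful Y) (hZ : Colourful Z) : Colourful ({(l, m, r)} ∪ (Y ∪ Z)) := by
  intro t ht
  rw [Finset.mem_union, Finset.mem_union, Finset.mem_singleton] at ht
  rcases ht with rfl | ht | ht
  · exact h
  · exact hY t ht
  · exact hZ t ht

theorem side_node (l : ℕ) (a b c d : T) : side l (.node a b c d) =
    {(l, l + 2 + 3 * a.size + 3 * b.size,
      l + 4 + 3 * a.size + 3 * b.size + 3 * c.size + 3 * d.size)} ∪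
    (({(l, l + 1 + 3 * a.size, l + 2 + 3 * a.size + 3 * b.size)} ∪
      (side l a ∪ side (l + 1 + 3 * a.size) b)) ∪
    ({(l + 2 + 3 * a.size + 3 * b.size, l + 3 + 3 * a.size + 3 * b.size + 3 * c.size,
       l + 4 + 3 * a.size + 3 * b.size + 3 * c.size + 3 * d.size)} ∪
      (side (l + 2 + 3 * a.size + 3 * b.size) c ∪
      side (l + 3 + 3 * a.size + 3 * b.size + 3 * c.size) d))) := by
  rw [side]
  ext t
  simp only [Finset.mem_union, Finset.mem_insert, Finset.mem_singleton]
  tauto

theorem side_ok (t : T) : ∀ l : ℕ, IsTriang l (l + 1 + 3 * t.size) (side l t) ∧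
    Colourful (side l t) := by
  induction t with
  | nil =>
    intro l
    rw [side]
    refine ⟨⟨⟨fun t ht => by simp at ht, fun t ht => by simp at ht⟩, ?_⟩,
      fun t ht => by simp at ht⟩
    simp only [Finset.card_empty, T.size]
    omega
  | node a b c d iha ihb ihc ihd =>
    intro l
    obtain ⟨ha, ha'⟩ := iha l
    obtain ⟨hb, hb'⟩ := ihb (l + 1 + 3 * a.size)
    obtain ⟨hc, hc'⟩ := ihc (l + 2 + 3 * a.size + 3 * b.size)
    obtain ⟨hd, hd'⟩ := ihd (l + 3 + 3 * a.size + 3 * b.size + 3 * c.size)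
    have e1 : l + 1 + 3 * a.size + 1 + 3 * b.size = l + 2 + 3 * a.size + 3 * b.size := by omega
    have e2 : l + 2 + 3 * a.size + 3 * b.size + 1 + 3 * c.size =
      l + 3 + 3 * a.size + 3 * b.size + 3 * c.size := by omega
    have e3 : l + 3 + 3 * a.size + 3 * b.size + 3 * c.size + 1 + 3 * d.size =
      l + 4 + 3 * a.size + 3 * b.size + 3 * c.size + 3 * d.size := by omega
    have e4 : l + 1 + 3 * (T.node a b c d).size =
      l + 4 + 3 * a.size + 3 * b.size + 3 * c.size + 3 * d.size := by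
      simp only [T.size]; omega
    rw [e1] at hb
    rw [e2] at hc
    rw [e3] at hd
    rw [side_node, e4]
    refine ⟨glue (by omega) (by omega) (glue (by omega) (by omega) ha hb)
      (glue (by omega) (by omega) hc hd), col_glue (by omega) (col_glue (by omega) ha' hb')
      (col_glue (by omega) hc' hd')⟩

end GVAL

theorem P_GVAL : S_GVAL := by
  rintro l ⟨x, y⟩
  obtain ⟨hx, hx'⟩ := GVAL.side_ok x l
  obtain ⟨hy, hy'⟩ := GVAL.side_ok y (l + 1 + 3 * x.size)
  have e1 : l + 1 + 3 * x.size + 1 + 3 * y.size = l + 2 + 3 * x.size + 3 * y.size := by omega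
  have e2 : l + 2 + 3 * psize (x, y) = l + 2 + 3 * x.size + 3 * y.size := by
    simp only [psize]; omega
  rw [e1] at hy
  rw [e2]
  unfold full
  dsimp only
  exact ⟨GVAL.glue (by omega) (by omega) hx hy, GVAL.col_glue (by omega) hx' hy'⟩

end Pool.Agent.K6.H60.TW
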