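import Pool.Agent.K6.H60.TW.Stm

/-!
# Piece HAM: from cyclic lists to Hamilton cycles
-/

set_option autoImplicit false

namespace Pool.Agent.K6.H60.TW

open SimpleGraph

theorem P_HAM : S_HAM := by
  rintro V _ G ⟨l, u, v, hnd, hmem, hlen, hh, hl, hc, hadj, _⟩
  have hne : l ≠ [] := by
    rintro rfl
    simp at hlen
  have hu : l.head hne = u := by
    rw [List.head?_eq_some_head hne] at hh
    exact Option.some.inj hh
  have hv : l.getLast hne = v := by
    rw [List.getLast?_eq_some_getLast hne] at hl
    exact Option.some.inj hl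
  obtain ⟨p, hp⟩ : ∃ p : G.Walk u v, p.support = l := by
    subst hu hv
    exact ⟨Walk.ofSupport l hne hc, Walk.support_ofSupport hne hc⟩
  have hpath : p.IsPath := by
    rw [Walk.isPath_def, hp]
    exact hnd
  have hlen' : 2 ≤ p.length := by
    have h1 := p.length_support
    rw [hp] at h1
    omega
  refine ⟨v, Walk.cons hadj p, ?_⟩
  rw [Walk.isHamiltonianCycle_iff_isCycle_and_support_count_tail_eq_one]
  refine ⟨(Walk.cons_isCycle_iff p hadj).2 ⟨hpath, ?_⟩, ?_⟩
  · intro hm
    have h1 := hpath.eq_snd_of_mem_edges (w := v) (by rwa [Sym2.eq_swap])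
    have h2 : p.getVert 1 = p.getVert p.length := by
      rw [Walk.getVert_length]
      exact h1.symm
    have h3 := hpath.getVert_injOn (show (1 : ℕ) ≤ p.length by omega)
      (show p.length ≤ p.length from le_rfl) h2
    omega
  · intro a
    rw [Walk.support_cons, List.tail_cons, hp]
    exact List.count_eq_one_of_mem hnd ((hmem a).2 trivial)

end Pool.Agent.K6.H60.TW
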