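import Pool.Agent.K6.H60.TW.Stm2

/-!
# Piece LADJ (MP_7ee132_co), by helper92 for helper60
-/

namespace Pool.Agent.K6.H60.TW

namespace LADJ

theorem symm : ∀ x y, Adj x y → Adj y x := by
  intro x y h
  induction h with
  | down a b c d e => exact Adj.up a b c d e
  | up a b c d e => exact Adj.down a b c d e
  | l1 c d y _ ih => exact Adj.l1 c d y ih
  | l2 a b y _ ih => exact Adj.l2 a b y ih
  | r1 x d e _ ih => exact Adj.r1 x d e ih
  | r2 x b c _ ih => exact Adj.r2 x b c ih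

theorem mk_inj {w w' : P × P} (h : mk w = mk w') : w = w' := by
  obtain ⟨⟨a, b⟩, ⟨c, d⟩⟩ := w
  obtain ⟨⟨a', b'⟩, ⟨c', d'⟩⟩ := w'
  simp only [mk, T.node.injEq] at h
  obtain ⟨rfl, rfl, rfl, rfl⟩ := h
  rfl

end LADJ

open Blk LADJ in
theorem P_LADJ : S_LADJ := by
  refine ⟨symm, ?_, ?_⟩
  · intro b
    cases b with
    | A i j e =>
      cases e with
      | nil => exact ⟨Adj.down _ _ _ _ _, Adj.down _ _ _ _ _⟩
      | node a b c d => exact ⟨Adj.up _ _ _ _ _, Adj.up _ _ _ _ _⟩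
    | B i j => exact ⟨Adj.up _ _ _ _ _, Adj.up _ _ _ _ _⟩
    | D i j => exact ⟨Adj.down _ _ _ _ _, Adj.down _ _ _ _ _⟩
  · intro b
    constructor
    · intro w w' h
      cases b with
      | A i j e => exact mk_inj (Prod.ext_iff.1 h).1
      | B i j => exact mk_inj (Prod.ext_iff.1 h).2
      | D i j => exact mk_inj (Prod.ext_iff.1 h).2
    · rintro ⟨⟨a, b'⟩, ⟨c, d⟩⟩ ⟨⟨a', b''⟩, ⟨c', d'⟩⟩ h
      rcases h with ⟨h, h'⟩ | ⟨h', h⟩
      · simp only [Prod.mk.injEq] at h h'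
        obtain ⟨rfl, rfl⟩ := h'
        cases b with
        | A i j e => exact Adj.l1 _ _ _ h
        | B i j => exact Adj.r1 _ _ _ h
        | D i j => exact Adj.r1 _ _ _ h
      · simp only [Prod.mk.injEq] at h h'
        obtain ⟨rfl, rfl⟩ := h'
        cases b with
        | A i j e => exact Adj.l2 _ _ _ h
        | B i j => exact Adj.r2 _ _ _ h
        | D i j => exact Adj.r2 _ _ _ h

end Pool.Agent.K6.H60.TW
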