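import Pool.Agent.K6.H60.TW.Stm

set_option autoImplicit false

namespace Pool.Agent.K6.H60.TW

namespace MAPC

theorem mapc_list {V W : Type} {R : V → V → Prop} {R' : W → W → Prop} (f : V → W)
    {S : Set V} {l : List V} (hf : Set.InjOn f S)
    (hR : ∀ x ∈ S, ∀ y ∈ S, R x y → R' (f x) (f y)) (h1 : l.Nodup) (h2 : ∀ x, x ∈ l ↔ x ∈ S)
    (h3 : l.IsChain R) :
    (l.map f).Nodup ∧ (∀ x, x ∈ l.map f ↔ x ∈ f '' S) ∧ (l.map f).IsChain R' := by
  refine ⟨List.Nodup.map_on (fun x hx y hy h => hf ((h2 x).1 hx) ((h2 y).1 hy) h) h1, ?_, ?_⟩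
  · intro x
    rw [List.mem_map]
    constructor
    · rintro ⟨a, ha, rfl⟩
      exact ⟨a, (h2 a).1 ha, rfl⟩
    · rintro ⟨a, ha, rfl⟩
      exact ⟨a, (h2 a).2 ha, rfl⟩
  · rw [List.isChain_map]
    exact List.IsChain.imp_of_mem_imp
      (fun a b ha hb h => hR a ((h2 a).1 ha) b ((h2 b).1 hb) h) h3

end MAPC

open MAPC in
theorem P_MAPC : S_MAPC := by
  intro V W R R' f S E hf hR
  constructor
  · rintro ⟨l, u, v, h1, h2, h3, h4, h5, h6, h7, h8⟩
    obtain ⟨a1, a2, a3⟩ := mapc_list f hf hR h1 h2 h6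
    have hu : u ∈ S := (h2 u).1 (List.mem_of_head? h4)
    have hv : v ∈ S := (h2 v).1 (List.mem_of_getLast? h5)
    refine ⟨l.map f, f u, f v, a1, a2, by rw [List.length_map]; exact h3, ?_, ?_, a3,
      hR v hv u hu h7, ?_⟩
    · rw [List.head?_map, h4]; rfl
    · rw [List.getLast?_map, h5]; rfl
    · rintro _ ⟨e, he, rfl⟩
      rcases h8 e he with rfl | ⟨a, b, hab, rfl⟩
      · exact Or.inl rfl
      · exact Or.inr ⟨f a, f b, by simpa using hab.map f, rfl⟩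
  · rintro u v ⟨l, h1, h2, h4, h5, h6, h8⟩
    obtain ⟨a1, a2, a3⟩ := mapc_list f hf hR h1 h2 h6
    refine ⟨l.map f, a1, a2, ?_, ?_, a3, ?_⟩
    · rw [List.head?_map, h4]; rfl
    · rw [List.getLast?_map, h5]; rfl
    · rintro _ ⟨e, he, rfl⟩
      obtain ⟨a, b, hab, rfl⟩ := h8 e he
      exact ⟨f a, f b, by simpa using hab.map f, rfl⟩

end Pool.Agent.K6.H60.TW
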