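import Pool.Agent.K6.H60.TW.Stm

/-! # Piece MERGE (helper78): a path and a cycle are merged to a cycle -/

set_option autoImplicit false

namespace Pool.Agent.K6.H60.TW

theorem P_MERGE (h : S_OPEN) : S_MERGE := by
  intro V R hsym S₁ S₂ E₁ E₂ u v u' v' h1 h2 hd he huu hvv
  have h3 := h V R hsym S₂ E₂ u' v' h2 he
  obtain ⟨l1, n1, m1, hh1, hl1, c1, e1⟩ := h1
  obtain ⟨l2, n2, m2, hh2, hl2, c2, e2⟩ := h3
  obtain ⟨l, x, y, n3, m3, hlen, -, -, -, -, -⟩ := h2
  have hperm : l2.Perm l := (List.perm_ext_iff_of_nodup n2 n3).2 fun a => by rw [m2, m3]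
  have hlen2 : 3 ≤ l2.length := by rw [hperm.length_eq]; exact hlen
  refine ⟨l1 ++ l2.reverse, u, u', ?_, ?_, ?_, ?_, ?_, ?_, hsym _ _ huu, ?_⟩
  · rw [List.nodup_append]
    refine ⟨n1, List.nodup_reverse.2 n2, fun a ha b hb hab => ?_⟩
    rw [List.mem_reverse, m2] at hb
    rw [m1] at ha
    rw [hab] at ha
    exact Set.disjoint_left.1 hd ha hb
  · intro a
    rw [List.mem_append, List.mem_reverse, m1, m2]
    rfl
  · rw [List.length_append, List.length_reverse]
    omega
  · rw [List.head?_append, hh1]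
    rfl
  · rw [List.getLast?_append, List.getLast?_reverse, hh2]
    rfl
  · rw [List.isChain_append]
    refine ⟨c1, ?_, ?_⟩
    · rw [List.isChain_reverse]
      exact c2.imp fun a b hab => hsym _ _ hab
    · intro a ha b hb
      rw [List.head?_reverse, hl2] at hb
      rw [hl1] at ha
      rw [Option.mem_some_iff] at ha hb
      rw [← ha, ← hb]
      exact hvv
  · intro e he'
    rcases he' with (he' | he') | he'
    · obtain ⟨a, b, hab, rfl⟩ := e1 e he'
      exact Or.inr ⟨a, b, hab.trans (List.infix_append' [] l1 l2.reverse), rfl⟩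
    · obtain ⟨a, b, hab, rfl⟩ := e2 e he'
      refine Or.inr ⟨b, a, ?_, Sym2.eq_swap⟩
      have h5 : [a, b].reverse <:+: l2.reverse := List.reverse_infix.2 hab
      exact List.IsInfix.trans h5 (List.suffix_append l1 l2.reverse).isInfix
    · rcases he' with rfl | rfl
      · exact Or.inl rfl
      · refine Or.inr ⟨v, v', ?_, rfl⟩
        obtain ⟨s, hs⟩ : ∃ s, l1 = s ++ [v] := by
          rw [List.getLast?_eq_some_iff] at hl1
          exact hl1
        obtain ⟨t, ht⟩ : ∃ t, l2.reverse = v' :: t := by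
          have : l2.reverse.head? = some v' := by rw [List.head?_reverse, hl2]
          rw [List.head?_eq_some_iff] at this
          exact this
        refine ⟨s, t, ?_⟩
        rw [hs, ht]
        simp

end Pool.Agent.K6.H60.TW
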