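import Pool.Agent.K6.H60.TW.Stm

/-!
# Piece OPEN: a cycle through `{u, v}` opened at this edge is a path from `u` to `v`
-/

set_option autoImplicit false

namespace Pool.Agent.K6.H60.TW

namespace OPEN

variable {V : Type}

theorem infix_append {x y : V} : ∀ (X Y : List V), [x, y] <:+: X ++ Y →
    [x, y] <:+: X ∨ [x, y] <:+: Y ∨ (X.getLast? = some x ∧ Y.head? = some y) := by
  intro X
  induction X with
  | nil => intro Y h; exact Or.inr (Or.inl (by simpa using h))
  | cons c X ih =>
    intro Y h
    rw [List.cons_append, List.infix_cons_iff] at h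
    rcases h with h | h
    · rw [List.cons_prefix_cons] at h
      obtain ⟨rfl, h⟩ := h
      cases X with
      | nil =>
        cases Y with
        | nil => simp at h
        | cons d Y =>
          rw [List.nil_append, List.cons_prefix_cons] at h
          obtain ⟨rfl, -⟩ := h
          exact Or.inr (Or.inr ⟨by simp, by simp⟩)
      | cons d X =>
        rw [List.cons_append, List.cons_prefix_cons] at h
        obtain ⟨rfl, -⟩ := h
        exact Or.inl ⟨[], X, by simp⟩
    · rcases ih Y h with h1 | h1 | ⟨h1, h2⟩
      · exact Or.inl (List.infix_cons_iff.2 (Or.inr h1))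
      · exact Or.inr (Or.inl h1)
      · refine Or.inr (Or.inr ⟨?_, h2⟩)
        cases X with
        | nil => simp at h1
        | cons d X => rw [List.getLast?_cons_cons]; exact h1

theorem infix_reverse {x y : V} {l : List V} (h : [x, y] <:+: l) : [y, x] <:+: l.reverse := by
  have := List.reverse_infix.2 h
  simpa using this

/-- the reverse of a path -/
theorem pth_symm {R : V → V → Prop} (hR : ∀ x y, R x y → R y x) {S : Set V}
    {E : Set (Sym2 V)} {u v : V} (h : Pth R S u v E) : Pth R S v u E := by
  obtain ⟨l, h1, h2, h3, h4, h5, h6⟩ := h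
  refine ⟨l.reverse, List.nodup_reverse.2 h1, fun x => by rw [List.mem_reverse, h2], ?_, ?_, ?_,
    fun e he => ?_⟩
  · rw [List.head?_reverse, h4]
  · rw [List.getLast?_reverse, h3]
  · rw [List.isChain_reverse]
    exact h5.imp fun a b hab => hR a b hab
  · obtain ⟨a, b, hab, rfl⟩ := h6 e he
    exact ⟨b, a, infix_reverse hab, Sym2.eq_swap⟩

end OPEN

theorem P_OPEN : S_OPEN := by
  intro V R hR S E u v hC huv
  obtain ⟨l, p, q, hnd, hmem, hlen, hh, hl, hch, hqp, hE⟩ := hC
  -- the path from `p` to `q`
  have hpq : Pth R S p q (E \ {s(p, q)}) := by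
    refine ⟨l, hnd, hmem, hh, hl, hch, fun e he => ?_⟩
    rcases hE e he.1 with h | h
    · exact absurd h he.2
    · exact h
  rcases hE _ huv with h | ⟨a, b, hab, h⟩
  · rw [h]
    rcases Sym2.eq_iff.1 h with ⟨rfl, rfl⟩ | ⟨rfl, rfl⟩
    · exact hpq
    · exact OPEN.pth_symm hR hpq
  · -- the path from `b` to `a`
    obtain ⟨A, B, hAB⟩ := hab
    have hl' : l = (A ++ [a]) ++ (b :: B) := by rw [← hAB]; simp
    have hX : (A ++ [a]).getLast? = some a := by simp
    have hY : (b :: B).head? = some b := by simp
    have hXh : (A ++ [a]).head? = some p := by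
      rw [hl', List.head?_append] at hh
      cases hA : A with
      | nil => rw [hA] at hh; simpa using hh
      | cons c A' => rw [hA] at hh; simpa using hh
    have hYl : (b :: B).getLast? = some q := by
      rw [hl', List.getLast?_append] at hl
      cases hB : (b :: B).getLast? with
      | none => simp at hB
      | some z => rw [hB] at hl; simpa using hl
    have hba : Pth R S b a (E \ {s(a, b)}) := by
      refine ⟨(b :: B) ++ (A ++ [a]), ?_, ?_, ?_, ?_, ?_, ?_⟩
      · have : l.Perm ((b :: B) ++ (A ++ [a])) := by rw [hl']; exact List.perm_append_comm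
        exact this.nodup_iff.1 hnd
      · intro x
        have : l.Perm ((b :: B) ++ (A ++ [a])) := by rw [hl']; exact List.perm_append_comm
        rw [← this.mem_iff, hmem]
      · simp
      · rw [List.getLast?_append, hX]; simp
      · rw [hl', List.isChain_append] at hch
        obtain ⟨c1, c2, -⟩ := hch
        rw [List.isChain_append]
        refine ⟨c2, c1, fun x hx y hy => ?_⟩
        rw [hYl] at hx
        rw [hXh] at hy
        simp only [Option.mem_def, Option.some.injEq] at hx hy
        rw [← hx, ← hy]
        exact hqp
      · intro e he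
        rcases hE e he.1 with h1 | ⟨x, y, hxy, rfl⟩
        · refine ⟨q, p, ?_, by rw [h1, Sym2.eq_swap]⟩
          obtain ⟨Y', hY'⟩ : ∃ Y', b :: B = Y' ++ [q] := by
            rcases List.eq_nil_or_concat (b :: B) with h2 | ⟨L, z, h2⟩
            · simp at h2
            · rw [List.concat_eq_append] at h2
              rw [h2, List.getLast?_append] at hYl
              simp at hYl
              exact ⟨L, by rw [h2, hYl]⟩
          obtain ⟨X', hX'⟩ : ∃ X', A ++ [a] = p :: X' := by
            cases h2 : A ++ [a] with
            | nil => simp at h2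
            | cons z X' =>
              rw [h2] at hXh
              simp at hXh
              exact ⟨X', by rw [hXh]⟩
          rw [hY', hX']
          exact ⟨Y', X', by simp⟩
        · rw [hl'] at hxy
          rcases OPEN.infix_append _ _ hxy with h1 | h1 | ⟨h1, h2⟩
          · refine ⟨x, y, ?_, rfl⟩
            exact h1.trans (List.suffix_append _ _).isInfix
          · refine ⟨x, y, ?_, rfl⟩
            exact h1.trans (List.prefix_append _ _).isInfix
          · exfalso
            rw [hX] at h1
            rw [hY] at h2
            simp only [Option.some.injEq] at h1 h2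
            apply he.2
            rw [← h1, ← h2]
            rfl
    rw [h]
    rcases Sym2.eq_iff.1 h with ⟨rfl, rfl⟩ | ⟨rfl, rfl⟩
    · exact OPEN.pth_symm hR hba
    · exact hba

end Pool.Agent.K6.H60.TW
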