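import Pool.Agent.K6.H60.TW.Stm2

/-! # Piece PAR (helper78): the parent block -/

set_option autoImplicit false

namespace Pool.Agent.K6.H60.TW

open Blk

theorem P_PAR : S_PAR := by
  intro k hk
  have hn : T.nil.size = 0 := rfl
  refine ⟨⟨by omega, by rw [hn]; omega⟩, fun b hb hbZ => ?_⟩
  cases b with
  | A i j e =>
    obtain ⟨h1, h2⟩ := hb
    cases e with
    | nil =>
      rw [hn] at h2
      refine ⟨⟨h1, by omega⟩, ?_⟩
      change 1 < if i = 0 then 0 else 2
      have hi : i ≠ 0 := by
        rintro rfl
        apply hbZ
        have hj : j = k - 1 := by omega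
        rw [hj]
        rfl
      rw [if_neg hi]
      omega
    | node a b c d =>
      have hs : (T.node a b c d).size = 1 + a.size + b.size + c.size + d.size := rfl
      rw [hs] at h2
      refine ⟨⟨?_, ?_⟩, ?_⟩
      · change 1 ≤ 1 + i + j + a.size + (b.size + c.size)
        omega
      · change 1 + i + j + a.size + (b.size + c.size) + d.size + 1 = k
        omega
      · cases d with
        | nil =>
          change (if 1 + i + j + a.size = 0 then 0 else 2) < 3 + (T.node a b c T.nil).size
          rw [if_neg (by omega)]
          omega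
        | node a' b' c' d' =>
          change 3 + (T.node a' b' c' d').size < 3 + (T.node a b c (T.node a' b' c' d')).size
          rw [hs]
          omega
  | B i j =>
    obtain ⟨h1, h2⟩ := hb
    refine ⟨⟨?_, ?_⟩, ?_⟩
    · change 1 ≤ 0 + (i + j)
      omega
    · change 0 + (i + j) + T.nil.size + 1 = k
      rw [hn]
      omega
    · change (if 0 = 0 then 0 else 2) < 1
      rw [if_pos rfl]
      omega
  | D i j =>
    obtain ⟨h1, h2⟩ := hb
    refine ⟨⟨?_, ?_⟩, ?_⟩
    · change 1 ≤ 0 + (i + j + 1)
      omega
    · change 0 + (i + j + 1) + 1 = k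
      omega
    · change 1 < 2
      omega

end Pool.Agent.K6.H60.TW
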