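import Pool.Agent.K6.H60.TW.Stm

set_option autoImplicit false

/-!
MP_7ee132_co, piece PORT: the port edges are not tracked and different ports have different edges.
-/

namespace Pool.Agent.K6.H60.TW

namespace PORT

lemma fstInj {A B : Type} {a b p q : A} {c w : B} (h : s((a, c), (b, c)) = s((p, w), (q, w))) :
    s(a, b) = s(p, q) := by
  rw [Sym2.eq_iff] at h ⊢
  simp only [Prod.mk.injEq] at h
  rcases h with ⟨⟨h1, -⟩, h2, -⟩ | ⟨⟨h1, -⟩, h2, -⟩
  · exact Or.inl ⟨h1, h2⟩
  · exact Or.inr ⟨h1, h2⟩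

lemma sndInj {A B : Type} {a b p q : A} {c w : B} (h : s((c, a), (c, b)) = s((w, p), (w, q))) :
    s(a, b) = s(p, q) := by
  rw [Sym2.eq_iff] at h ⊢
  simp only [Prod.mk.injEq] at h
  rcases h with ⟨⟨-, h1⟩, -, h2⟩ | ⟨⟨-, h1⟩, -, h2⟩
  · exact Or.inl ⟨h1, h2⟩
  · exact Or.inr ⟨h1, h2⟩

lemma p11_ne : s(p11a.1, p11a.2) ≠ s(p11b.1, p11b.2) ∧ s(p11a.1, p11a.2) ≠ s(p11c.1, p11c.2) ∧
    s(p11b.1, p11b.2) ≠ s(p11c.1, p11c.2) := by
  refine ⟨?_, ?_, ?_⟩ <;> decide

end PORT

theorem P_PORT (h : S_FREE) : S_PORT := by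
  intro i j s s' hij hs1 hs3 hs1' hs3'
  by_cases hi : 2 ≤ i
  · have e : ∀ t, port i j t = (((r i t).1, (comb j, .nil)), ((r i t).2, (comb j, .nil))) := by
      intro t
      rw [port, if_pos hi]
    rw [e, e]
    constructor
    · rintro (⟨-, p, q, w, h1, -, h2⟩ | ⟨h1, -⟩)
      · have h3 := PORT.fstInj h2
        rw [← h3] at h1
        exact (h i s hi hs1 (by omega)).1 h1
      · omega
    · intro h1
      have h3 := PORT.fstInj h1
      exact (h i s hi hs1 (by omega)).2 s' hs1' (by omega) h3
  · by_cases hj : 2 ≤ j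
    · have e : ∀ t, port i j t = (((comb i, .nil), (r j t).1), ((comb i, .nil), (r j t).2)) := by
        intro t
        rw [port, if_neg hi, if_pos hj]
      rw [e, e]
      constructor
      · rintro (⟨h1, -⟩ | ⟨-, -, p, q, w, h1, -, h2⟩)
        · omega
        · have h3 := PORT.sndInj h2
          rw [← h3] at h1
          exact (h j s hj hs1 (by omega)).1 h1
      · intro h1
        have h3 := PORT.sndInj h1
        exact (h j s hj hs1 (by omega)).2 s' hs1' (by omega) h3
    · have hi1 : i = 1 := by omega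
      have hj1 : j = 1 := by omega
      subst hi1
      subst hj1
      have e : ∀ t, port 1 1 t = p11 t := by
        intro t
        simp [port]
      rw [e, e]
      constructor
      · rintro (⟨h1, -⟩ | ⟨-, h1, -⟩) <;> omega
      · intro h1
        obtain ⟨n1, n2, n3⟩ := PORT.p11_ne
        have hs : s = 1 ∨ s = 2 ∨ s = 3 := by omega
        have hs' : s' = 1 ∨ s' = 2 ∨ s' = 3 := by omega
        rcases hs with hs | hs | hs <;> rcases hs' with hs' | hs' | hs' <;> subst hs <;>
          subst hs' <;> first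
          | rfl
          | exact absurd h1 n1
          | exact absurd h1 n2
          | exact absurd h1 n3
          | exact absurd h1.symm n1
          | exact absurd h1.symm n2
          | exact absurd h1.symm n3

end Pool.Agent.K6.H60.TW
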