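import Pool.Agent.K6.H60.TW.Stm

set_option autoImplicit false

namespace Pool.Agent.K6.H60.TW

namespace PROD

theorem cyc_mono {V : Type} {R : V → V → Prop} {S : Set V} {E E' : Set (Sym2 V)}
    (h : Cyc R S E) (hE : E' ⊆ E) : Cyc R S E' := by
  obtain ⟨l, u, v, h1, h2, h3, h4, h5, h6, h7, h8⟩ := h
  exact ⟨l, u, v, h1, h2, h3, h4, h5, h6, h7, fun e he => h8 e (hE he)⟩

end PROD

open PROD in
theorem P_PROD (h : S_TREE) (hO : S_OPEN) (hm : S_MAPC) : S_PROD := by
  intro A B R₁ R₂ hs₁ hs₂ S₁ S₂ K a b c d x y hC hab hcd hne hP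
  obtain ⟨lp, hn, hmem, hx, -, hch, -⟩ := hP
  set n := lp.length with hndef
  have hn0 : 0 < n := by
    rcases lp with _ | ⟨z, lp⟩
    · simp at hx
    · simp [hndef]
  let q : ℕ → B := fun t => lp.getD t x
  have hq : ∀ t, t < n → ∀ (ht : t < lp.length), q t = lp[t] := fun t _ ht =>
    List.getD_eq_getElem _ _ ht
  have hqS : ∀ t, t < n → q t ∈ S₂ := by
    intro t ht
    rw [hq t ht ht]
    exact (hmem _).1 (List.getElem_mem _)
  have hqinj : ∀ s t, s < n → t < n → q s = q t → s = t := by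
    intro s t hs ht he
    rw [hq s hs hs, hq t ht ht] at he
    exact (List.Nodup.getElem_inj_iff hn).1 he
  have hqsurj : ∀ w ∈ S₂, ∃ t, t < n ∧ q t = w := by
    intro w hw
    obtain ⟨t, ht, he⟩ := List.getElem_of_mem ((hmem w).2 hw)
    exact ⟨t, ht, by rw [hq t ht ht, he]⟩
  have hqR : ∀ t, t + 1 < n → R₂ (q t) (q (t + 1)) := by
    intro t ht
    rw [hq t (by omega) (by omega), hq (t + 1) ht ht]
    exact (List.isChain_iff_getElem.1 hch) t ht
  -- the rows
  let E0 : Set (Sym2 A) := K ∪ {s(a, b), s(c, d)}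
  let pr : ℕ → A × A := fun t => if t % 2 = 0 then (a, b) else (c, d)
  let ed : ℕ → Sym2 A := fun t => s((pr t).1, (pr t).2)
  have hed : ∀ t, ed t ∈ E0 := by
    intro t
    show s((if t % 2 = 0 then (a, b) else (c, d)).1, (if t % 2 = 0 then (a, b) else (c, d)).2) ∈ E0
    split_ifs
    · exact Or.inr (Or.inl rfl)
    · exact Or.inr (Or.inr rfl)
  have hedK : ∀ t, ed t ∉ K := by
    intro t
    show s((if t % 2 = 0 then (a, b) else (c, d)).1, (if t % 2 = 0 then (a, b) else (c, d)).2) ∉ K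
    split_ifs
    · exact hab
    · exact hcd
  have hed1 : ∀ t, ed (t + 1) ≠ ed t := by
    intro t
    show s((if (t + 1) % 2 = 0 then (a, b) else (c, d)).1,
      (if (t + 1) % 2 = 0 then (a, b) else (c, d)).2) ≠
      s((if t % 2 = 0 then (a, b) else (c, d)).1, (if t % 2 = 0 then (a, b) else (c, d)).2)
    rcases Nat.mod_two_eq_zero_or_one t with ht | ht
    · rw [if_neg (by omega), if_pos ht]
      exact fun h => hne h.symm
    · rw [if_pos (by omega), if_neg (by omega)]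
      exact hne
  let F : Set ℕ := {t | t < n}
  let f : ℕ → A → A × B := fun t z => (z, q t)
  let S : ℕ → Set (A × B) := fun t => f t '' S₁
  let E : ℕ → Set (Sym2 (A × B)) := fun t =>
    Sym2.map (f t) '' (if t = 0 then E0 else E0 \ {ed (t - 1)})
  let u : ℕ → A × B := fun i => ((pr (i - 1)).1, q i)
  let v : ℕ → A × B := fun i => ((pr (i - 1)).2, q i)
  let u' : ℕ → A × B := fun i => ((pr (i - 1)).1, q (i - 1))
  let v' : ℕ → A × B := fun i => ((pr (i - 1)).2, q (i - 1))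
  have hinj : ∀ t, Set.InjOn (f t) S₁ := fun t z _ z' _ he => congrArg Prod.fst he
  have hrow : ∀ t, ∀ z ∈ S₁, ∀ z' ∈ S₁, R₁ z z' → Box R₁ R₂ (f t z) (f t z') :=
    fun t z _ z' _ hz => Or.inl ⟨hz, rfl⟩
  have hbs : ∀ x y, Box R₁ R₂ x y → Box R₁ R₂ y x := by
    rintro x y (⟨h1, h2⟩ | ⟨h1, h2⟩)
    · exact Or.inl ⟨hs₁ _ _ h1, h2.symm⟩
    · exact Or.inr ⟨h1.symm, hs₂ _ _ h2⟩
  have huv' : ∀ i, s(u' i, v' i) = Sym2.map (f (i - 1)) (ed (i - 1)) := fun i => rfl
  have hmain := h (A × B) ℕ (Box R₁ R₂) hbs F (Set.finite_lt_nat n) 0 (fun t => t - 1) id S E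
    u v u' v' hn0 (by
      intro i hi j hj hij
      rw [Set.disjoint_left]
      rintro _ ⟨z, _, rfl⟩ ⟨z', _, hz'⟩
      exact hij (hqinj i j hi hj (congrArg Prod.snd hz').symm)) (by
      show Cyc (Box R₁ R₂) (f 0 '' S₁) (Sym2.map (f 0) '' (if 0 = 0 then E0 else E0 \ {ed (0 - 1)}))
      rw [if_pos rfl]
      exact (hm A (A × B) R₁ (Box R₁ R₂) (f 0) S₁ E0 (hinj 0) (hrow 0)).1 hC) (by
      intro i hi hi0
      obtain ⟨t, rfl⟩ := Nat.exists_eq_succ_of_ne_zero hi0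
      have hi' : t + 1 < n := hi
      refine ⟨show t < n by omega, show t < t + 1 by omega, ?_, ?_, ?_, ?_⟩
      · have h1 := hO A R₁ hs₁ S₁ E0 _ _ hC (hed t)
        have h2 := (hm A (A × B) R₁ (Box R₁ R₂) (f (t + 1)) S₁ _ (hinj _) (hrow _)).2 _ _ h1
        show Pth (Box R₁ R₂) (f (t + 1) '' S₁) _ _
          (Sym2.map (f (t + 1)) '' (if t + 1 = 0 then E0 else E0 \ {ed (t + 1 - 1)}))
        rw [if_neg (Nat.succ_ne_zero t)]
        exact h2
      · exact Or.inr ⟨rfl, hs₂ _ _ (hqR t hi')⟩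
      · exact Or.inr ⟨rfl, hs₂ _ _ (hqR t hi')⟩
      · show Sym2.map (f t) (ed t) ∈ Sym2.map (f t) '' (if t = 0 then E0 else E0 \ {ed (t - 1)})
        refine ⟨ed t, ?_, rfl⟩
        split_ifs with ht
        · exact hed t
        · refine ⟨hed t, fun he => ?_⟩
          have he' : ed t = ed (t - 1) := he
          obtain ⟨s, rfl⟩ := Nat.exists_eq_succ_of_ne_zero ht
          exact hed1 s he') (by
      intro i hi j hj hi0 hj0 he
      have h1 : Sym2.map Prod.snd s(u' i, v' i) = Sym2.map Prod.snd s(u' j, v' j) := by rw [he]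
      have h2 : s(q (i - 1), q (i - 1)) = s(q (j - 1), q (j - 1)) := h1
      have h3 : q (i - 1) = q (j - 1) := by
        rcases Sym2.eq_iff.1 h2 with ⟨h4, _⟩ | ⟨h4, _⟩ <;> exact h4
      have hi' : i < n := hi
      have hj' : j < n := hj
      have h5 := hqinj (i - 1) (j - 1) (by omega) (by omega) h3
      omega)
  have hS : (⋃ i ∈ F, S i) = S₁ ×ˢ S₂ := by
    ext ⟨z, w⟩
    simp only [Set.mem_iUnion, Set.mem_prod]
    constructor
    · rintro ⟨t, ht, z', hz', he⟩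
      have e1 : z' = z := congrArg Prod.fst he
      have e2 : q t = w := congrArg Prod.snd he
      exact ⟨e1 ▸ hz', e2 ▸ hqS t ht⟩
    · rintro ⟨hz, hw⟩
      obtain ⟨t, ht, rfl⟩ := hqsurj w hw
      exact ⟨t, ht, z, hz, rfl⟩
  rw [hS] at hmain
  refine cyc_mono hmain ?_
  rintro e ⟨p, p', w, hp, hw, rfl⟩
  left
  obtain ⟨t, ht, rfl⟩ := hqsurj w hw
  refine ⟨⟨t, ht, s(p, p'), ?_, rfl⟩, ?_⟩
  · split_ifs
    · exact Or.inl hp
    · exact ⟨Or.inl hp, fun he => hedK _ (by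
        have he' : s(p, p') = ed (t - 1) := he
        rw [← he']
        exact hp)⟩
  · intro j _ _ he
    have h1 : Sym2.map Prod.fst s((p, q t), (p', q t)) = Sym2.map Prod.fst s(u' j, v' j) := by
      rw [he]
    have h2 : s(p, p') = ed (j - 1) := h1
    exact hedK (j - 1) (h2 ▸ hp)

end Pool.Agent.K6.H60.TW
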