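import Pool.Agent.K6.H60.TW.Stm2

/-!
Piece `RUN` of the call `call60` (MP_7ee132_co, statement of helper60, proof of helper95): the free
edges are rungs of ladders.
-/

set_option autoImplicit false

namespace Pool.Agent.K6.H60.TW

open Blk

theorem P_RUN : S_RUN := by
  intro k s hk h1 h5
  have k2 : k ≠ 2 := by omega
  have k3 : k ≠ 3 := by omega
  have hs : s = 1 ∨ s = 2 ∨ s = 3 ∨ s = 4 ∨ s = 5 := by omega
  rcases hs with rfl | rfl | rfl | rfl | rfl
  · refine ⟨.B 0 (k - 1), ?_, by simp [Z], Or.inl ?_⟩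
    · simp only [Blk.Ok]; omega
    · have e1 : k - 1 - 1 = k - 2 := by omega
      simp [fr, r, k2, k3, dn, Blk.ch, Blk.tg, cd, comb, e1]
  · refine ⟨.B 0 (k - 1), ?_, by simp [Z], Or.inr ?_⟩
    · simp only [Blk.Ok]; omega
    · have e1 : k - 1 - 1 = k - 2 := by omega
      simp [fr, r, k2, k3, dn, Blk.ch, Blk.tg, cd, comb, e1]
  · refine ⟨.B 2 (k - 3), ?_, by simp [Z], Or.inl ?_⟩
    · simp only [Blk.Ok]; omega
    · simp [fr, r, r3, k2, k3, dn, Blk.ch, Blk.tg, cd, dd]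
  · refine ⟨.B 1 (k - 2), ?_, by simp [Z], Or.inl ?_⟩
    · simp only [Blk.Ok]; omega
    · have e1 : k - 2 - 1 = k - 3 := by omega
      simp [fr, r, k2, k3, dn, Blk.ch, Blk.tg, cd, comb, e1, L]
  · refine ⟨.B 1 (k - 2), ?_, by simp [Z], Or.inr ?_⟩
    · simp only [Blk.Ok]; omega
    · have e1 : k - 2 - 1 = k - 3 := by omega
      simp [fr, r, k2, k3, dn, Blk.ch, Blk.tg, cd, comb, e1, L]

end Pool.Agent.K6.H60.TW
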