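import Pool.Agent.K6.H60.TW.Stm

set_option autoImplicit false

namespace Pool.Agent.K6.H60.TW

namespace SHAP

theorem adj_symm : ∀ x y : P, Adj x y → Adj y x := by
  intro x y h
  induction h with
  | down a b c d e => exact Adj.up a b c d e
  | up a b c d e => exact Adj.down a b c d e
  | l1 c d y _ ih => exact Adj.l1 c d y ih
  | l2 a b y _ ih => exact Adj.l2 a b y ih
  | r1 x d e _ ih => exact Adj.r1 x d e ih
  | r2 x b c _ ih => exact Adj.r2 x b c ih

theorem cyc_mono {V : Type} {R : V → V → Prop} {S : Set V} {E E' : Set (Sym2 V)} (h : E' ⊆ E)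
    (hc : Cyc R S E) : Cyc R S E' := by
  obtain ⟨l, u, v, h1, h2, h3, h4, h5, h6, h7, h8⟩ := hc
  exact ⟨l, u, v, h1, h2, h3, h4, h5, h6, h7, fun e he => h8 e (h he)⟩

theorem size_eq_zero {t : T} (h : t.size = 0) : t = .nil := by
  cases t with
  | nil => rfl
  | node a b c d => simp [T.size] at h

theorem size_eq_one {t : T} (h : t.size = 1) : t = L := by
  cases t with
  | nil => simp [T.size] at h
  | node a b c d =>
    simp only [T.size] at h
    rw [size_eq_zero (t := a) (by omega), size_eq_zero (t := b) (by omega),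
      size_eq_zero (t := c) (by omega), size_eq_zero (t := d) (by omega)]
    rfl

theorem size_comb (n : ℕ) : (comb n).size = n := by
  induction n with
  | zero => rfl
  | succ n ih => simp [comb, T.size, ih]; omega

theorem mem_zero (p : P) : p ∈ VV 0 ↔ p = (.nil, .nil) := by
  constructor
  · intro h
    have h' : p.1.size + p.2.size = 0 := h
    exact Prod.ext (size_eq_zero (by omega)) (size_eq_zero (by omega))
  · rintro rfl
    rfl

theorem mem_one (p : P) : p ∈ VV 1 ↔ p = (L, .nil) ∨ p = (.nil, L) := by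
  constructor
  · intro h
    have h' : p.1.size + p.2.size = 1 := h
    rcases Nat.eq_zero_or_pos p.1.size with h0 | h0
    · exact Or.inr (Prod.ext (size_eq_zero h0) (size_eq_one (by omega)))
    · exact Or.inl (Prod.ext (size_eq_one (by omega)) (size_eq_zero (by omega)))
  · rintro (rfl | rfl) <;> rfl

theorem adj_ab : Adj (L, .nil) (.nil, L) := Adj.down .nil .nil .nil .nil .nil

/-- Hamilton paths of all levels below `k`. -/
theorem path (k : ℕ) (hM : ∀ i, 2 ≤ i → i < k → Main i) (j : ℕ) (hj : j < k) :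
    ∃ x y, Pth Adj (VV j) x y ∅ := by
  rcases Nat.lt_or_ge j 2 with h | h
  · interval_cases j
    · refine ⟨(.nil, .nil), (.nil, .nil), [(.nil, .nil)], by simp, ?_, rfl, rfl, by simp, by simp⟩
      intro x
      rw [mem_zero]
      simp
    · refine ⟨(L, .nil), (.nil, L), [(L, .nil), (.nil, L)], ?_, ?_, rfl, rfl, ?_, by simp⟩
      · simp [L]
      · intro x
        rw [mem_one]
        simp
      · simp [adj_ab]
  · obtain ⟨l, u, v, h1, h2, h3, h4, h5, h6, h7, h8⟩ := hM j h hj
    exact ⟨u, v, l, h1, h2, h4, h5, h6, by simp⟩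

/-- the product cycle for a large first factor. -/
theorem big (hp : S_PROD) (hf : S_FREE) (k : ℕ) (hM : ∀ i, 2 ≤ i → i < k → Main i) (i j : ℕ)
    (hi2 : 2 ≤ i) (hi : i < k) (hj : j < k) :
    Cyc (Box Adj Adj) (VV i ×ˢ VV j) {e | ∃ p q w, s(p, q) ∈ KK i ∪ {fr i 1, fr i 2, fr i 3} ∧
      w ∈ VV j ∧ e = s((p, w), (q, w))} := by
  obtain ⟨x, y, hxy⟩ := path k hM j hj
  have hfr := fun s (h1 : 1 ≤ s) (h5 : s ≤ 5) => hf i s hi2 h1 h5
  have nK : ∀ s, 4 ≤ s → s ≤ 5 → fr i s ∉ KK i ∪ {fr i 1, fr i 2, fr i 3} := by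
    intro s h4 h5 h
    rcases h with h | h | h | h
    · exact (hfr s (by omega) h5).1 h
    · have := (hfr s (by omega) h5).2 1 le_rfl (by norm_num) h; omega
    · have := (hfr s (by omega) h5).2 2 (by norm_num) (by norm_num) h; omega
    · have := (hfr s (by omega) h5).2 3 (by norm_num) (by norm_num) h; omega
  refine hp P P Adj Adj adj_symm adj_symm (VV i) (VV j) (KK i ∪ {fr i 1, fr i 2, fr i 3})
    (r i 4).1 (r i 4).2 (r i 5).1 (r i 5).2 x y ?_ (nK 4 le_rfl (by norm_num))
    (nK 5 (by norm_num) le_rfl) ?_ hxy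
  · refine cyc_mono ?_ (hM i hi2 hi)
    rintro e ((h | h) | h)
    · exact Or.inl h
    · right
      rcases h with h | h | h
      · exact ⟨1, le_rfl, by norm_num, h⟩
      · exact ⟨2, by norm_num, by norm_num, h⟩
      · exact ⟨3, by norm_num, by norm_num, h⟩
    · right
      rcases h with h | h
      · exact ⟨4, by norm_num, by norm_num, h⟩
      · exact ⟨5, by norm_num, by norm_num, h⟩
  · intro h
    have := (hfr 4 (by norm_num) (by norm_num)).2 5 (by norm_num) le_rfl h
    omega

theorem fr_mem (i s : ℕ) (h1 : 1 ≤ s) (h3 : s ≤ 3) :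
    s((r i s).1, (r i s).2) ∈ KK i ∪ {fr i 1, fr i 2, fr i 3} := by
  right
  interval_cases s
  · exact Or.inl rfl
  · exact Or.inr (Or.inl rfl)
  · exact Or.inr (Or.inr rfl)

end SHAP

open SHAP

/-- PIECE SHAP (helper48). -/
theorem P_SHAP (hp : S_PROD) (hm : S_MAPC) (hf : S_FREE) : S_SHAP := by
  intro k hM i j hi hj hij
  rcases Nat.lt_or_ge i 2 with h2 | h2
  · rcases Nat.lt_or_ge j 2 with h2' | h2'
    · obtain rfl : i = 1 := by omega
      obtain rfl : j = 1 := by omega
      refine ⟨[((L, .nil), (.nil, L)), ((L, .nil), (L, .nil)), ((.nil, L), (L, .nil)),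
        ((.nil, L), (.nil, L))], ((L, .nil), (.nil, L)), ((.nil, L), (.nil, L)), ?_, ?_, ?_, rfl,
        rfl, ?_, ?_, ?_⟩
      · simp [L]
      · rintro ⟨x, y⟩
        rw [Set.mem_prod, mem_one, mem_one]
        simp only [List.mem_cons, List.not_mem_nil, or_false, Prod.mk.injEq]
        tauto
      · simp
      · have := adj_symm _ _ adj_ab
        simp [Box, adj_ab, this]
      · exact Or.inl ⟨adj_symm _ _ adj_ab, rfl⟩
      · rintro e (h | ⟨s, h1, h3, h⟩)
        · rcases h with ⟨h, -⟩ | ⟨-, h, -⟩ <;> omega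
        · right
          interval_cases s
          · exact ⟨((L, .nil), (L, .nil)), ((.nil, L), (L, .nil)),
              ⟨[((L, .nil), (.nil, L))], [((.nil, L), (.nil, L))], rfl⟩, by
                rw [h]; exact Sym2.eq_swap⟩
          · exact ⟨((L, .nil), (.nil, L)), ((L, .nil), (L, .nil)),
              ⟨[], [((.nil, L), (L, .nil)), ((.nil, L), (.nil, L))], rfl⟩, by
                rw [h]; exact Sym2.eq_swap⟩
          · exact ⟨((.nil, L), (L, .nil)), ((.nil, L), (.nil, L)),
              ⟨[((L, .nil), (.nil, L)), ((L, .nil), (L, .nil))], [], rfl⟩, by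
                rw [h]; rfl⟩
    · have hb := big hp hf k hM j i h2' hj hi
      have hs := (hm (P × P) (P × P) (Box Adj Adj) (Box Adj Adj) Prod.swap _ _
        (Prod.swap_injective.injOn) (by
          rintro ⟨a, b⟩ - ⟨c, d⟩ - (⟨h, h'⟩ | ⟨h, h'⟩)
          · exact Or.inr ⟨h', h⟩
          · exact Or.inl ⟨h', h⟩)).1 hb
      rw [Set.image_swap_prod] at hs
      refine cyc_mono ?_ hs
      rintro e (h | ⟨s, h1, h3, h⟩)
      · rcases h with ⟨h, -⟩ | ⟨-, -, p, q, w, hpq, hw, rfl⟩
        · omega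
        · exact ⟨s((p, w), (q, w)), ⟨p, q, w, Or.inl hpq, hw, rfl⟩, rfl⟩
      · refine ⟨s(((r j s).1, (comb i, .nil)), ((r j s).2, (comb i, .nil))),
          ⟨(r j s).1, (r j s).2, (comb i, .nil), fr_mem j s h1 h3, ?_, rfl⟩, ?_⟩
        · show (comb i).size + 0 = i
          rw [size_comb, add_zero]
        · rw [h, port, if_neg (by omega), if_pos h2']
          rfl
  · refine cyc_mono ?_ (big hp hf k hM i j h2 hi hj)
    rintro e (h | ⟨s, h1, h3, h⟩)
    · rcases h with ⟨-, p, q, w, hpq, hw, rfl⟩ | ⟨h, -⟩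
      · exact ⟨p, q, w, Or.inl hpq, hw, rfl⟩
      · omega
    · refine ⟨(r i s).1, (r i s).2, (comb j, .nil), fr_mem i s h1 h3, ?_, ?_⟩
      · show (comb j).size + 0 = j
        rw [size_comb, add_zero]
      · rw [h, port, if_pos h2]

end Pool.Agent.K6.H60.TW
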