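import Pool.Agent.K6.H60.TW.Stm2

/-!
# Piece SIZ: sizes of the free edges, the ports and the tracked edges
-/

set_option autoImplicit false

namespace Pool.Agent.K6.H60.TW

namespace SIZ

theorem comb_size (n : ℕ) : (comb n).size = n := by
  induction n with
  | zero => rfl
  | succ n ih =>
    show 1 + (comb n).size + 0 + 0 + 0 = n + 1
    rw [ih]; omega

theorem r3_size (k : ℕ) (hk : 2 ≤ k) : psize (r3 k).1 = k ∧ psize (r3 k).2 = k := by
  by_cases h2 : k = 2
  · subst h2; exact ⟨rfl, rfl⟩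
  by_cases h3 : k = 3
  · subst h3; exact ⟨rfl, rfl⟩
  have e : r3 k = dn .nil .nil (.node .nil .nil L .nil) (comb (k - 3)) .nil := by
    rw [r3, if_neg h2, if_neg h3]
  rw [e]
  have hc := comb_size (k - 3)
  constructor
  · show 0 + (1 + 0 + 2 + (comb (k - 3)).size + 0) = k
    omega
  · show (1 + 0 + 0 + 2 + (comb (k - 3)).size) + 0 = k
    omega

theorem r_three (k : ℕ) : r k 3 = r3 k := by
  by_cases h2 : k = 2
  · subst h2; rfl
  by_cases h3 : k = 3
  · subst h3; rfl
  rw [r, if_neg h2, if_neg h3]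
  rfl

theorem dd_size (m : ℕ) (hm : 1 ≤ m) : (dd m).1.size = m + 1 ∧ (dd m).2.size = m + 1 := by
  by_cases h : 2 ≤ m
  · have e : dd m = (.node .nil .nil (r3 m).1.1 (r3 m).1.2,
        .node .nil .nil (r3 m).2.1 (r3 m).2.2) := by
      rw [dd, if_pos h]
    rw [e]
    obtain ⟨h1, h2⟩ := r3_size m h
    have h1' : (r3 m).1.1.size + (r3 m).1.2.size = m := h1
    have h2' : (r3 m).2.1.size + (r3 m).2.2.size = m := h2
    constructor
    · show 1 + 0 + 0 + (r3 m).1.1.size + (r3 m).1.2.size = m + 1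
      omega
    · show 1 + 0 + 0 + (r3 m).2.1.size + (r3 m).2.2.size = m + 1
      omega
  · have : m = 1 := by omega
    subst this
    exact ⟨rfl, rfl⟩

theorem dd_ne (m : ℕ) (hm : 1 ≤ m) : (dd m).1 ≠ (dd m).2 := by
  by_cases h : 2 ≤ m
  · have e : dd m = (.node .nil .nil (r3 m).1.1 (r3 m).1.2,
        .node .nil .nil (r3 m).2.1 (r3 m).2.2) := by
      rw [dd, if_pos h]
    rw [e]
    intro hc
    have hc' : T.node .nil .nil (r3 m).1.1 (r3 m).1.2 =
      T.node .nil .nil (r3 m).2.1 (r3 m).2.2 := hc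
    injection hc' with _ _ h1 _
    revert h1
    by_cases h2 : m = 2
    · subst h2; decide
    by_cases h3 : m = 3
    · subst h3; decide
    have e : r3 m = dn .nil .nil (.node .nil .nil L .nil) (comb (m - 3)) .nil := by
      rw [r3, if_neg h2, if_neg h3]
    rw [e]
    intro h1
    have h1' : T.nil = T.node .nil .nil (.node .nil .nil L .nil) (comb (m - 3)) := h1
    cases h1'
  · have : m = 1 := by omega
    subst this
    decide

theorem dn_size (x b c d e : T) :
    psize (dn x b c d e).1 = x.size + (1 + b.size + c.size + d.size + e.size) ∧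
    psize (dn x b c d e).2 = (1 + x.size + b.size + c.size + d.size) + e.size :=
  ⟨rfl, rfl⟩

theorem r_size (k s : ℕ) (hk : 2 ≤ k) : psize (r k s).1 = k ∧ psize (r k s).2 = k := by
  by_cases h2 : k = 2
  · subst h2
    have e : r 2 s = (if s = 1 then (A2, B1) else if s = 2 then (B2, A3) else if s = 3 then r3 2
      else if s = 4 then (B4, M2) else (M2, A1)) := rfl
    rw [e]
    split_ifs <;> exact ⟨rfl, rfl⟩
  by_cases h3 : k = 3
  · subst h3
    have e : r 3 s = (if s = 1 then t31 else if s = 2 then t32 else if s = 3 then r3 3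
      else if s = 4 then t34 else t35) := rfl
    rw [e]
    split_ifs <;> exact ⟨rfl, rfl⟩
  have e : r k s = (if s = 1 then dn .nil .nil .nil (dd (k - 2)).1 .nil
     else if s = 2 then dn .nil .nil .nil (dd (k - 2)).2 .nil
     else if s = 3 then r3 k
     else if s = 4 then dn .nil .nil L (dd (k - 3)).1 .nil
     else dn .nil .nil L (dd (k - 3)).2 .nil) := by
    rw [r, if_neg h2, if_neg h3]
  obtain ⟨d1, d2⟩ := dd_size (k - 2) (by omega)
  obtain ⟨d3, d4⟩ := dd_size (k - 3) (by omega)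
  have hn : T.nil.size = 0 := rfl
  have hL : L.size = 1 := rfl
  rw [e]
  split_ifs
  · rw [(dn_size _ _ _ _ _).1, (dn_size _ _ _ _ _).2, d1, hn]; omega
  · rw [(dn_size _ _ _ _ _).1, (dn_size _ _ _ _ _).2, d2, hn]; omega
  · exact r3_size k hk
  · rw [(dn_size _ _ _ _ _).1, (dn_size _ _ _ _ _).2, d3, hn, hL]; omega
  · rw [(dn_size _ _ _ _ _).1, (dn_size _ _ _ _ _).2, d4, hn, hL]; omega

theorem port_size (i j s : ℕ) (hij : 1 ≤ i + j) :
    psize (port i j s).1.1 = i ∧ psize (port i j s).1.2 = j ∧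
    psize (port i j s).2.1 = i ∧ psize (port i j s).2.2 = j := by
  by_cases hi : 2 ≤ i
  · have e : port i j s = (((r i s).1, (comb j, .nil)), ((r i s).2, (comb j, .nil))) := by
      rw [port, if_pos hi]
    rw [e]
    obtain ⟨h1, h2⟩ := r_size i s hi
    have hc : psize (comb j, T.nil) = j := by
      show (comb j).size + 0 = j
      rw [comb_size]; omega
    exact ⟨h1, hc, h2, hc⟩
  by_cases hj : 2 ≤ j
  · have e : port i j s = (((comb i, .nil), (r j s).1), ((comb i, .nil), (r j s).2)) := by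
      rw [port, if_neg hi, if_pos hj]
    rw [e]
    obtain ⟨h1, h2⟩ := r_size j s hj
    have hc : psize (comb i, T.nil) = i := by
      show (comb i).size + 0 = i
      rw [comb_size]; omega
    exact ⟨hc, h1, hc, h2⟩
  have hi' : i = 0 ∨ i = 1 := by omega
  have hj' : j = 0 ∨ j = 1 := by omega
  rcases hi' with rfl | rfl <;> rcases hj' with rfl | rfl
  · omega
  · exact ⟨rfl, rfl, rfl, rfl⟩
  · exact ⟨rfl, rfl, rfl, rfl⟩
  · have e : port 1 1 s = p11 s := rfl
    rw [e, p11]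
    split_ifs <;> exact ⟨rfl, rfl, rfl, rfl⟩

theorem emb_size (b : Blk) (k : ℕ) (hb : b.Ok k) (w : P × P) (h1 : psize w.1 = b.fi)
    (h2 : psize w.2 = b.se) : psize (b.emb w) = k := by
  have h1' : w.1.1.size + w.1.2.size = b.fi := h1
  have h2' : w.2.1.size + w.2.2.size = b.se := h2
  rcases b with ⟨i, j, e⟩ | ⟨i, j⟩ | ⟨i, j⟩
  · obtain ⟨-, hb⟩ := hb
    show (1 + w.1.1.size + w.1.2.size + w.2.1.size + w.2.2.size) + e.size = k
    have a1 : w.1.1.size + w.1.2.size = i := h1'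
    have a2 : w.2.1.size + w.2.2.size = j := h2'
    omega
  · obtain ⟨-, hb⟩ := hb
    show 0 + (1 + w.1.1.size + w.1.2.size + w.2.1.size + w.2.2.size) = k
    have a1 : w.1.1.size + w.1.2.size = i := h1'
    have a2 : w.2.1.size + w.2.2.size = j := h2'
    omega
  · obtain ⟨-, hb⟩ := hb
    show 1 + (1 + w.1.1.size + w.1.2.size + w.2.1.size + w.2.2.size) = k
    have a1 : w.1.1.size + w.1.2.size = i := h1'
    have a2 : w.2.1.size + w.2.2.size = j := h2'
    omega

theorem one_le (b : Blk) (k : ℕ) (hb : b.Ok k) : 1 ≤ b.fi + b.se := by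
  rcases b with ⟨i, j, e⟩ | ⟨i, j⟩ | ⟨i, j⟩
  · exact hb.1
  · exact hb.1
  · exact hb.1

theorem kk_size (k : ℕ) (x y : P) (h : s(x, y) ∈ KK k) : psize x = k ∧ psize y = k := by
  obtain ⟨b, s, hb, -, h⟩ := h
  obtain ⟨p1, p2, p3, p4⟩ := port_size b.fi b.se s (one_le b k hb)
  have e1 := emb_size b k hb (port b.fi b.se s).1 p1 p2
  have e2 := emb_size b k hb (port b.fi b.se s).2 p3 p4
  rcases Sym2.eq_iff.1 h with ⟨rfl, rfl⟩ | ⟨rfl, rfl⟩
  · exact ⟨e1, e2⟩
  · exact ⟨e2, e1⟩

theorem mk_port (m : ℕ) (hm : 1 ≤ m) :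
    mk (port 0 m 3).1 = (dd m).1 ∧ mk (port 0 m 3).2 = (dd m).2 := by
  by_cases h : 2 ≤ m
  · have e : port 0 m 3 = (((comb 0, .nil), (r m 3).1), ((comb 0, .nil), (r m 3).2)) := by
      rw [port, if_neg (by omega), if_pos h]
    have e2 : dd m = (.node .nil .nil (r3 m).1.1 (r3 m).1.2,
        .node .nil .nil (r3 m).2.1 (r3 m).2.2) := by
      rw [dd, if_pos h]
    rw [e, e2, r_three]
    exact ⟨rfl, rfl⟩
  · have : m = 1 := by omega
    subst this
    exact ⟨rfl, rfl⟩

end SIZ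

theorem P_SIZ : S_SIZ :=
  ⟨fun k s hk => SIZ.r_size k s hk,
    fun m hm => ⟨(SIZ.dd_size m hm).1, (SIZ.dd_size m hm).2, SIZ.dd_ne m hm⟩,
    fun i j s hij => SIZ.port_size i j s hij, SIZ.comb_size, SIZ.kk_size, SIZ.mk_port⟩

end Pool.Agent.K6.H60.TW
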