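import Pool.Agent.K6.H60.TW.Stm2

/-!
# Piece TGE of call60 (helper51)
-/

namespace Pool.Agent.K6.H60.TW

open Blk

namespace TGE

lemma mem_map {f : P × P → P} {S : Set (Sym2 (P × P))} {u v : P × P} {x y : P} (h : s(u, v) ∈ S)
    (hx : f u = x) (hy : f v = y) : s(x, y) ∈ Sym2.map f '' S :=
  ⟨s(u, v), h, by rw [Sym2.map_mk]; simp [hx, hy]⟩

/-- the edge `(c, d)(c', d')` of the blocks `B i j` -/
lemma cd_mem (h : S_SIZ) {i j : ℕ} (hij : 3 ≤ i + j) : s((cd i j).1, (cd i j).2) ∈ KK (i + j) := by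
  obtain ⟨-, -, -, hcomb, -, hmk⟩ := h
  unfold cd
  split_ifs with hi
  · refine ⟨.A 0 (i - 1) (comb j), 3, ⟨by omega, ?_⟩, Or.inr rfl, ?_⟩
    · rw [hcomb]; omega
    · obtain ⟨h1, h2⟩ := hmk (i - 1) (by omega)
      simp only [pe, emb, fi, se]
      rw [h1, h2]
  · rcases (by omega : i = 0 ∨ i = 1) with rfl | rfl
    · refine ⟨.B 0 (j - 1), 3, ⟨by omega, by omega⟩, Or.inr rfl, ?_⟩
      obtain ⟨h1, h2⟩ := hmk (j - 1) (by omega)
      simp only [pe, emb, fi, se]
      rw [h1, h2]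
      rfl
    · refine ⟨.D 0 (j - 1), 3, ⟨by omega, by omega⟩, rfl, ?_⟩
      obtain ⟨h1, h2⟩ := hmk (j - 1) (by omega)
      simp only [pe, emb, fi, se]
      rw [h1, h2]
      rfl

end TGE

open TGE in
theorem P_TGE (h : S_SIZ) : S_TGE := by
  intro k hk b hb hZ
  have h0 := h
  obtain ⟨-, -, -, hcomb, -, hmk⟩ := h
  cases b with
  | B i j =>
    obtain ⟨h1, h2⟩ := hb
    refine ⟨by simp only [par, fi, se]; omega, ?_⟩
    simp only [par, fi, se, tg]
    refine mem_map (u := ((.nil, .nil), (cd i j).1)) (v := ((.nil, .nil), (cd i j).2)) ?_ rfl rfl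
    exact Or.inr ⟨by omega, by omega, _, _, _, cd_mem h0 (by omega), rfl, rfl⟩
  | D i j =>
    obtain ⟨h1, h2⟩ := hb
    refine ⟨by simp only [par, fi, se]; omega, ?_⟩
    simp only [par, fi, se, tg]
    refine mem_map (u := ((.nil, .nil), (.nil, mk (port i j 1).1)))
      (v := ((.nil, .nil), (.nil, mk (port i j 1).2))) ?_ rfl rfl
    refine Or.inr ⟨by omega, by omega, _, _, _, ?_, rfl, rfl⟩
    exact ⟨.B i j, 1, ⟨h1, rfl⟩, Or.inl rfl, rfl⟩
  | A i j e =>
    cases e with
    | nil =>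
      obtain ⟨h1, h2⟩ := hb
      simp only [T.size] at h2
      have hi : i ≠ 0 := by
        rintro rfl
        apply hZ
        simp only [Z]
        congr 1
        omega
      refine ⟨by simp only [par, fi, se]; omega, ?_⟩
      simp only [par, fi, se, tg]
      refine mem_map (u := (((cd i j).1.1, .nil), ((cd i j).1.2, .nil)))
        (v := (((cd i j).2.1, .nil), ((cd i j).2.2, .nil))) ?_ rfl rfl
      rcases (by omega : 2 ≤ i ∨ i = 1) with hi2 | rfl
      · refine Or.inl ⟨hi2, ((dd (i - 1)).1, .nil), ((dd (i - 1)).2, .nil), (comb j, .nil), ?_, ?_, ?_⟩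
        · refine ⟨.A 0 (i - 1) .nil, 3, ⟨by omega, by simp only [T.size]; omega⟩, Or.inr rfl, ?_⟩
          obtain ⟨h3, h4⟩ := hmk (i - 1) (by omega)
          simp only [pe, emb, fi, se]
          rw [h3, h4]
        · simp [VV, psize, hcomb, T.size]
        · simp [cd, hi2]
      · refine Or.inr ⟨by omega, by omega, ((dd (j - 1)).1, .nil), ((dd (j - 1)).2, .nil), (comb 1, .nil), ?_, ?_, ?_⟩
        · refine ⟨.A 0 (j - 1) .nil, 3, ⟨by omega, by simp only [T.size]; omega⟩, Or.inr rfl, ?_⟩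
          obtain ⟨h3, h4⟩ := hmk (j - 1) (by omega)
          simp only [pe, emb, fi, se]
          rw [h3, h4]
        · simp [VV, psize, hcomb, T.size]
        · simp [cd]
    | node a b c d =>
      obtain ⟨h1, h2⟩ := hb
      refine ⟨by simp only [par, fi, se]; omega, ?_⟩
      simp only [par, fi, se, tg]
      refine mem_map (u := ((mk (port i j (col (.node a b c d))).1, a), (b, c)))
        (v := ((mk (port i j (col (.node a b c d))).2, a), (b, c))) ?_ rfl rfl
      refine Or.inl ⟨by omega, _, _, _, ?_, ?_, rfl⟩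
      · exact ⟨.A i j a, col (.node a b c d), ⟨h1, by omega⟩, Or.inl rfl, rfl⟩
      · simp [VV, psize]

end Pool.Agent.K6.H60.TW
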