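import Pool.Agent.K6.H60.TW.Stm2

/-!
# Piece TIN of call60 (helper51)
-/

namespace Pool.Agent.K6.H60.TW

open Blk

namespace TIN

/-- the form of the ends of the target edges -/
def Form : Blk → P → Prop
  | .B i j => fun x => ∃ c d, x = (.node .nil .nil c d, .nil) ∧ T.size c = i ∧ T.size d = j
  | .D i j => fun x => ∃ w : P × P, x = (.nil, .node .nil .nil .nil (mk w)) ∧ psize w.1 = i ∧ psize w.2 = j
  | .A i j .nil => fun x => ∃ c d, x = (.nil, .node c .nil d .nil) ∧ T.size c = i ∧ T.size d = j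
  | .A i j (.node a b c d) => fun x => ∃ w : P × P, x = (.node (mk w) a b c, d) ∧ psize w.1 = i ∧ psize w.2 = j

lemma mk_inj {w w' : P × P} (h : mk w = mk w') : w = w' := by
  obtain ⟨⟨a, b⟩, ⟨c, d⟩⟩ := w
  obtain ⟨⟨a', b'⟩, ⟨c', d'⟩⟩ := w'
  simp only [mk, T.node.injEq] at h
  simp [h]

lemma form_inj (b b' : Blk) (x : P) (h : Form b x) (h' : Form b' x) : b = b' := by
  rcases b with ⟨i, j, e⟩ | ⟨i, j⟩ | ⟨i, j⟩ <;> rcases b' with ⟨i', j', e'⟩ | ⟨i', j'⟩ | ⟨i', j'⟩ <;>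
    (try cases e) <;> (try cases e') <;> simp only [Form] at h h'
  all_goals
    first
    | (obtain ⟨w1, rfl, h1, h2⟩ := h
       obtain ⟨w2, h3, h4, h5⟩ := h'
       simp only [Prod.mk.injEq, T.node.injEq] at h3
       have h6 : mk w1 = mk w2 := by simp_all
       have h7 := mk_inj h6
       subst h7
       simp_all)
    | (obtain ⟨w1, rfl, h1, h2⟩ := h
       obtain ⟨w2, h3, h4, h5⟩ := h'
       simp only [Prod.mk.injEq, T.node.injEq, mk] at h3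
       simp_all)
    | (obtain ⟨w1, rfl, h1, h2⟩ := h
       obtain ⟨c2, d2, h3, h4, h5⟩ := h'
       simp only [Prod.mk.injEq, T.node.injEq, mk] at h3
       simp_all)
    | (obtain ⟨c1, d1, rfl, h1, h2⟩ := h
       obtain ⟨w, h3, h4, h5⟩ := h'
       simp only [Prod.mk.injEq, T.node.injEq, mk] at h3
       simp_all)
    | (obtain ⟨c1, d1, rfl, h1, h2⟩ := h
       obtain ⟨c2, d2, h3, h4, h5⟩ := h'
       simp only [Prod.mk.injEq, T.node.injEq] at h3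
       simp_all)

lemma cd_size (h : S_SIZ) {i j : ℕ} (hij : 3 ≤ i + j) :
    (cd i j).1.1.size = i ∧ (cd i j).1.2.size = j ∧ (cd i j).2.1.size = i ∧ (cd i j).2.2.size = j := by
  obtain ⟨-, hdd, -, hcomb, -, -⟩ := h
  unfold cd
  split_ifs with hi
  · obtain ⟨h1, h2, -⟩ := hdd (i - 1) (by omega)
    refine ⟨?_, hcomb j, ?_, hcomb j⟩
    · exact h1.trans (by omega)
    · exact h2.trans (by omega)
  · obtain ⟨h1, h2, -⟩ := hdd (j - 1) (by omega)
    refine ⟨hcomb i, ?_, hcomb i, ?_⟩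
    · exact h1.trans (by omega)
    · exact h2.trans (by omega)

lemma form_tg (h : S_SIZ) {k : ℕ} (hk : 4 ≤ k) (b : Blk) (hb : b.Ok k) : Form b b.tg.1 ∧ Form b b.tg.2 := by
  have hport := h.2.2.1
  cases b with
  | B i j =>
    obtain ⟨h1, h2⟩ := hb
    obtain ⟨h3, h4, h5, h6⟩ := cd_size h (i := i) (j := j) (by omega)
    exact ⟨⟨_, _, rfl, h3, h4⟩, ⟨_, _, rfl, h5, h6⟩⟩
  | D i j =>
    obtain ⟨h1, h2⟩ := hb
    obtain ⟨h3, h4, h5, h6⟩ := hport i j 1 h1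
    exact ⟨⟨_, rfl, h3, h4⟩, ⟨_, rfl, h5, h6⟩⟩
  | A i j e =>
    cases e with
    | nil =>
      obtain ⟨h1, h2⟩ := hb
      simp only [T.size] at h2
      obtain ⟨h3, h4, h5, h6⟩ := cd_size h (i := i) (j := j) (by omega)
      exact ⟨⟨_, _, rfl, h3, h4⟩, ⟨_, _, rfl, h5, h6⟩⟩
    | node a b c d =>
      obtain ⟨h1, h2⟩ := hb
      obtain ⟨h3, h4, h5, h6⟩ := hport i j (col (.node a b c d)) h1
      exact ⟨⟨_, rfl, h3, h4⟩, ⟨_, rfl, h5, h6⟩⟩

end TIN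

open TIN in
theorem P_TIN (h : S_SIZ) : S_TIN := by
  intro k hk b b' hb hb' _ _ heq
  obtain ⟨h1, h2⟩ := form_tg h hk b hb
  obtain ⟨h3, h4⟩ := form_tg h hk b' hb'
  rcases Sym2.eq_iff.1 heq with ⟨h5, -⟩ | ⟨h5, -⟩
  · rw [h5] at h1
    exact form_inj _ _ _ h1 h3
  · rw [h5] at h1
    exact form_inj _ _ _ h1 h4

end Pool.Agent.K6.H60.TW
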