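import Pool.Agent.K6.H60.TW.Stm2

/-!
# Piece TNC of call60 (helper51)
-/

namespace Pool.Agent.K6.H60.TW

open Blk

namespace TNC

lemma col_mem (t : T) : col t = 1 ∨ col t = 2 := by
  induction t with
  | nil => exact Or.inr rfl
  | node a b c d iha _ _ _ =>
    simp only [col]
    omega

lemma dd_ne (m : ℕ) : (dd m).1 ≠ .nil ∧ (dd m).2 ≠ .nil := by
  unfold dd
  split_ifs <;> simp

end TNC

open TNC in
theorem P_TNC (h : S_PORT) (h2 : S_TGE) (h3 : S_LADJ) : S_TNC := by
  intro k hk b hb hZ hparZ heq
  cases b with
  | B i j =>
    apply hparZ
    obtain ⟨h4, h5⟩ := hb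
    simp only [par, Z]
    congr 1
    omega
  | D i j =>
    simp only [par, tg, ch] at heq
    have h4 := Sym2.eq_iff.1 heq
    simp only [Prod.mk.injEq, T.node.injEq, mk] at h4
    simp at h4
  | A i j e =>
    cases e with
    | nil =>
      have hi : i ≠ 0 := by
        obtain ⟨h4, h5⟩ := hb
        simp only [T.size] at h5
        rintro rfl
        apply hZ
        simp only [Z]
        congr 1
        omega
      have hc : (cd i j).1.1 ≠ .nil := by
        unfold cd
        split_ifs with h4
        · exact (dd_ne _).1
        · have : i = 1 := by omega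
          subst this
          simp [comb]
      simp only [par, tg, ch] at heq
      have h4 := Sym2.eq_iff.1 heq
      simp only [Prod.mk.injEq, T.node.injEq] at h4
      rcases h4 with h4 | h4
      · exact hc h4.1.2.1
      · exact hc h4.1.2.1
    | node a b c d =>
      obtain ⟨h4, h5⟩ := h2 k hk _ hb hZ
      rw [heq] at h5
      cases d with
      | nil =>
        have h6 := Sym2.eq_iff.1 heq
        simp only [par, tg, ch, Prod.mk.injEq, T.node.injEq, mk] at h6
        simp at h6
      | node a' b' c' d' =>
        obtain ⟨z, hz, hz2⟩ := h5
        have hinj := (h3.2.2 (Blk.par (.A i j (.node a b c (.node a' b' c' d'))))).1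
        have h7 : s((Blk.par (.A i j (.node a b c (.node a' b' c' d')))).ch.1,
            (Blk.par (.A i j (.node a b c (.node a' b' c' d')))).ch.2) =
            Sym2.map (Blk.par (.A i j (.node a b c (.node a' b' c' d')))).emb
              s((port (1 + i + j + a.size) (b.size + c.size) (col (.node a' b' c' d'))).1,
                (port (1 + i + j + a.size) (b.size + c.size) (col (.node a' b' c' d'))).2) := by
          rw [Sym2.map_mk]
          rfl
        rw [h7] at hz2
        have h8 := Sym2.map.injective hinj hz2
        rw [h8] at hz
        have hcol := col_mem (.node a' b' c' d')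
        exact (h _ _ (col (.node a' b' c' d')) 1 h4 (by omega) (by omega) (by omega) (by omega)).1 hz

end Pool.Agent.K6.H60.TW
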