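import Pool.Agent.K6.H60.TW.Stm

/-!
# Piece TREE: merging along a tree (helper71)
-/

set_option autoImplicit false

namespace Pool.Agent.K6.H60.TW

namespace TREE

variable {V ι : Type} {R : V → V → Prop}

theorem cyc_mono {S : Set V} {E E' : Set (Sym2 V)} (h : Cyc R S E) (hE : E' ⊆ E) : Cyc R S E' := by
  obtain ⟨l, u, v, h1, h2, h3, h4, h5, h6, h7, h8⟩ := h
  exact ⟨l, u, v, h1, h2, h3, h4, h5, h6, h7, fun e he => h8 e (hE he)⟩

theorem infix_mem {l : List V} {a b : V} (h : [a, b] <:+: l) : a ∈ l ∧ b ∈ l :=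
  ⟨h.subset (by simp), h.subset (by simp)⟩

theorem edge_P {S : Set V} {E : Set (Sym2 V)} {u v : V} (h : Pth R S u v E) {e : Sym2 V}
    (he : e ∈ E) : ∀ x ∈ e, x ∈ S := by
  obtain ⟨l, h1, h2, h3, h4, h5, h6⟩ := h
  obtain ⟨a, b, hab, rfl⟩ := h6 e he
  obtain ⟨ha, hb⟩ := infix_mem hab
  intro x hx
  rw [Sym2.mem_iff] at hx
  rcases hx with rfl | rfl
  · exact (h2 _).1 ha
  · exact (h2 _).1 hb

theorem ends_P {S : Set V} {E : Set (Sym2 V)} {u v : V} (h : Pth R S u v E) : u ∈ S ∧ v ∈ S := by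
  obtain ⟨l, h1, h2, h3, h4, h5, h6⟩ := h
  exact ⟨(h2 _).1 (List.mem_of_head? h3), (h2 _).1 (List.mem_of_getLast? h4)⟩

theorem edge_C {S : Set V} {E : Set (Sym2 V)} (h : Cyc R S E) {e : Sym2 V}
    (he : e ∈ E) : ∀ x ∈ e, x ∈ S := by
  obtain ⟨l, u, v, h1, h2, h3, h4, h5, h6, h7, h8⟩ := h
  intro x hx
  rcases h8 e he with rfl | ⟨a, b, hab, rfl⟩
  · rw [Sym2.mem_iff] at hx
    rcases hx with rfl | rfl
    · exact (h2 _).1 (List.mem_of_head? h4)
    · exact (h2 _).1 (List.mem_of_getLast? h5)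
  · obtain ⟨ha, hb⟩ := infix_mem hab
    rw [Sym2.mem_iff] at hx
    rcases hx with rfl | rfl
    · exact (h2 _).1 ha
    · exact (h2 _).1 hb

/-- The edges of the merged cycle. -/
def EE (F : Set ι) (i0 : ι) (E : ι → Set (Sym2 V)) (u v u' v' : ι → V) : Set (Sym2 V) :=
  {e | (∃ i ∈ F, e ∈ E i) ∧ ∀ j ∈ F, j ≠ i0 → e ≠ s(u' j, v' j)} ∪
    {e | ∃ i ∈ F, i ≠ i0 ∧ (e = s(u i, u' i) ∨ e = s(v i, v' i))}

theorem main (h : S_MERGE) (hR : ∀ x y, R x y → R y x) (i0 : ι) (par : ι → ι) (rk : ι → ℕ)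
    (S : ι → Set V) (E : ι → Set (Sym2 V)) (u v u' v' : ι → V) (hC : Cyc R (S i0) (E i0)) :
    ∀ (n : ℕ) (F : Finset ι), F.card = n → i0 ∈ F →
    (∀ i ∈ F, ∀ j ∈ F, i ≠ j → Disjoint (S i) (S j)) →
    (∀ i ∈ F, i ≠ i0 → par i ∈ F ∧ rk (par i) < rk i ∧ Pth R (S i) (u i) (v i) (E i) ∧
      R (u i) (u' i) ∧ R (v i) (v' i) ∧ s(u' i, v' i) ∈ E (par i)) →
    (∀ i ∈ F, ∀ j ∈ F, i ≠ i0 → j ≠ i0 → s(u' i, v' i) = s(u' j, v' j) → i = j) →
    Cyc R (⋃ i ∈ F, S i) (EE (F : Set ι) i0 E u v u' v') := by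
  classical
  intro n
  induction n with
  | zero =>
    intro F hF h0
    rw [Finset.card_eq_zero] at hF
    subst hF
    exact absurd h0 (Finset.notMem_empty _)
  | succ n ih =>
    intro F hF h0 hd hP hI
    rcases (F.erase i0).eq_empty_or_nonempty with he | he
    · -- only the root
      have hF1 : F = {i0} := by
        apply Finset.eq_singleton_iff_unique_mem.2
        refine ⟨h0, fun x hx => ?_⟩
        by_contra hx0
        have : x ∈ F.erase i0 := Finset.mem_erase.2 ⟨hx0, hx⟩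
        rw [he] at this
        exact Finset.notMem_empty _ this
      subst hF1
      have hS : (⋃ i ∈ ({i0} : Finset ι), S i) = S i0 := by simp
      rw [hS]
      refine cyc_mono hC ?_
      rintro e (⟨⟨i, hi, hei⟩, -⟩ | ⟨i, hi, hi0, -⟩)
      · rw [Finset.coe_singleton, Set.mem_singleton_iff] at hi
        rwa [hi] at hei
      · rw [Finset.coe_singleton, Set.mem_singleton_iff] at hi
        exact absurd hi hi0
    · obtain ⟨i, hi, hmax⟩ := Finset.exists_max_image (F.erase i0) rk he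
      rw [Finset.mem_erase] at hi
      obtain ⟨hi0, hiF⟩ := hi
      obtain ⟨p1, p2, p3, p4, p5, p6⟩ := hP i hiF hi0
      have hpi : par i ≠ i := fun h1 => by
        rw [h1] at p2
        exact lt_irrefl _ p2
      have hsub : ∀ j ∈ F.erase i, j ∈ F := fun j hj => (Finset.mem_erase.1 hj).2
      have hIH : Cyc R (⋃ j ∈ F.erase i, S j) (EE ((F.erase i : Finset ι) : Set ι) i0 E u v u' v') := by
        refine ih (F.erase i) ?_ ?_ ?_ ?_ ?_
        · rw [Finset.card_erase_of_mem hiF, hF]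
          rfl
        · exact Finset.mem_erase.2 ⟨fun h1 => hi0 h1.symm, h0⟩
        · exact fun a ha b hb hab => hd a (hsub a ha) b (hsub b hb) hab
        · intro j hj hj0
          obtain ⟨q1, q2, q3⟩ := hP j (hsub j hj) hj0
          refine ⟨Finset.mem_erase.2 ⟨fun h1 => ?_, q1⟩, q2, q3⟩
          have h2 := hmax j (Finset.mem_erase.2 ⟨hj0, hsub j hj⟩)
          rw [h1] at q2
          exact absurd q2 (not_lt.2 h2)
        · exact fun a ha b hb ha0 hb0 => hI a (hsub a ha) b (hsub b hb) ha0 hb0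
      have hdis : Disjoint (S i) (⋃ j ∈ F.erase i, S j) := by
        rw [Set.disjoint_iUnion₂_right]
        intro j hj
        exact hd i hiF j (hsub j hj) (Finset.mem_erase.1 hj).1.symm
      have ht : s(u' i, v' i) ∈ EE ((F.erase i : Finset ι) : Set ι) i0 E u v u' v' := by
        refine Or.inl ⟨⟨par i, ?_, p6⟩, fun j hj hj0 h1 => ?_⟩
        · exact Finset.mem_coe.2 (Finset.mem_erase.2 ⟨hpi, p1⟩)
        · have hj' := Finset.mem_coe.1 hj
          exact (Finset.mem_erase.1 hj').1 (hI i hiF j (hsub j hj') hi0 hj0 h1).symm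
      have hM := h V R hR (S i) (⋃ j ∈ F.erase i, S j) (E i)
        (EE ((F.erase i : Finset ι) : Set ι) i0 E u v u' v') (u i) (v i) (u' i) (v' i) p3 hIH hdis ht
        p4 p5
      have hS : (⋃ j ∈ F, S j) = S i ∪ ⋃ j ∈ F.erase i, S j := by
        ext x
        simp only [Set.mem_iUnion, Set.mem_union, Finset.mem_erase]
        constructor
        · rintro ⟨j, hj, hx⟩
          by_cases h1 : j = i
          · exact Or.inl (h1 ▸ hx)
          · exact Or.inr ⟨j, ⟨h1, hj⟩, hx⟩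
        · rintro (hx | ⟨j, ⟨-, hj⟩, hx⟩)
          · exact ⟨i, hiF, hx⟩
          · exact ⟨j, hj, hx⟩
      rw [hS]
      refine cyc_mono hM ?_
      -- the ends of the edges
      have hends : ∀ m ∈ F, m ≠ i0 → ∀ x ∈ s(u' m, v' m), x ∈ S (par m) := by
        intro m hm hm0
        obtain ⟨q1, q2, q3, q4, q5, q6⟩ := hP m hm hm0
        by_cases h1 : par m = i0
        · rw [h1] at q6 ⊢
          exact edge_C hC q6
        · exact edge_P (hP _ q1 h1).2.2.1 q6
      have key : ∀ m ∈ F, m ≠ i0 → ∀ x ∈ S m, ∀ y ∈ S (par m), s(x, y) ≠ s(u' i, v' i) := by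
        intro m hm hm0 x hx y hy h1
        obtain ⟨q1, q2, -⟩ := hP m hm hm0
        have hx' : x ∈ S (par i) := hends i hiF hi0 x (by rw [← h1]; exact Sym2.mem_mk_left x y)
        have hy' : y ∈ S (par i) := hends i hiF hi0 y (by rw [← h1]; exact Sym2.mem_mk_right x y)
        have e1 : m = par i := by
          by_contra h2
          exact Set.disjoint_left.1 (hd m hm _ p1 h2) hx hx'
        have e2 : par m = par i := by
          by_contra h2
          exact Set.disjoint_left.1 (hd _ q1 _ p1 h2) hy hy'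
        rw [e2, ← e1] at q2
        exact lt_irrefl _ q2
      rintro e (⟨⟨m, hm, hem⟩, hne⟩ | ⟨m, hm, hm0, hem⟩)
      · by_cases h1 : m = i
        · subst h1
          exact Or.inl (Or.inl hem)
        · refine Or.inl (Or.inr ⟨Or.inl ⟨⟨m, ?_, hem⟩, fun j hj => ?_⟩, ?_⟩)
          · exact Finset.mem_coe.2 (Finset.mem_erase.2 ⟨h1, Finset.mem_coe.1 hm⟩)
          · exact hne j (Finset.mem_coe.2 (hsub j (Finset.mem_coe.1 hj)))
          · exact hne i (Finset.mem_coe.2 hiF) hi0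
      · by_cases h1 : m = i
        · subst h1
          exact Or.inr hem
        · have hmF := Finset.mem_coe.1 hm
          refine Or.inl (Or.inr ⟨Or.inr ⟨m, ?_, hm0, hem⟩, ?_⟩)
          · exact Finset.mem_coe.2 (Finset.mem_erase.2 ⟨h1, hmF⟩)
          · rw [Set.mem_singleton_iff]
            obtain ⟨q1, q2, q3, q4, q5, q6⟩ := hP m hmF hm0
            have h3 := ends_P q3
            rcases hem with rfl | rfl
            · exact key m hmF hm0 _ h3.1 _ (hends m hmF hm0 _ (Sym2.mem_mk_left _ _))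
            · exact key m hmF hm0 _ h3.2 _ (hends m hmF hm0 _ (Sym2.mem_mk_right _ _))

end TREE

theorem P_TREE (h : S_MERGE) : S_TREE := by
  intro V ι R hR F hF i0 par rk S E u v u' v' h0 hd hC hP hI
  obtain ⟨F, rfl⟩ := hF.exists_finset_coe
  exact TREE.main h hR i0 par rk S E u v u' v' hC F.card F rfl h0 hd hP hI

end Pool.Agent.K6.H60.TW
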