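import Pool.Agent.K6.H60.TW.Stm2

/-!
# Piece TRK: the tracked edges are prescribed and are no target edges
-/

namespace Pool.Agent.K6.H60.TW

namespace TRK

open Blk

theorem col_mem (t : T) : col t = 1 ∨ col t = 2 := by
  induction t with
  | nil => right; rfl
  | node a b c d iha _ _ _ =>
    rw [col]
    omega

theorem al_range (b : Blk) (s : ℕ) (h : b.al s) : 1 ≤ s ∧ s ≤ 3 := by
  cases b with
  | A i j e =>
    have h1 : s = 3 - col e ∨ s = 3 := h
    have h2 := col_mem e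
    omega
  | B i j =>
    have h1 : s = 1 ∨ s = 3 := h
    omega
  | D i j =>
    have h1 : s = 3 := h
    omega

theorem pe_eq (b : Blk) (s : ℕ) :
    b.pe s = Sym2.map b.emb s((port b.fi b.se s).1, (port b.fi b.se s).2) := rfl

theorem ok_pos (k : ℕ) (b : Blk) (h : b.Ok k) : 1 ≤ b.fi + b.se := by
  cases b with
  | A i j e => exact h.1
  | B i j => exact h.1
  | D i j => exact h.1

theorem port_one (i j s : ℕ) (h : i + j = 1) : port i j s = port i j 1 := by
  have h1 : ¬ 2 ≤ i := by omega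
  have h2 : ¬ 2 ≤ j := by omega
  have h3 : ¬ (i = 1 ∧ j = 1) := by omega
  unfold port
  simp only [if_neg h1, if_neg h2, if_neg h3]

/-- port edges are not edges of the factor, in the block -/
theorem pe_not_KE (hp : S_PORT) (hl : S_LADJ) (b : Blk) (s : ℕ) (h2 : 2 ≤ b.fi + b.se)
    (hs : 1 ≤ s ∧ s ≤ 3) : b.pe s ∉ Sym2.map b.emb '' KE b.fi b.se := by
  rintro ⟨x, hx, hxe⟩
  rw [pe_eq] at hxe
  have h3 := Sym2.map.injective (hl.2.2 b).1 hxe
  rw [h3] at hx
  exact (hp b.fi b.se s s h2 hs.1 hs.2 hs.1 hs.2).1 hx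

/-- the ends of the edges in `KE` -/
theorem KE_ends (h : S_SIZ) (i j : ℕ) (x : Sym2 (P × P)) (hx : x ∈ KE i j) :
    ∀ y ∈ x, y ∈ VV i ×ˢ VV j := by
  rcases hx with ⟨_, p, q, w, hpq, hw, rfl⟩ | ⟨_, _, p, q, w, hpq, hw, rfl⟩
  · have h1 := h.2.2.2.2.1 i p q hpq
    intro y hy
    rcases Sym2.mem_iff.1 hy with rfl | rfl
    · exact ⟨h1.1, hw⟩
    · exact ⟨h1.2, hw⟩
  · have h1 := h.2.2.2.2.1 j p q hpq
    intro y hy
    rcases Sym2.mem_iff.1 hy with rfl | rfl
    · exact ⟨hw, h1.1⟩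
    · exact ⟨hw, h1.2⟩

end TRK

open Blk TRK in
theorem P_TRK (h : S_SIZ) (hp : S_PORT) (hc : S_CHE) (ht : S_TGE) (hd : S_DISJ) (hl : S_LADJ)
    (hq : S_PAR) : S_TRK := by
  intro k hk b s hb hal
  have hs := al_range b s hal
  constructor
  · unfold EE
    by_cases h1 : b.fi + b.se = 1
    · rw [if_pos h1, Set.mem_singleton_iff, pe_eq, pe_eq, port_one _ _ s h1]
    rw [if_neg h1]
    have h2 : 2 ≤ b.fi + b.se := by
      have := ok_pos k b hb
      omega
    have hFE : b.pe s ∈ b.FE :=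
      ⟨s((port b.fi b.se s).1, (port b.fi b.se s).2), Or.inr ⟨s, hs.1, hs.2, rfl⟩, rfl⟩
    by_cases hZ : b = Z k
    · rw [if_pos hZ]
      exact hFE
    · rw [if_neg hZ]
      refine ⟨hFE, ?_⟩
      rw [Set.mem_singleton_iff]
      intro heq
      rcases hc k hk b hb hZ with ⟨h3, _⟩ | ⟨_, h3 | ⟨s', hs1, hs3, hna, h3⟩⟩
      · exact h1 h3
      · rw [← heq] at h3
        exact pe_not_KE hp hl b s h2 hs h3
      · rw [h3, pe_eq, pe_eq] at heq
        have h4 := Sym2.map.injective (hl.2.2 b).1 heq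
        have h5 := (hp b.fi b.se s s' h2 hs.1 hs.2 hs1 hs3).2 h4
        rw [h5] at hal
        exact hna hal
  · intro b' hb' hZ' heq
    obtain ⟨h2, h3⟩ := ht k hk b' hb' hZ'
    rw [← heq] at h3
    by_cases hpb : b'.par = b
    · rw [hpb] at h3 h2
      exact pe_not_KE hp hl b s h2 hs h3
    · have hok := ((hq k hk).2 b' hb' hZ').1
      have hdis := hd k b b'.par hb hok (Ne.symm hpb)
      obtain ⟨x, hx, hxe⟩ := h3
      have h4 : b.emb (port b.fi b.se s).1 ∈ b.pe s := by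
        unfold Blk.pe
        exact Sym2.mem_mk_left _ _
      have h5 : b.emb (port b.fi b.se s).1 ∈ b.SS := by
        have h6 := h.2.2.1 b.fi b.se s (ok_pos k b hb)
        exact ⟨_, ⟨h6.1, h6.2.1⟩, rfl⟩
      rw [← hxe] at h4
      obtain ⟨y, hy, hye⟩ := Sym2.mem_map.1 h4
      have h7 : b.emb (port b.fi b.se s).1 ∈ b'.par.SS :=
        ⟨y, KE_ends h _ _ x hx y hy, hye⟩
      exact Set.disjoint_left.1 hdis h5 h7

end Pool.Agent.K6.H60.TW
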