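import Pool.Agent.K6.H60.TW.Stm2

/-!
# MP_7ee132_co: assembly (helper60)
-/

namespace Pool.Agent.K6.H60.TW

open Blk

theorem Cyc.mono {V : Type} {R : V → V → Prop} {S : Set V} {E E' : Set (Sym2 V)}
    (h : Cyc R S E) (hE : E' ⊆ E) : Cyc R S E' := by
  obtain ⟨l, u, v, h1, h2, h3, h4, h5, h6, h7, h8⟩ := h
  exact ⟨l, u, v, h1, h2, h3, h4, h5, h6, h7, fun e he => h8 e (hE he)⟩

theorem P_STEP (hT : S_TREE) (hF : S_FIN) (hD : S_DISJ) (hC : S_COV) (hL : S_LADJ) (hP : S_PAR)
    (hTG : S_TGE) (hTN : S_TNC) (hTI : S_TIN) (hTR : S_TRK) (hR : S_RUN) (hB : S_BLK) :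
    S_STEP := by
  intro k hk hM
  have hcyc := hT P Blk Adj hL.1 {b | b.Ok k} (hF k) (Z k) Blk.par Blk.rk Blk.SS (EE k)
    (fun b => b.ch.1) (fun b => b.ch.2) (fun b => b.tg.1) (fun b => b.tg.2) (hP k hk).1
    (fun b hb b' hb' hne => hD k b b' hb hb' hne) (hB k hk hM).1
    (by
      intro b hb hne
      refine ⟨((hP k hk).2 b hb hne).1, ((hP k hk).2 b hb hne).2, (hB k hk hM).2 b hb hne,
        (hL.2.1 b).1, (hL.2.1 b).2, ?_⟩
      obtain ⟨h2, hke⟩ := hTG k hk b hb hne
      have hfe : s(b.tg.1, b.tg.2) ∈ b.par.FE := by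
        obtain ⟨x, hx, hxe⟩ := hke
        exact ⟨x, Or.inl hx, hxe⟩
      unfold EE
      rw [if_neg (by omega)]
      by_cases hz : b.par = Z k
      · rw [if_pos hz]; exact hfe
      · rw [if_neg hz]
        exact ⟨hfe, fun hh => hTN k hk b hb hne hz hh⟩)
    (fun b hb b' hb' hne hne' h => hTI k hk b b' hb hb' hne hne' h)
  rw [hC k (by omega)] at hcyc
  refine hcyc.mono ?_
  rintro x (⟨b, s, hb, hs, rfl⟩ | ⟨s, h1, h5, rfl⟩)
  · exact Or.inl ⟨⟨b, hb, (hTR k hk b s hb hs).1⟩,
      fun b' hb' hne => (hTR k hk b s hb hs).2 b' hb' hne⟩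
  · obtain ⟨b, hb, hne, h⟩ := hR k s hk h1 h5
    exact Or.inr ⟨b, hb, hne, h⟩

theorem main_all (h2 : S_BAS2) (h3 : S_BAS3) (hs : S_STEP) : ∀ k, 2 ≤ k → Main k := by
  intro k
  induction k using Nat.strong_induction_on with
  | _ k ih =>
    intro hk
    by_cases h4 : 4 ≤ k
    · exact hs k h4 (fun i hi hik => ih i hik hi)
    · have : k = 2 ∨ k = 3 := by omega
      rcases this with rfl | rfl
      · exact h2
      · exact h3

theorem adj_ne {p p' : P} (h : Adj p p') : p ≠ p' := by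
  induction h with
  | down a b c d e =>
    intro h
    have h1 := congrArg (fun x : P => x.1.size) h
    simp only [T.size] at h1
    omega
  | up a b c d e =>
    intro h
    have h1 := congrArg (fun x : P => x.1.size) h
    simp only [T.size] at h1
    omega
  | l1 c d y _ ih =>
    intro h
    apply ih
    simp only [Prod.mk.injEq, T.node.injEq, and_true] at h ⊢
    exact h
  | l2 a b y _ ih =>
    intro h
    apply ih
    simp only [Prod.mk.injEq, T.node.injEq, and_true, true_and] at h ⊢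
    exact h
  | r1 x d e _ ih =>
    intro h
    apply ih
    simp only [Prod.mk.injEq, T.node.injEq, and_true, true_and] at h ⊢
    exact h
  | r2 x b c _ ih =>
    intro h
    apply ih
    simp only [Prod.mk.injEq, T.node.injEq, true_and] at h ⊢
    exact h

theorem comb_size (n : ℕ) : (comb n).size = n := by
  induction n with
  | zero => rfl
  | succ n ih => simp only [comb, T.size, ih]; omega

instance (N : ℕ) : DecidableEq (ColTri N) := inferInstanceAs (DecidableEq (Subtype _))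

/-- The final theorem from the pieces. -/
theorem final (hm : ∀ k, 2 ≤ k → Main k) (hS : S_GSUR) (hV : S_GVAL) (hI : S_GINJ) (hTw : S_GTW)
    (hM : S_MAPC) (hH : S_HAM) (N : ℕ) (h9 : 9 ≤ N) (h3 : 3 ∣ N) :
    ∃ (X : ColTri N) (p : (twistGraph N).Walk X X), p.IsHamiltonianCycle := by
  obtain ⟨m, rfl⟩ := h3
  obtain ⟨k, rfl⟩ : ∃ k, m = k + 1 := ⟨m - 1, by omega⟩
  have hk : 2 ≤ k := by omega
  have hN : ∀ p : P, psize p = k → 1 + 2 + 3 * psize p = 3 * (k + 1) := by
    intro p hp; rw [hp]; ring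
  have hok : ∀ p : P, psize p = k → IsTriang 1 (3 * (k + 1)) (full 1 p) ∧ Colourful (full 1 p) := by
    intro p hp
    have := hV 1 p
    rw [hN p hp] at this
    exact this
  have hp0 : psize (comb k, T.nil) = k := by
    simp [psize, comb_size, T.size]
  let f : P → ColTri (3 * (k + 1)) := fun p =>
    if h : psize p = k then ⟨full 1 p, hok p h⟩ else ⟨full 1 (comb k, T.nil), hok _ hp0⟩
  have hf : ∀ p, psize p = k → (f p).1 = full 1 p := by
    intro p hp
    simp only [f, dif_pos hp]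
  have hinj : Set.InjOn f (VV k) := by
    intro p hp p' hp' h
    have h1 : (f p).1 = (f p').1 := by rw [h]
    rw [hf p hp, hf p' hp'] at h1
    exact hI 1 p p' (by rw [show psize p = k from hp, show psize p' = k from hp']) h1
  have hadj : ∀ x ∈ VV k, ∀ y ∈ VV k, Adj x y → (twistGraph (3 * (k + 1))).Adj (f x) (f y) := by
    intro x hx y hy h
    unfold twistGraph
    rw [SimpleGraph.fromRel_adj]
    refine ⟨fun he => adj_ne h (hinj hx hy he), Or.inl ?_⟩
    rw [hf x hx, hf y hy]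
    exact hTw 1 x y h
  have hc := (hM P (ColTri (3 * (k + 1))) Adj (twistGraph (3 * (k + 1))).Adj f (VV k) _ hinj
    hadj).1 (hm k hk)
  have huniv : f '' VV k = Set.univ := by
    apply Set.eq_univ_of_forall
    intro X
    obtain ⟨p, hp, hX⟩ := (hS 1 (3 * (k + 1)) X.1 (by omega) X.2.1 X.2.2).1 (by omega)
    have hpk : psize p = k := by omega
    refine ⟨p, hpk, Subtype.ext ?_⟩
    rw [hf p hpk, hX]
  rw [huniv] at hc
  exact hH _ _ (hc.mono (Set.empty_subset _))

end Pool.Agent.K6.H60.TW
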