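import Mathlib

/-!
# MP_7ee132_co: Hamilton cycles in the twist graphs of three-coloured triangulations
Definitions and statements of the pieces (helper60).
-/

namespace Pool.Agent.K6.H60.TW

/-! ## Triangulations and twists -/

/-- A triangle `(a, b, c)` (with `a < b < c` in all uses) on the vertices of the polygon. -/
abbrev Tri := ℕ × ℕ × ℕ

/-- The chords `{a, b}` and `{c, d}` (`a < b`, `c < d`) cross. -/
def Cross (a b c d : ℕ) : Prop := (a < c ∧ c < b ∧ b < d) ∨ (c < a ∧ a < d ∧ d < b)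

/-- The three sides of a triangle. -/
def sides (t : Tri) : Finset (ℕ × ℕ) := {(t.1, t.2.1), (t.2.1, t.2.2), (t.1, t.2.2)}

/-- A set of triangles with vertices among `l, …, r` no two of which have crossing sides. -/
def NonCr (l r : ℕ) (X : Finset Tri) : Prop :=
  (∀ t ∈ X, l ≤ t.1 ∧ t.1 < t.2.1 ∧ t.2.1 < t.2.2 ∧ t.2.2 ≤ r) ∧
  ∀ t ∈ X, ∀ t' ∈ X, ∀ s ∈ sides t, ∀ s' ∈ sides t', ¬ Cross s.1 s.2 s'.1 s'.2

/-- A triangulation of the convex polygon with vertices `l, …, r`: `r - l - 1` triangles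
no two of which have crossing sides. -/
def IsTriang (l r : ℕ) (X : Finset Tri) : Prop := NonCr l r X ∧ X.card = r - l - 1

/-- every triangle has one vertex of each of the three colours (residues mod 3). -/
def Colourful (X : Finset Tri) : Prop :=
  ∀ t ∈ X, t.1 % 3 ≠ t.2.1 % 3 ∧ t.2.1 % 3 ≠ t.2.2 % 3 ∧ t.1 % 3 ≠ t.2.2 % 3

/-- the triangles of the hexagon `a b c d e f` with centre `ace`. -/
def star1 (a b c d e f : ℕ) : Finset Tri := {(a, c, e), (a, b, c), (c, d, e), (a, e, f)}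

/-- the triangles of the hexagon `a b c d e f` with centre `bdf`. -/
def star2 (a b c d e f : ℕ) : Finset Tri := {(b, d, f), (b, c, d), (d, e, f), (a, b, f)}

/-- `X'` arises from `X` by a twist. -/
def Twist (X X' : Finset Tri) : Prop :=
  ∃ a b c d e f : ℕ, a < b ∧ b < c ∧ c < d ∧ d < e ∧ e < f ∧
    ((star1 a b c d e f ⊆ X ∧ X' = (X \ star1 a b c d e f) ∪ star2 a b c d e f) ∨
     (star2 a b c d e f ⊆ X ∧ X' = (X \ star2 a b c d e f) ∪ star1 a b c d e f))

/-- colourful triangulations of the polygon with vertices `1, …, N`. -/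
def ColTri (N : ℕ) : Type := {X : Finset Tri // IsTriang 1 N X ∧ Colourful X}

/-- the twist graph. -/
def twistGraph (N : ℕ) : SimpleGraph (ColTri N) :=
  SimpleGraph.fromRel (fun X Y => Twist X.1 Y.1)

/-! ## Quaternary trees and pairs -/

inductive T : Type
  | nil : T
  | node : T → T → T → T → T
deriving DecidableEq

def T.size : T → ℕ
  | .nil => 0
  | .node a b c d => 1 + a.size + b.size + c.size + d.size

abbrev P := T × T

def psize (p : P) : ℕ := p.1.size + p.2.size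

def L : T := .node .nil .nil .nil .nil

def comb : ℕ → T
  | 0 => .nil
  | n + 1 => .node (comb n) .nil .nil .nil

def mk (w : P × P) : T := .node w.1.1 w.1.2 w.2.1 w.2.2

inductive Adj : P → P → Prop
  | down (a b c d e : T) : Adj (.node a b c d, e) (a, .node b c d e)
  | up (a b c d e : T) : Adj (a, .node b c d e) (.node a b c d, e)
  | l1 {a b a' b' : T} (c d y : T) : Adj (a, b) (a', b') →
      Adj (.node a b c d, y) (.node a' b' c d, y)
  | l2 {c d c' d' : T} (a b y : T) : Adj (c, d) (c', d') →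
      Adj (.node a b c d, y) (.node a b c' d', y)
  | r1 {b c b' c' : T} (x d e : T) : Adj (b, c) (b', c') →
      Adj (x, .node b c d e) (x, .node b' c' d e)
  | r2 {d e d' e' : T} (x b c : T) : Adj (d, e) (d', e') →
      Adj (x, .node b c d e) (x, .node b c d' e')

/-- triangles over the side `(l, l + 1 + 3 |t|)`. -/
def side : ℕ → T → Finset Tri
  | _, .nil => ∅
  | l, .node a b c d =>
    {(l, l + 2 + 3 * a.size + 3 * b.size, l + 4 + 3 * a.size + 3 * b.size + 3 * c.size + 3 * d.size),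
     (l, l + 1 + 3 * a.size, l + 2 + 3 * a.size + 3 * b.size),
     (l + 2 + 3 * a.size + 3 * b.size, l + 3 + 3 * a.size + 3 * b.size + 3 * c.size,
       l + 4 + 3 * a.size + 3 * b.size + 3 * c.size + 3 * d.size)} ∪
    (side l a ∪ side (l + 1 + 3 * a.size) b) ∪
    (side (l + 2 + 3 * a.size + 3 * b.size) c ∪
      side (l + 3 + 3 * a.size + 3 * b.size + 3 * c.size) d)

/-- the triangulation of the polygon `l, …, l + 2 + 3 (|x| + |y|)` of a pair of trees. -/
def full (l : ℕ) (p : P) : Finset Tri :=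
  {(l, l + 1 + 3 * p.1.size, l + 2 + 3 * p.1.size + 3 * p.2.size)} ∪
    (side l p.1 ∪ side (l + 1 + 3 * p.1.size) p.2)

/-! ### geometric pieces -/

/-- GCNT -/
def S_GCNT : Prop := ∀ (l r : ℕ) (X : Finset Tri), l < r → NonCr l r X →
  X.card ≤ r - l - 1 ∧ (X.card = r - l - 1 → l + 2 ≤ r → ∃ m, (l, m, r) ∈ X)

/-- GSPL -/
def S_GSPL : Prop := ∀ (l m r : ℕ) (X : Finset Tri), IsTriang l r X → (l, m, r) ∈ X →
  ∃ Y Z : Finset Tri, IsTriang l m Y ∧ IsTriang m r Z ∧ X = {(l, m, r)} ∪ (Y ∪ Z)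

/-- GSUR -/
def S_GSUR : Prop := ∀ (l r : ℕ) (X : Finset Tri), l < r → IsTriang l r X → Colourful X →
  ((r - l) % 3 = 2 → ∃ p : P, r = l + 2 + 3 * psize p ∧ X = full l p) ∧
  ((r - l) % 3 = 1 → ∃ t : T, r = l + 1 + 3 * t.size ∧ X = side l t)

/-- GVAL -/
def S_GVAL : Prop := ∀ (l : ℕ) (p : P), IsTriang l (l + 2 + 3 * psize p) (full l p) ∧
  Colourful (full l p)

/-- GINJ -/
def S_GINJ : Prop := ∀ (l : ℕ) (p p' : P), psize p = psize p' → full l p = full l p' → p = p'

/-- GTW -/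
def S_GTW : Prop := ∀ (l : ℕ) (p p' : P), Adj p p' → Twist (full l p) (full l p')

/-! ## Cycles and paths with prescribed edges -/

/-- a path from `u` to `v` with vertex set `S` through all edges of `E`. -/
def Pth {V : Type} (R : V → V → Prop) (S : Set V) (u v : V) (E : Set (Sym2 V)) : Prop :=
  ∃ l : List V, l.Nodup ∧ (∀ x, x ∈ l ↔ x ∈ S) ∧ l.head? = some u ∧ l.getLast? = some v ∧
    l.IsChain R ∧ ∀ e ∈ E, ∃ a b, [a, b] <:+: l ∧ e = s(a, b)

/-- a cycle with vertex set `S` through all edges of `E`. -/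
def Cyc {V : Type} (R : V → V → Prop) (S : Set V) (E : Set (Sym2 V)) : Prop :=
  ∃ (l : List V) (u v : V), l.Nodup ∧ (∀ x, x ∈ l ↔ x ∈ S) ∧ 3 ≤ l.length ∧
    l.head? = some u ∧ l.getLast? = some v ∧ l.IsChain R ∧ R v u ∧
    ∀ e ∈ E, e = s(u, v) ∨ ∃ a b, [a, b] <:+: l ∧ e = s(a, b)

/-- OPEN -/
def S_OPEN : Prop := ∀ (V : Type) (R : V → V → Prop), (∀ x y, R x y → R y x) →
  ∀ (S : Set V) (E : Set (Sym2 V)) (u v : V), Cyc R S E → s(u, v) ∈ E →
    Pth R S u v (E \ {s(u, v)})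

/-- MERGE -/
def S_MERGE : Prop := ∀ (V : Type) (R : V → V → Prop), (∀ x y, R x y → R y x) →
  ∀ (S₁ S₂ : Set V) (E₁ E₂ : Set (Sym2 V)) (u v u' v' : V), Pth R S₁ u v E₁ → Cyc R S₂ E₂ →
    Disjoint S₁ S₂ → s(u', v') ∈ E₂ → R u u' → R v v' →
    Cyc R (S₁ ∪ S₂) (E₁ ∪ (E₂ \ {s(u', v')}) ∪ {s(u, u'), s(v, v')})

/-- TREE -/
def S_TREE : Prop := ∀ (V ι : Type) (R : V → V → Prop), (∀ x y, R x y → R y x) →
  ∀ (F : Set ι), F.Finite → ∀ (i0 : ι) (par : ι → ι) (rk : ι → ℕ) (S : ι → Set V)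
    (E : ι → Set (Sym2 V)) (u v u' v' : ι → V), i0 ∈ F →
    (∀ i ∈ F, ∀ j ∈ F, i ≠ j → Disjoint (S i) (S j)) → Cyc R (S i0) (E i0) →
    (∀ i ∈ F, i ≠ i0 → par i ∈ F ∧ rk (par i) < rk i ∧ Pth R (S i) (u i) (v i) (E i) ∧
      R (u i) (u' i) ∧ R (v i) (v' i) ∧ s(u' i, v' i) ∈ E (par i)) →
    (∀ i ∈ F, ∀ j ∈ F, i ≠ i0 → j ≠ i0 → s(u' i, v' i) = s(u' j, v' j) → i = j) →
    Cyc R (⋃ i ∈ F, S i)
      ({e | (∃ i ∈ F, e ∈ E i) ∧ ∀ j ∈ F, j ≠ i0 → e ≠ s(u' j, v' j)} ∪
       {e | ∃ i ∈ F, i ≠ i0 ∧ (e = s(u i, u' i) ∨ e = s(v i, v' i))})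

/-- the box product of two relations. -/
def Box {A B : Type} (R₁ : A → A → Prop) (R₂ : B → B → Prop) : A × B → A × B → Prop :=
  fun x y => (R₁ x.1 y.1 ∧ x.2 = y.2) ∨ (x.1 = y.1 ∧ R₂ x.2 y.2)

/-- PROD -/
def S_PROD : Prop := ∀ (A B : Type) (R₁ : A → A → Prop) (R₂ : B → B → Prop),
  (∀ x y, R₁ x y → R₁ y x) → (∀ x y, R₂ x y → R₂ y x) →
  ∀ (S₁ : Set A) (S₂ : Set B) (K : Set (Sym2 A)) (a b c d : A) (x y : B),
    Cyc R₁ S₁ (K ∪ {s(a, b), s(c, d)}) → s(a, b) ∉ K → s(c, d) ∉ K → s(a, b) ≠ s(c, d) →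
    Pth R₂ S₂ x y ∅ →
    Cyc (Box R₁ R₂) (S₁ ×ˢ S₂) {e | ∃ p q w, s(p, q) ∈ K ∧ w ∈ S₂ ∧ e = s((p, w), (q, w))}

/-- MAPC -/
def S_MAPC : Prop := ∀ (V W : Type) (R : V → V → Prop) (R' : W → W → Prop) (f : V → W)
  (S : Set V) (E : Set (Sym2 V)), Set.InjOn f S → (∀ x ∈ S, ∀ y ∈ S, R x y → R' (f x) (f y)) →
  (Cyc R S E → Cyc R' (f '' S) (Sym2.map f '' E)) ∧
  (∀ u v, Pth R S u v E → Pth R' (f '' S) (f u) (f v) (Sym2.map f '' E))

/-- HAM -/
def S_HAM : Prop := ∀ (V : Type) [DecidableEq V] (G : SimpleGraph V),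
  Cyc G.Adj Set.univ ∅ → ∃ (x : V) (p : G.Walk x x), p.IsHamiltonianCycle

/-! ## The free edges, ports and tracked edges -/

def A1 : P := (.node L .nil .nil .nil, .nil)
def A2 : P := (.node .nil L .nil .nil, .nil)
def A3 : P := (.node .nil .nil L .nil, .nil)
def A4 : P := (.node .nil .nil .nil L, .nil)
def B1 : P := (.nil, .node L .nil .nil .nil)
def B2 : P := (.nil, .node .nil L .nil .nil)
def B3 : P := (.nil, .node .nil .nil L .nil)
def B4 : P := (.nil, .node .nil .nil .nil L)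
def M2 : P := (L, L)

/-- the two ends of a root twist edge. -/
def dn (x b c d e : T) : P × P := ((x, .node b c d e), (.node x b c d, e))

def t31 : P × P := (((.node (.node L .nil .nil .nil) .nil .nil .nil), .nil), ((.node (.node .nil L .nil .nil) .nil .nil .nil), .nil))
def t32 : P × P := (((.node (.node L .nil .nil .nil) .nil .nil .nil), .nil), ((.node L .nil .nil .nil), L))
def t33 : P × P := (((.node (.node .nil .nil L .nil) .nil .nil .nil), .nil), ((.node (.node .nil .nil .nil L) .nil .nil .nil), .nil))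
def t34 : P × P := (((.node (.node .nil .nil L .nil) .nil .nil .nil), .nil), ((.node .nil (.node .nil L .nil .nil) .nil .nil), .nil))
def t35 : P × P := (((.node L L .nil .nil), .nil), ((.node .nil (.node .nil .nil .nil L) .nil .nil), .nil))
def p11a : (P × P) × (P × P) := (((.nil, L), (L, .nil)), ((L, .nil), (L, .nil)))
def p11b : (P × P) × (P × P) := (((L, .nil), (L, .nil)), ((L, .nil), (.nil, L)))
def p11c : (P × P) × (P × P) := (((.nil, L), (L, .nil)), ((.nil, L), (.nil, L)))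

/-- the Hamilton cycle of level 3. -/
def cyc3 : List P := [
(.nil, (.node .nil .nil .nil (.node .nil .nil .nil L))),
  (.nil, (.node .nil .nil .nil (.node .nil .nil L .nil))),
  (.nil, (.node .nil .nil (.node .nil .nil .nil L) .nil)),
  ((.node .nil .nil .nil (.node .nil .nil .nil L)), .nil),
  ((.node .nil .nil L L), .nil),
  ((.node .nil .nil (.node L .nil .nil .nil) .nil), .nil),
  (.nil, (.node .nil (.node L .nil .nil .nil) .nil .nil)),
  (.nil, (.node (.node .nil L .nil .nil) .nil .nil .nil)),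
  ((.node .nil (.node .nil L .nil .nil) .nil .nil), .nil),
  ((.node (.node .nil .nil L .nil) .nil .nil .nil), .nil),
  ((.node (.node .nil .nil .nil L) .nil .nil .nil), .nil),
  ((.node .nil (.node .nil .nil L .nil) .nil .nil), .nil),
  (.nil, (.node (.node .nil .nil L .nil) .nil .nil .nil)),
  (.nil, (.node .nil (.node .nil L .nil .nil) .nil .nil)),
  ((.node .nil .nil (.node .nil L .nil .nil) .nil), .nil),
  ((.node .nil .nil .nil (.node L .nil .nil .nil)), .nil),
  (.nil, (.node .nil .nil (.node L .nil .nil .nil) .nil)),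
  (.nil, (.node .nil .nil L L)),
  ((.node .nil .nil .nil L), L),
  ((.node .nil .nil L .nil), L),
  (.nil, (.node .nil L .nil L)),
  (.nil, (.node .nil L L .nil)),
  (.nil, (.node L .nil L .nil)),
  (.nil, (.node L .nil .nil L)),
  ((.node .nil L .nil .nil), L),
  ((.node L .nil .nil .nil), L),
  ((.node (.node L .nil .nil .nil) .nil .nil .nil), .nil),
  ((.node (.node .nil L .nil .nil) .nil .nil .nil), .nil),
  ((.node .nil (.node L .nil .nil .nil) .nil .nil), .nil),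
  (.nil, (.node (.node L .nil .nil .nil) .nil .nil .nil)),
  (.nil, (.node L L .nil .nil)),
  (.nil, (.node .nil (.node .nil .nil .nil L) .nil .nil)),
  ((.node .nil .nil (.node .nil .nil .nil L) .nil), .nil),
  ((.node .nil .nil .nil (.node .nil .nil L .nil)), .nil),
  (.nil, (.node .nil .nil (.node .nil .nil L .nil) .nil)),
  (.nil, (.node .nil .nil .nil (.node .nil L .nil .nil))),
  (.nil, (.node .nil .nil .nil (.node L .nil .nil .nil))),
  (.nil, (.node .nil .nil (.node .nil L .nil .nil) .nil)),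
  ((.node .nil .nil .nil (.node .nil L .nil .nil)), .nil),
  ((.node .nil .nil (.node .nil .nil L .nil) .nil), .nil),
  (.nil, (.node .nil (.node .nil .nil L .nil) .nil .nil)),
  (.nil, (.node (.node .nil .nil .nil L) .nil .nil .nil)),
  ((.node .nil (.node .nil .nil .nil L) .nil .nil), .nil),
  ((.node L L .nil .nil), .nil),
  (L, (.node L .nil .nil .nil)),
  (L, (.node .nil L .nil .nil)),
  ((.node L .nil L .nil), .nil),
  ((.node .nil L L .nil), .nil),
  ((.node .nil L .nil L), .nil),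
  ((.node L .nil .nil L), .nil),
  (L, (.node .nil .nil L .nil)),
  (L, (.node .nil .nil .nil L))]

/-- the third free edge of each level. -/
def r3 (k : ℕ) : P × P :=
  if k = 2 then (A4, B3) else if k = 3 then t33
  else dn .nil .nil (.node .nil .nil L .nil) (comb (k - 3)) .nil

/-- the two trees of the third port of the shape `(0, m)`. -/
def dd (m : ℕ) : T × T :=
  if 2 ≤ m then (.node .nil .nil (r3 m).1.1 (r3 m).1.2, .node .nil .nil (r3 m).2.1 (r3 m).2.2)
  else (.node .nil .nil L .nil, .node .nil .nil .nil L)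

/-- the free edges of level `k`; `s = 1, …, 5`. -/
def r (k s : ℕ) : P × P :=
  if k = 2 then
    (if s = 1 then (A2, B1) else if s = 2 then (B2, A3) else if s = 3 then r3 k
      else if s = 4 then (B4, M2) else (M2, A1))
  else if k = 3 then
    (if s = 1 then t31 else if s = 2 then t32 else if s = 3 then r3 k
      else if s = 4 then t34 else t35)
  else
    (if s = 1 then dn .nil .nil .nil (dd (k - 2)).1 .nil
     else if s = 2 then dn .nil .nil .nil (dd (k - 2)).2 .nil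
     else if s = 3 then r3 k
     else if s = 4 then dn .nil .nil L (dd (k - 3)).1 .nil
     else dn .nil .nil L (dd (k - 3)).2 .nil)

/-- ports of the shape `(1, 1)`. -/
def p11 (s : ℕ) : (P × P) × (P × P) :=
  if s = 1 then p11a else if s = 2 then p11b else p11c

/-- the ports (`s = 1, 2, 3`) of the shape `(i, j)`. -/
def port (i j s : ℕ) : (P × P) × (P × P) :=
  if 2 ≤ i then (((r i s).1, (comb j, .nil)), ((r i s).2, (comb j, .nil)))
  else if 2 ≤ j then (((comb i, .nil), (r j s).1), ((comb i, .nil), (r j s).2))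
  else if i = 1 ∧ j = 1 then p11 s
  else if i = 1 then (((L, .nil), (.nil, .nil)), ((.nil, L), (.nil, .nil)))
  else (((.nil, .nil), (L, .nil)), ((.nil, .nil), (.nil, L)))

/-- colours of trees. -/
def col : T → ℕ
  | .nil => 2
  | .node a _ _ _ => 3 - col a

/-- blocks. -/
inductive Blk : Type
  | A (i j : ℕ) (e : T) : Blk
  | B (i j : ℕ) : Blk
  | D (i j : ℕ) : Blk
deriving DecidableEq

namespace Blk

def fi : Blk → ℕ
  | .A i _ _ => i
  | .B i _ => i
  | .D i _ => i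

def se : Blk → ℕ
  | .A _ j _ => j
  | .B _ j => j
  | .D _ j => j

def emb : Blk → P × P → P
  | .A _ _ e => fun w => (mk w, e)
  | .B _ _ => fun w => (.nil, mk w)
  | .D _ _ => fun w => (L, mk w)

/-- the blocks of level `k`. -/
def Ok (k : ℕ) : Blk → Prop
  | .A i j e => 1 ≤ i + j ∧ i + j + e.size + 1 = k
  | .B i j => 1 ≤ i + j ∧ i + j + 1 = k
  | .D i j => 1 ≤ i + j ∧ i + j + 2 = k

/-- which ports of the block are tracked. -/
def al : Blk → ℕ → Prop
  | .A _ _ e => fun s => s = 3 - col e ∨ s = 3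
  | .B _ _ => fun s => s = 1 ∨ s = 3
  | .D _ _ => fun s => s = 3

/-- the port edge `s` of the block. -/
def pe (b : Blk) (s : ℕ) : Sym2 P :=
  s(b.emb (port b.fi b.se s).1, b.emb (port b.fi b.se s).2)

end Blk

def VV (k : ℕ) : Set P := {p | psize p = k}

/-- tracked edges of level `k`. -/
def KK (k : ℕ) : Set (Sym2 P) := {x | ∃ (b : Blk) (s : ℕ), b.Ok k ∧ b.al s ∧ x = b.pe s}

/-- the free edge `s` of level `k`. -/
def fr (k s : ℕ) : Sym2 P := s((r k s).1, (r k s).2)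

/-- free edges of level `k`. -/
def FR (k : ℕ) : Set (Sym2 P) := {x | ∃ s, 1 ≤ s ∧ s ≤ 5 ∧ x = fr k s}

/-- the main statement of level `k`. -/
def Main (k : ℕ) : Prop := Cyc Adj (VV k) (KK k ∪ FR k)

/-- edges of the shape `(i, j)` which come from tracked edges of the base factor. -/
def KE (i j : ℕ) : Set (Sym2 (P × P)) :=
  {x | (2 ≤ i ∧ ∃ p q w, s(p, q) ∈ KK i ∧ w ∈ VV j ∧ x = s((p, w), (q, w))) ∨
    (i < 2 ∧ 2 ≤ j ∧ ∃ p q w, s(p, q) ∈ KK j ∧ w ∈ VV i ∧ x = s((w, p), (w, q)))}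

/-- port edges of the shape `(i, j)`. -/
def PE (i j : ℕ) : Set (Sym2 (P × P)) :=
  {x | ∃ s, 1 ≤ s ∧ s ≤ 3 ∧ x = s((port i j s).1, (port i j s).2)}

/-- BAS2 -/
def S_BAS2 : Prop := Main 2

/-- BAS3 -/
def S_BAS3 : Prop := Main 3

/-- FREE -/
def S_FREE : Prop := ∀ k s, 2 ≤ k → 1 ≤ s → s ≤ 5 → fr k s ∉ KK k ∧
  ∀ s', 1 ≤ s' → s' ≤ 5 → fr k s = fr k s' → s = s'

/-- SHAP -/
def S_SHAP : Prop := ∀ k, (∀ i, 2 ≤ i → i < k → Main i) → ∀ i j, i < k → j < k → 2 ≤ i + j →
  Cyc (Box Adj Adj) (VV i ×ˢ VV j) (KE i j ∪ PE i j)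

/-- PORT -/
def S_PORT : Prop := ∀ i j s s', 2 ≤ i + j → 1 ≤ s → s ≤ 3 → 1 ≤ s' → s' ≤ 3 →
  s((port i j s).1, (port i j s).2) ∉ KE i j ∧
  (s((port i j s).1, (port i j s).2) = s((port i j s').1, (port i j s').2) → s = s')

end Pool.Agent.K6.H60.TW
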