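import Pool.Agent.K6.H60.TW.Stm

/-!
# MP_7ee132_co: the ladders of level `k ≥ 4`
Definitions and statements of the second batch of pieces (helper60).
-/

namespace Pool.Agent.K6.H60.TW

/-- the trees `(c, d)` of the two ends of the ladders of the blocks `B i j`, `A i j nil`. -/
def cd (i j : ℕ) : (T × T) × (T × T) :=
  if 2 ≤ i then (((dd (i - 1)).1, comb j), ((dd (i - 1)).2, comb j))
  else ((comb i, (dd (j - 1)).1), (comb i, (dd (j - 1)).2))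

namespace Blk

/-- the parent block. -/
def par : Blk → Blk
  | .B i j => .A 0 (i + j) .nil
  | .D i j => .B 0 (i + j + 1)
  | .A i j .nil => .B i j
  | .A i j (.node a b c d) => .A (1 + i + j + a.size) (b.size + c.size) d

/-- the two ends of the port edge of the block. -/
def ch : Blk → P × P
  | .B i j => ((.nil, .node .nil (cd i j).1.1 (cd i j).1.2 .nil),
      (.nil, .node .nil (cd i j).2.1 (cd i j).2.2 .nil))
  | .D i j => ((L, mk (port i j 1).1), (L, mk (port i j 1).2))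
  | .A i j .nil => ((.node .nil (cd i j).1.1 .nil (cd i j).1.2, .nil),
      (.node .nil (cd i j).2.1 .nil (cd i j).2.2, .nil))
  | .A i j (.node a b c d) => ((mk (port i j (col (.node a b c d))).1, .node a b c d),
      (mk (port i j (col (.node a b c d))).2, .node a b c d))

/-- the two ends of the target edge in the parent block (root twists of `ch`). -/
def tg : Blk → P × P
  | .B i j => ((.node .nil .nil (cd i j).1.1 (cd i j).1.2, .nil),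
      (.node .nil .nil (cd i j).2.1 (cd i j).2.2, .nil))
  | .D i j => ((.nil, .node .nil .nil .nil (mk (port i j 1).1)),
      (.nil, .node .nil .nil .nil (mk (port i j 1).2)))
  | .A i j .nil => ((.nil, .node (cd i j).1.1 .nil (cd i j).1.2 .nil),
      (.nil, .node (cd i j).2.1 .nil (cd i j).2.2 .nil))
  | .A i j (.node a b c d) => ((.node (mk (port i j (col (.node a b c d))).1) a b c, d),
      (.node (mk (port i j (col (.node a b c d))).2) a b c, d))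

/-- rank. -/
def rk : Blk → ℕ
  | .B _ _ => 1
  | .D _ _ => 2
  | .A i _ .nil => if i = 0 then 0 else 2
  | .A _ _ (.node a b c d) => 3 + (T.node a b c d).size

/-- the root block of level `k`. -/
def Z (k : ℕ) : Blk := .A 0 (k - 1) .nil

/-- vertex set of the block. -/
def SS (b : Blk) : Set P := b.emb '' (VV b.fi ×ˢ VV b.se)

/-- prescribed edges of the block, all of them. -/
def FE (b : Blk) : Set (Sym2 P) := Sym2.map b.emb '' (KE b.fi b.se ∪ PE b.fi b.se)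

open Classical in
/-- prescribed edges of the path / cycle of the block. -/
noncomputable def EE (k : ℕ) (b : Blk) : Set (Sym2 P) :=
  if b.fi + b.se = 1 then {b.pe 1}
  else if b = Z k then b.FE else b.FE \ {s(b.ch.1, b.ch.2)}

end Blk

open Blk

/-- SIZ -/
def S_SIZ : Prop :=
  (∀ k s, 2 ≤ k → psize (r k s).1 = k ∧ psize (r k s).2 = k) ∧
  (∀ m, 1 ≤ m → (dd m).1.size = m + 1 ∧ (dd m).2.size = m + 1 ∧ (dd m).1 ≠ (dd m).2) ∧
  (∀ i j s, 1 ≤ i + j → psize (port i j s).1.1 = i ∧ psize (port i j s).1.2 = j ∧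
    psize (port i j s).2.1 = i ∧ psize (port i j s).2.2 = j) ∧
  (∀ n, (comb n).size = n) ∧
  (∀ k x y, s(x, y) ∈ KK k → psize x = k ∧ psize y = k) ∧
  (∀ m, 1 ≤ m → mk (port 0 m 3).1 = (dd m).1 ∧ mk (port 0 m 3).2 = (dd m).2)

/-- FIN -/
def S_FIN : Prop := ∀ k, {b : Blk | b.Ok k}.Finite

/-- DISJ -/
def S_DISJ : Prop := ∀ k, ∀ b b' : Blk, b.Ok k → b'.Ok k → b ≠ b' → Disjoint b.SS b'.SS

/-- COV -/
def S_COV : Prop := ∀ k, 3 ≤ k → (⋃ b ∈ {b : Blk | b.Ok k}, b.SS) = VV k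

/-- LADJ -/
def S_LADJ : Prop := (∀ x y, Adj x y → Adj y x) ∧
  (∀ b : Blk, Adj b.ch.1 b.tg.1 ∧ Adj b.ch.2 b.tg.2) ∧
  (∀ b : Blk, Function.Injective b.emb ∧ ∀ x y, Box Adj Adj x y → Adj (b.emb x) (b.emb y))

/-- PAR -/
def S_PAR : Prop := ∀ k, 4 ≤ k → (Z k).Ok k ∧ ∀ b : Blk, b.Ok k → b ≠ Z k →
  b.par.Ok k ∧ b.par.rk < b.rk

/-- CHE -/
def S_CHE : Prop := ∀ k, 4 ≤ k → ∀ b : Blk, b.Ok k → b ≠ Z k →
  (b.fi + b.se = 1 ∧ s(b.ch.1, b.ch.2) = b.pe 1) ∨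
  (2 ≤ b.fi + b.se ∧ (s(b.ch.1, b.ch.2) ∈ Sym2.map b.emb '' KE b.fi b.se ∨
    ∃ s, 1 ≤ s ∧ s ≤ 3 ∧ ¬ b.al s ∧ s(b.ch.1, b.ch.2) = b.pe s))

/-- TGE -/
def S_TGE : Prop := ∀ k, 4 ≤ k → ∀ b : Blk, b.Ok k → b ≠ Z k →
  2 ≤ b.par.fi + b.par.se ∧ s(b.tg.1, b.tg.2) ∈ Sym2.map b.par.emb '' KE b.par.fi b.par.se

/-- TNC -/
def S_TNC : Prop := ∀ k, 4 ≤ k → ∀ b : Blk, b.Ok k → b ≠ Z k → b.par ≠ Z k →
  s(b.tg.1, b.tg.2) ≠ s(b.par.ch.1, b.par.ch.2)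

/-- TIN -/
def S_TIN : Prop := ∀ k, 4 ≤ k → ∀ b b' : Blk, b.Ok k → b'.Ok k → b ≠ Z k → b' ≠ Z k →
  s(b.tg.1, b.tg.2) = s(b'.tg.1, b'.tg.2) → b = b'

/-- TRK -/
def S_TRK : Prop := ∀ k, 4 ≤ k → ∀ (b : Blk) (s : ℕ), b.Ok k → b.al s → b.pe s ∈ EE k b ∧
  ∀ b' : Blk, b'.Ok k → b' ≠ Z k → b.pe s ≠ s(b'.tg.1, b'.tg.2)

/-- RUN -/
def S_RUN : Prop := ∀ k s, 4 ≤ k → 1 ≤ s → s ≤ 5 → ∃ b : Blk, b.Ok k ∧ b ≠ Z k ∧
  (fr k s = s(b.ch.1, b.tg.1) ∨ fr k s = s(b.ch.2, b.tg.2))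

/-- BLK -/
def S_BLK : Prop := ∀ k, 4 ≤ k → (∀ i, 2 ≤ i → i < k → Main i) →
  Cyc Adj (Z k).SS (EE k (Z k)) ∧
  ∀ b : Blk, b.Ok k → b ≠ Z k → Pth Adj b.SS b.ch.1 b.ch.2 (EE k b)

/-- STEP (assembly). -/
def S_STEP : Prop := ∀ k, 4 ≤ k → (∀ i, 2 ≤ i → i < k → Main i) → Main k

end Pool.Agent.K6.H60.TW
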